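import Mathlib

/-!
# Elementary counting lemmas
-/

set_option autoImplicit false

namespace Pool.Agent.MP_259de8

/-- A set of reals which is `s`-separated and contained in an interval of length `L` has at most `L/s + 1`
elements (the floors of `(x - min)/s` are distinct integers in `[0, L/s]`). -/
theorem sep_count {ι : Type*} (Q : Finset ι) (a : ι → ℝ) {L s : ℝ} (hs : 0 < s) (hL : 0 ≤ L)
    (h1 : ∀ i ∈ Q, ∀ j ∈ Q, |a i - a j| ≤ L) (h2 : ∀ i ∈ Q, ∀ j ∈ Q, i ≠ j → s ≤ |a i - a j|) :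
    (Q.card : ℝ) ≤ L / s + 1 := by
  rcases Q.eq_empty_or_nonempty with hQ | hQ
  · rw [hQ, Finset.card_empty, Nat.cast_zero]
    positivity
  · obtain ⟨m, hm, hmin⟩ := Finset.exists_min_image Q a hQ
    have h0 : ∀ i ∈ Q, 0 ≤ (a i - a m) / s := fun i hi =>
      div_nonneg (sub_nonneg.2 (hmin i hi)) hs.le
    have hcard : Q.card ≤ (Finset.range (⌊L / s⌋₊ + 1)).card := by
      refine Finset.card_le_card_of_injOn (fun i => ⌊(a i - a m) / s⌋₊) ?_ ?_
      · intro i hi
        have h3 : (a i - a m) / s ≤ L / s :=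
          div_le_div_of_nonneg_right ((le_abs_self _).trans (h1 i hi m hm)) hs.le
        rw [Finset.coe_range, Set.mem_Iio]
        exact Nat.lt_succ_of_le (Nat.floor_le_floor h3)
      · intro i hi j hj hij
        by_contra hne
        have h4 : ⌊(a i - a m) / s⌋₊ = ⌊(a j - a m) / s⌋₊ := hij
        have h5 := h2 i hi j hj hne
        have h6 := Nat.floor_le (h0 i hi)
        have h7 := Nat.lt_floor_add_one ((a i - a m) / s)
        have h8 := Nat.floor_le (h0 j hj)
        have h9 := Nat.lt_floor_add_one ((a j - a m) / s)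
        rw [h4] at h6 h7
        have h10 : |(a i - a m) / s - (a j - a m) / s| < 1 := by
          rw [abs_sub_lt_iff]
          constructor <;> linarith
        have h11 : (a i - a m) / s - (a j - a m) / s = (a i - a j) / s := by ring
        rw [h11, abs_div, abs_of_pos hs, div_lt_one hs] at h10
        exact absurd h5 (not_le.2 h10)
    rw [Finset.card_range] at hcard
    have h12 : (Q.card : ℝ) ≤ (⌊L / s⌋₊ : ℝ) + 1 := by exact_mod_cast hcard
    have h13 := Nat.floor_le (div_nonneg hL hs.le)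
    linarith

/-- the number of integers which are floors of `x/w` for `x` in a bounded set -/
theorem floor_count {ι : Type*} (Q : Finset ι) (a : ι → ℝ) {L w : ℝ} (hw : 0 < w) (hL : 0 ≤ L)
    (h1 : ∀ i ∈ Q, ∀ j ∈ Q, |a i - a j| ≤ L) :
    ((Q.image (fun i => ⌊a i / w⌋)).card : ℝ) ≤ L / w + 2 := by
  rcases Q.eq_empty_or_nonempty with hQ | hQ
  · rw [hQ, Finset.image_empty, Finset.card_empty, Nat.cast_zero]
    positivity
  · obtain ⟨m, hm, hmin⟩ := Finset.exists_min_image Q a hQ
    have hsub : Q.image (fun i => ⌊a i / w⌋) ⊆ Finset.Icc ⌊a m / w⌋ ⌊(a m + L) / w⌋ := by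
      intro z hz
      obtain ⟨i, hi, rfl⟩ := Finset.mem_image.1 hz
      rw [Finset.mem_Icc]
      constructor
      · exact Int.floor_le_floor (div_le_div_of_nonneg_right (hmin i hi) hw.le)
      · refine Int.floor_le_floor (div_le_div_of_nonneg_right ?_ hw.le)
        have := (le_abs_self _).trans (h1 i hi m hm)
        linarith
    have hcard := Finset.card_le_card hsub
    rw [Int.card_Icc] at hcard
    have h2 : ⌊a m / w⌋ ≤ ⌊(a m + L) / w⌋ :=
      Int.floor_le_floor (div_le_div_of_nonneg_right (by linarith) hw.le)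
    have h3 : ((⌊(a m + L) / w⌋ + 1 - ⌊a m / w⌋).toNat : ℝ) =
        (⌊(a m + L) / w⌋ : ℝ) + 1 - (⌊a m / w⌋ : ℝ) := by
      have h4 : ((⌊(a m + L) / w⌋ + 1 - ⌊a m / w⌋).toNat : ℤ) =
          ⌊(a m + L) / w⌋ + 1 - ⌊a m / w⌋ := Int.toNat_of_nonneg (by omega)
      have h5 : (((⌊(a m + L) / w⌋ + 1 - ⌊a m / w⌋).toNat : ℤ) : ℝ) =
          ((⌊(a m + L) / w⌋ + 1 - ⌊a m / w⌋ : ℤ) : ℝ) := by rw [h4]
      push_cast at h5
      exact h5
    have h6 : ((Q.image (fun i => ⌊a i / w⌋)).card : ℝ) ≤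
        (⌊(a m + L) / w⌋ : ℝ) + 1 - (⌊a m / w⌋ : ℝ) := by
      rw [← h3]
      exact_mod_cast hcard
    have h7 := Int.floor_le ((a m + L) / w)
    have h8 := Int.lt_floor_add_one (a m / w)
    have h9 : (a m + L) / w = a m / w + L / w := add_div _ _ _
    rw [h9] at h7 h6
    linarith

end Pool.Agent.MP_259de8
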