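import Pool.Agent.Lib.MP_259de8_co.G.ClassA
import Pool.Agent.Lib.MP_259de8_co.G.Count

/-!
# One-sided edges
-/

set_option autoImplicit false

namespace Pool.Agent.MP_259de8

variable {ε : ℝ} {S : Finset ℂ} {E : Finset (ℂ × ℂ)}

private theorem class_half (hS : Sys ε S E) (hε : 0 < ε) {w : ℝ} (hw : 0 ≤ w) (u : ℂ)
    (Q : Finset (ℂ × ℂ)) (hQ : ∀ e ∈ Q, e ∈ E1 E ∧ e.1 = u)
    (h : ∀ e ∈ Q, ∀ f ∈ Q, |ang e - ang f| ≤ w * Real.sqrt ε) :
    (Q.card : ℝ) ≤ 4 * w / Real.sqrt ε + 1 := by
  have hs : 0 < Real.sqrt ε := Real.sqrt_pos.mpr hε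
  have h1 := sep_count Q ang (L := w * Real.sqrt ε) (s := ε / 4) (by positivity) (by positivity) h
    (by
      intro e he f hf hne
      by_contra hlt
      rw [not_le] at hlt
      apply hne
      refine pack_ang hS (hQ e he).1 (hQ f hf).1 ?_ hlt.le
      rw [(hQ e he).2, (hQ f hf).2, sub_self, norm_zero]
      positivity)
  have h2 : w * Real.sqrt ε / (ε / 4) = 4 * w / Real.sqrt ε := by
    have h3 : Real.sqrt ε * Real.sqrt ε = ε := Real.mul_self_sqrt hε.le
    rw [div_eq_div_iff (by positivity) hs.ne']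
    linear_combination (w) * h3
  rw [h2] at h1
  exact h1

open Classical in
/-- one-sided edges in one class at one vertex: at most `8w/√ε + 2`.
Proof: those satisfying the first alternative of `OneSided` have angles in an interval of length `w√ε`
(below the largest one); angles at one vertex are `ε/4`-separated by `pack_ang`; `sep_count`. -/
theorem os_fiber (hS : Sys ε S E) (hε : 0 < ε) {w : ℝ} (hw : 0 ≤ w) (u : ℂ) (k : ℤ) :
    (((E1 E).filter (fun e => e.1 = u ∧ cls ε e = k ∧ OneSided ε E w e)).card : ℝ) ≤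
      8 * w / Real.sqrt ε + 2 := by
  have hsub : (E1 E).filter (fun e => e.1 = u ∧ cls ε e = k ∧ OneSided ε E w e) ⊆
      (E1 E).filter (fun e => e.1 = u ∧ cls ε e = k ∧
        (∀ f ∈ E1 E, f.1 = e.1 → cls ε f = cls ε e → ang f < ang e + w * Real.sqrt ε)) ∪
      (E1 E).filter (fun e => e.1 = u ∧ cls ε e = k ∧
        (∀ f ∈ E1 E, f.1 = e.1 → cls ε f = cls ε e → ang e - w * Real.sqrt ε < ang f)) := by
    intro e he
    rw [Finset.mem_filter] at he
    rw [Finset.mem_union, Finset.mem_filter, Finset.mem_filter]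
    obtain ⟨h1, h2, h3, h4⟩ := he
    rcases h4 with h4 | h4
    · exact Or.inl ⟨h1, h2, h3, h4⟩
    · exact Or.inr ⟨h1, h2, h3, h4⟩
  have hA := class_half hS hε hw u
    ((E1 E).filter (fun e => e.1 = u ∧ cls ε e = k ∧
        (∀ f ∈ E1 E, f.1 = e.1 → cls ε f = cls ε e → ang f < ang e + w * Real.sqrt ε)))
    (fun e he => by
      rw [Finset.mem_filter] at he
      exact ⟨he.1, he.2.1⟩)
    (fun e he f hf => by
      rw [Finset.mem_filter] at he hf
      obtain ⟨he1, he2, he3, he4⟩ := he
      obtain ⟨hf1, hf2, hf3, hf4⟩ := hf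
      have a1 := he4 f hf1 (hf2.trans he2.symm) (hf3.trans he3.symm)
      have a2 := hf4 e he1 (he2.trans hf2.symm) (he3.trans hf3.symm)
      rw [abs_le]
      constructor <;> linarith)
  have hB := class_half hS hε hw u
    ((E1 E).filter (fun e => e.1 = u ∧ cls ε e = k ∧
        (∀ f ∈ E1 E, f.1 = e.1 → cls ε f = cls ε e → ang e - w * Real.sqrt ε < ang f)))
    (fun e he => by
      rw [Finset.mem_filter] at he
      exact ⟨he.1, he.2.1⟩)
    (fun e he f hf => by
      rw [Finset.mem_filter] at he hf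
      obtain ⟨he1, he2, he3, he4⟩ := he
      obtain ⟨hf1, hf2, hf3, hf4⟩ := hf
      have a1 := he4 f hf1 (hf2.trans he2.symm) (hf3.trans he3.symm)
      have a2 := hf4 e he1 (he2.trans hf2.symm) (he3.trans hf3.symm)
      rw [abs_le]
      constructor <;> linarith)
  have hc := (Finset.card_le_card hsub).trans (Finset.card_union_le _ _)
  have hc' := (Nat.cast_le (α := ℝ)).mpr hc
  rw [Nat.cast_add] at hc'
  have e8 : 8 * w / Real.sqrt ε + 2 = (4 * w / Real.sqrt ε + 1) + (4 * w / Real.sqrt ε + 1) := by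
    ring
  rw [e8]
  exact hc'.trans (add_le_add hA hB)

/-- every edge is one-sided with margin `1` (a class has width `√ε/20`) -/
theorem oneSided_one (hε : 0 < ε) (e : ℂ × ℂ) : OneSided ε E 1 e := by
  left
  intro f _ _ hcl
  have hs : 0 < Real.sqrt ε := Real.sqrt_pos.mpr hε
  have hs2 : 0 < Real.sqrt ε / 20 := by positivity
  unfold cls at hcl
  have h1 := Int.lt_floor_add_one (ang f / (Real.sqrt ε / 20))
  have h2 := Int.floor_le (ang e / (Real.sqrt ε / 20))
  rw [hcl] at h1
  have h3 : ang f / (Real.sqrt ε / 20) < ang e / (Real.sqrt ε / 20) + 1 := by linarith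
  rw [div_lt_iff₀ hs2, add_mul, div_mul_cancel₀ _ hs2.ne'] at h3
  linarith

open Classical in
/-- **(O)**: the number of one-sided edges of unit scale.  Proof: at most `126/√ε + 2` classes
(`floor_count` with `L = 2π`), `os_fiber`, sum over the starting points (in `S`). -/
theorem count_O (hS : Sys ε S E) (hε : 0 < ε) (hε1 : ε ≤ 1) {w : ℝ} (hw : 0 ≤ w) :
    (((E1 E).filter (fun e => OneSided ε E w e)).card : ℝ) ≤
      2000 * S.card * (w / ε + 1 / Real.sqrt ε) := by
  have hs : 0 < Real.sqrt ε := Real.sqrt_pos.mpr hε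
  have hs1 : Real.sqrt ε ≤ 1 := Real.sqrt_le_one.mpr hε1
  have hss : Real.sqrt ε * Real.sqrt ε = ε := Real.mul_self_sqrt hε.le
  set K : Finset ℤ := (E1 E).image (fun e => ⌊ang e / (Real.sqrt ε / 20)⌋) with hK
  have hKc : (K.card : ℝ) ≤ 128 / Real.sqrt ε := by
    have h1 := floor_count (E1 E) ang (L := 2 * Real.pi) (w := Real.sqrt ε / 20) (by positivity)
      (by positivity) (by
        intro e _ f _
        have a1 := ang_mem e
        have a2 := ang_mem f
        rw [abs_le]
        constructor <;> linarith)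
    refine h1.trans ?_
    have h2 : 2 * Real.pi / (Real.sqrt ε / 20) = 40 * Real.pi / Real.sqrt ε := by
      field_simp
      ring
    rw [h2]
    have h3 : (2 : ℝ) ≤ 2 / Real.sqrt ε := by
      rw [le_div_iff₀ hs]
      linarith
    have h4 : 40 * Real.pi / Real.sqrt ε + 2 / Real.sqrt ε ≤ 128 / Real.sqrt ε := by
      rw [← add_div]
      have := Real.pi_lt_d2
      exact div_le_div_of_nonneg_right (by linarith) hs.le
    linarith
  set n : ℕ := ⌊8 * w / Real.sqrt ε + 2⌋₊ with hn
  have hn1 : (n : ℝ) ≤ 8 * w / Real.sqrt ε + 2 := Nat.floor_le (by positivity)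
  have hcard : ((E1 E).filter (fun e => OneSided ε E w e)).card ≤ n * (S ×ˢ K).card := by
    refine Finset.card_le_mul_card_image_of_maps_to (f := fun e : ℂ × ℂ => (e.1, cls ε e)) ?_ n ?_
    · intro e he
      rw [Finset.mem_filter] at he
      rw [Finset.mem_product]
      refine ⟨(hS.mem e.1 e.2 (mem_E1.mp he.1).1).1, ?_⟩
      exact Finset.mem_image.mpr ⟨e, he.1, rfl⟩
    · rintro ⟨u, k⟩ _
      have h1 := os_fiber hS hε hw u k
      have h2 : (((E1 E).filter (fun e => OneSided ε E w e)).filter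
          (fun e => (e.1, cls ε e) = (u, k))).card ≤
          ((E1 E).filter (fun e => e.1 = u ∧ cls ε e = k ∧ OneSided ε E w e)).card := by
        refine Finset.card_le_card ?_
        intro e he
        rw [Finset.mem_filter, Finset.mem_filter, Prod.mk.injEq] at he
        rw [Finset.mem_filter]
        exact ⟨he.1.1, he.2.1, he.2.2, he.1.2⟩
      refine h2.trans ?_
      exact Nat.le_floor h1
  have hcard' := (Nat.cast_le (α := ℝ)).mpr hcard
  rw [Nat.cast_mul, Finset.card_product, Nat.cast_mul] at hcard'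
  refine hcard'.trans ?_
  have hS0 : (0 : ℝ) ≤ S.card := Nat.cast_nonneg _
  calc (n : ℝ) * ((S.card : ℝ) * (K.card : ℝ))
      ≤ (8 * w / Real.sqrt ε + 2) * ((S.card : ℝ) * (128 / Real.sqrt ε)) := by
        gcongr
    _ = S.card * (1024 * (w / ε) + 256 * (1 / Real.sqrt ε)) := by
        have h5 : 8 * w / Real.sqrt ε * (128 / Real.sqrt ε) = 1024 * (w / ε) := by
          rw [div_mul_div_comm, hss]
          ring
        have h6 : 2 * (128 / Real.sqrt ε) = 256 * (1 / Real.sqrt ε) := by ring
        rw [← h5, ← h6]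
        ring
    _ ≤ 2000 * S.card * (w / ε + 1 / Real.sqrt ε) := by
        have h7 : 0 ≤ w / ε := by positivity
        have h8 : 0 ≤ 1 / Real.sqrt ε := by positivity
        nlinarith [mul_nonneg hS0 h7, mul_nonneg hS0 h8]

end Pool.Agent.MP_259de8
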