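import Pool.Agent.Lib.MP_259de8_co.G.Walk

/-!
# Angles, packing
-/

set_option autoImplicit false

namespace Pool.Agent.MP_259de8

variable {ε : ℝ} {S : Finset ℂ} {E : Finset (ℂ × ℂ)}

theorem mem_E1 {e : ℂ × ℂ} : e ∈ E1 E ↔ e ∈ E ∧ 1 ≤ ‖e.2 - e.1‖ ∧ ‖e.2 - e.1‖ < 2 := by
  simp [E1]

/-- the vector of an edge in polar form -/
theorem edge_polar (e : ℂ × ℂ) : e.2 - e.1 = (‖e.2 - e.1‖ : ℂ) * uv (ang e) := by
  rw [uv, ang]
  exact (Complex.norm_mul_exp_arg_mul_I _).symm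

theorem dir_eq_uv {e : ℂ × ℂ} (h : e.2 ≠ e.1) : dir (e.2 - e.1) = uv (ang e) := by
  have h0 : (‖e.2 - e.1‖ : ℂ) ≠ 0 := by
    rw [Ne, Complex.ofReal_eq_zero, norm_eq_zero, sub_eq_zero]
    exact h
  rw [dir]
  nth_rewrite 2 [edge_polar e]
  rw [← mul_assoc, inv_mul_cancel₀ h0, one_mul]

theorem uv_add (a b : ℝ) : uv (a + b) = uv a * uv b := by
  rw [uv, uv, uv, ← Complex.exp_add]
  congr 1
  push_cast
  ring

theorem norm_uv_sub_le (a b : ℝ) : ‖uv a - uv b‖ ≤ |a - b| := by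
  have h1 : uv a - uv b = uv b * (Complex.exp (Complex.I * ((a - b : ℝ) : ℂ)) - 1) := by
    have h2 : uv a = uv b * uv (a - b) := by
      rw [← uv_add]
      congr 1
      ring
    rw [h2, uv, uv, mul_sub, mul_one, mul_comm Complex.I]
  rw [h1, norm_mul, norm_uv, one_mul]
  have h3 := Real.norm_exp_I_mul_ofReal_sub_one_le (x := a - b)
  rwa [Real.norm_eq_abs] at h3

theorem ang_mem (e : ℂ × ℂ) : -Real.pi < ang e ∧ ang e ≤ Real.pi :=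
  ⟨Complex.neg_pi_lt_arg _, Complex.arg_le_pi _⟩

/-- packing, angular form -/
theorem pack_ang (hS : Sys ε S E) {e f : ℂ × ℂ} (he : e ∈ E1 E) (hf : f ∈ E1 E)
    (h : ‖f.1 - e.1‖ ≤ ε / 8) (ha : |ang e - ang f| ≤ ε / 4) : e = f := by
  obtain ⟨he1, he2, -⟩ := mem_E1.1 he
  obtain ⟨hf1, hf2, -⟩ := mem_E1.1 hf
  have he3 : e.2 ≠ e.1 := (hS.mem e.1 e.2 he1).2.2.symm
  have hf3 : f.2 ≠ f.1 := (hS.mem f.1 f.2 hf1).2.2.symm
  refine hS.pack 1 one_pos e.1 e.2 f.1 f.2 he1 hf1 he2 hf2 (by rwa [mul_one]) ?_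
  rw [dir_eq_uv he3, dir_eq_uv hf3]
  exact (norm_uv_sub_le _ _).trans ha

end Pool.Agent.MP_259de8
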