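import Pool.Agent.Lib.MP_259de8_co.G.Defs

/-!
# Coordinates with respect to a unit vector
-/

set_option autoImplicit false

namespace Pool.Agent.MP_259de8

theorem norm_coord {t : ℂ} (ht : ‖t‖ = 1) (z : ℂ) : ‖z‖ = Real.sqrt ((cx t z) ^ 2 + (cy t z) ^ 2) := by
  have h1 : ‖(starRingEnd ℂ) t * z‖ = ‖z‖ := by
    rw [norm_mul, RCLike.norm_conj, ht, one_mul]
  rw [← h1]
  unfold cx cy
  rw [Complex.norm_eq_sqrt_sq_add_sq]

theorem cx_sub (t z w : ℂ) : cx t (z - w) = cx t z - cx t w := by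
  unfold cx
  rw [mul_sub, Complex.sub_re]

theorem cy_sub (t z w : ℂ) : cy t (z - w) = cy t z - cy t w := by
  unfold cy
  rw [mul_sub, Complex.sub_im]

theorem norm_uv (θ : ℝ) : ‖uv θ‖ = 1 := by
  unfold uv
  exact Complex.norm_exp_ofReal_mul_I θ

private theorem Coord_aux {t : ℂ} (ht : ‖t‖ = 1) (l α : ℝ) :
    (starRingEnd ℂ) t * ((l : ℂ) * (t * uv α)) = (l : ℂ) * uv α := by
  have h : (starRingEnd ℂ) t * t = 1 := by
    rw [mul_comm, Complex.mul_conj, Complex.normSq_eq_norm_sq, ht]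
    simp
  calc (starRingEnd ℂ) t * ((l : ℂ) * (t * uv α)) = ((starRingEnd ℂ) t * t) * ((l : ℂ) * uv α) := by ring
    _ = (l : ℂ) * uv α := by rw [h, one_mul]

/-- coordinates of a vector of length `l` and angle `α` with respect to `t` -/
theorem cx_polar {t : ℂ} (ht : ‖t‖ = 1) (l α : ℝ) : cx t ((l : ℂ) * (t * uv α)) = l * Real.cos α := by
  unfold cx
  rw [Coord_aux ht, uv, Complex.re_ofReal_mul, Complex.exp_ofReal_mul_I_re]

theorem cy_polar {t : ℂ} (ht : ‖t‖ = 1) (l α : ℝ) : cy t ((l : ℂ) * (t * uv α)) = l * Real.sin α := by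
  unfold cy
  rw [Coord_aux ht, uv, Complex.im_ofReal_mul, Complex.exp_ofReal_mul_I_im]

end Pool.Agent.MP_259de8
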