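import Mathlib

/-!
# Abstract greedy spanner systems in the plane

The plane is `ℂ`.  `Sys ε S E`: `E` is the (symmetric) set of oriented edges of a greedy `(1+ε)`-spanner of
the finite set `S`.  Only the following facts are recorded: the spanner property (`path`), the chain
(leapfrog) inequality (`chain`) and the packing property (`pack`).
-/

set_option autoImplicit false

open Complex

namespace Pool.Agent.MP_259de8

/-- `Pth E x y c`: there is a walk from `x` to `y` along edges of `E` of total length `c`. -/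
inductive Pth (E : Finset (ℂ × ℂ)) : ℂ → ℂ → ℝ → Prop
  | nil (x : ℂ) : Pth E x x 0
  | cons {x y z : ℂ} {c : ℝ} (he : (x, y) ∈ E) (hc : Pth E y z c) : Pth E x z (‖y - x‖ + c)

/-- Costs of mixed chains which only use pairs of length `< M`: an edge of `E` costs its length, a jump
between two points of `S` costs `(1+ε)` times its length. -/
inductive Cost (ε : ℝ) (S : Finset ℂ) (E : Finset (ℂ × ℂ)) (M : ℝ) : ℂ → ℂ → ℝ → Prop
  | nil (x : ℂ) : Cost ε S E M x x 0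
  | jump {x y z : ℂ} {c : ℝ} (hx : x ∈ S) (hy : y ∈ S) (h : ‖y - x‖ < M) (hc : Cost ε S E M y z c) :
      Cost ε S E M x z ((1 + ε) * ‖y - x‖ + c)
  | edge {x y z : ℂ} {c : ℝ} (he : (x, y) ∈ E) (h : ‖y - x‖ < M) (hc : Cost ε S E M y z c) :
      Cost ε S E M x z (‖y - x‖ + c)

/-- the unit vector of direction `z` -/
noncomputable def dir (z : ℂ) : ℂ := (‖z‖ : ℂ)⁻¹ * z

structure Sys (ε : ℝ) (S : Finset ℂ) (E : Finset (ℂ × ℂ)) : Prop where
  mem : ∀ a b, (a, b) ∈ E → a ∈ S ∧ b ∈ S ∧ a ≠ b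
  symm : ∀ a b, (a, b) ∈ E → (b, a) ∈ E
  path : ∀ a ∈ S, ∀ b ∈ S, ∃ c, Pth E a b c ∧ c ≤ (1 + ε) * ‖b - a‖
  chain : ∀ a b, (a, b) ∈ E → ∀ c, Cost ε S E ‖b - a‖ a b c → (1 + ε) * ‖b - a‖ < c
  pack : ∀ r : ℝ, 0 < r → ∀ a b a' b', (a, b) ∈ E → (a', b') ∈ E → r ≤ ‖b - a‖ → r ≤ ‖b' - a'‖ →
    ‖a' - a‖ ≤ ε * r / 8 → ‖dir (b - a) - dir (b' - a')‖ ≤ ε / 4 → (a, b) = (a', b')

/-- coordinate along the unit vector `t` -/
noncomputable def cx (t z : ℂ) : ℝ := ((starRingEnd ℂ) t * z).re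

/-- coordinate perpendicular to the unit vector `t` -/
noncomputable def cy (t z : ℂ) : ℝ := ((starRingEnd ℂ) t * z).im

/-- the unit vector of angle `θ` -/
noncomputable def uv (θ : ℝ) : ℂ := Complex.exp (θ * Complex.I)

/-- the edges of unit scale -/
noncomputable def E1 (E : Finset (ℂ × ℂ)) : Finset (ℂ × ℂ) := by
  classical exact E.filter (fun e => 1 ≤ ‖e.2 - e.1‖ ∧ ‖e.2 - e.1‖ < 2)

/-- the angle of an oriented edge -/
noncomputable def ang (e : ℂ × ℂ) : ℝ := Complex.arg (e.2 - e.1)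

/-- direction classes of width `√ε / 20` -/
noncomputable def cls (ε : ℝ) (e : ℂ × ℂ) : ℤ := ⌊ang e / (Real.sqrt ε / 20)⌋

/-- `e` has margin at most `w √ε` on one side in its class -/
def OneSided (ε : ℝ) (E : Finset (ℂ × ℂ)) (w : ℝ) (e : ℂ × ℂ) : Prop :=
  (∀ f ∈ E1 E, f.1 = e.1 → cls ε f = cls ε e → ang f < ang e + w * Real.sqrt ε) ∨
  (∀ f ∈ E1 E, f.1 = e.1 → cls ε f = cls ε e → ang e - w * Real.sqrt ε < ang f)

/-- there is a point of `S` at distance between `ε/16` and `A ε` from the start of `e`, in the sector of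
half-width about `√ε` around `e` -/
def Viol (ε : ℝ) (S : Finset ℂ) (A : ℝ) (e : ℂ × ℂ) : Prop :=
  ∃ p ∈ S, ε / 16 ≤ ‖p - e.1‖ ∧ ‖p - e.1‖ ≤ A * ε ∧ 0 < cx (dir (e.2 - e.1)) (p - e.1) ∧
    |cy (dir (e.2 - e.1)) (p - e.1)| ≤ Real.sqrt ε * ‖p - e.1‖

end Pool.Agent.MP_259de8
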