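import Pool.Agent.Lib.MP_259de8_co.G.Coord

/-!
# Walks, mixed chains
-/

set_option autoImplicit false

namespace Pool.Agent.MP_259de8

variable {ε : ℝ} {S : Finset ℂ} {E : Finset (ℂ × ℂ)}

theorem Pth.norm_le {x y : ℂ} {c : ℝ} (h : Pth E x y c) : ‖y - x‖ ≤ c := by
  induction h with
  | nil x => simp
  | @cons x y z c he hc ih =>
    have e : z - x = (y - x) + (z - y) := by ring
    rw [e]
    exact (norm_add_le _ _).trans (by linarith)

theorem Pth.trans {x y z : ℂ} {c d : ℝ} (h : Pth E x y c) (h' : Pth E y z d) : Pth E x z (c + d) := by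
  induction h with
  | nil x => simpa using h'
  | @cons x y w c he hc ih =>
    rw [add_assoc]
    exact Pth.cons he (ih h')

theorem Pth.single {x y : ℂ} (h : (x, y) ∈ E) : Pth E x y ‖y - x‖ := by
  have := Pth.cons h (Pth.nil (E := E) y)
  rwa [add_zero] at this

theorem Cost.trans {M : ℝ} {x y z : ℂ} {c d : ℝ} (h : Cost ε S E M x y c) (h' : Cost ε S E M y z d) :
    Cost ε S E M x z (c + d) := by
  induction h with
  | nil x => simpa using h'
  | @jump x y w c hx hy hxy hc ih =>
    rw [add_assoc]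
    exact Cost.jump hx hy hxy (ih h')
  | @edge x y w c he hxy hc ih =>
    rw [add_assoc]
    exact Cost.edge he hxy (ih h')

/-- a short walk is a mixed chain (each of its edges has length at most `c < M`) -/
theorem Pth.cost {M : ℝ} {x y : ℂ} {c : ℝ} (h : Pth E x y c) (hc : c < M) : Cost ε S E M x y c := by
  induction h with
  | nil x => exact Cost.nil x
  | @cons x y z c he hc' ih =>
    have h0 : 0 ≤ c := le_trans (norm_nonneg _) hc'.norm_le
    have h1 : 0 ≤ ‖y - x‖ := norm_nonneg _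
    exact Cost.edge he (by linarith) (ih (by linarith))

theorem Cost.jump_single {M : ℝ} {x y : ℂ} (hx : x ∈ S) (hy : y ∈ S) (h : ‖y - x‖ < M) :
    Cost ε S E M x y ((1 + ε) * ‖y - x‖) := by
  have := Cost.jump (ε := ε) (E := E) hx hy h (Cost.nil y)
  rwa [add_zero] at this

/-- the first edge of a walk which leaves `P` -/
theorem Pth.exists_cross {P : ℂ → Prop} {x y : ℂ} {c : ℝ} (h : Pth E x y c) (hx : P x) (hy : ¬ P y) :
    ∃ p q c₁ c₂, Pth E x p c₁ ∧ (p, q) ∈ E ∧ Pth E q y c₂ ∧ c₁ + ‖q - p‖ + c₂ = c ∧ P p ∧ ¬ P q := by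
  induction h with
  | nil x => exact absurd hx hy
  | @cons x y z c he hc ih =>
    by_cases hPy : P y
    · obtain ⟨p, q, c₁, c₂, h1, h2, h3, h4, h5, h6⟩ := ih hPy hy
      exact ⟨p, q, ‖y - x‖ + c₁, c₂, Pth.cons he h1, h2, h3, by linarith, h5, h6⟩
    · exact ⟨x, y, 0, c, Pth.nil x, he, hc, by ring, hx, hPy⟩

/-- all vertices of a walk which starts at a point of `S` are in `S` -/
theorem Pth.mem (hS : Sys ε S E) {x y : ℂ} {c : ℝ} (h : Pth E x y c) (hx : x ∈ S) : y ∈ S := by
  induction h with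
  | nil x => exact hx
  | @cons x y z c he hc ih => exact ih (hS.mem x y he).2.1

end Pool.Agent.MP_259de8
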