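import Pool.Agent.Lib.MP_259de8_co.Greedy
import Pool.Agent.Lib.MP_259de8_co.G.Walk

/-!
# The greedy spanner of a planar set, scaled by `1/r`, is a `Sys`
-/

set_option autoImplicit false

namespace Pool.Agent.MP_259de8

open Greedy

/-- the plane `E 2` as `ℂ`, scaled by `1/r` -/
noncomputable def phi (r : ℝ) (x : E 2) : ℂ := ⟨x 0 / r, x 1 / r⟩

open Classical in
/-- the oriented greedy edges of the scaled point set -/
noncomputable def Eo (ε r : ℝ) (S : Finset (E 2)) (L : List (Sym2 (E 2))) : Finset (ℂ × ℂ) :=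
  ((S ×ˢ S).filter (fun p => s(p.1, p.2) ∈ greedy ε L)).image (fun p => (phi r p.1, phi r p.2))

/-- the norm of a complex number with the coordinates of a vector of the plane -/
theorem FromA_norm (u : E 2) (z : ℂ) (h0 : z.re = u 0) (h1 : z.im = u 1) : ‖z‖ = ‖u‖ := by
  rw [EuclideanSpace.norm_eq, Complex.norm_eq_sqrt_sq_add_sq, Fin.sum_univ_two, Real.norm_eq_abs,
    Real.norm_eq_abs, sq_abs, sq_abs, h0, h1]

theorem norm_phi_sub {r : ℝ} (hr : 0 < r) (x y : E 2) : ‖phi r y - phi r x‖ = dist x y / r := by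
  have h := FromA_norm (r⁻¹ • (y - x)) (phi r y - phi r x)
    (by simp only [phi, Complex.sub_re, PiLp.smul_apply, PiLp.sub_apply, smul_eq_mul]; ring)
    (by simp only [phi, Complex.sub_im, PiLp.smul_apply, PiLp.sub_apply, smul_eq_mul]; ring)
  rw [h, norm_smul, Real.norm_eq_abs, abs_of_pos (inv_pos.2 hr), dist_comm, dist_eq_norm]
  ring

theorem phi_injective {r : ℝ} (hr : 0 < r) : Function.Injective (phi r) := by
  intro x y hxy
  have h := norm_phi_sub hr x y
  rw [hxy, sub_self, norm_zero] at h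
  have h2 : dist x y = 0 := by
    have := (div_eq_zero_iff.1 h.symm)
    rcases this with h3 | h3
    · exact h3
    · exact absurd h3 hr.ne'
  exact dist_eq_zero.1 h2

/-- `dir` in terms of the normalised difference in `E 2`: the norm of a difference of directions is the same -/
theorem norm_dir_phi {r : ℝ} (hr : 0 < r) (a b a' b' : E 2) :
    ‖dir (phi r b - phi r a) - dir (phi r b' - phi r a')‖ =
      ‖(dist a b)⁻¹ • (b - a) - (dist a' b')⁻¹ • (b' - a')‖ := by
  have key : ∀ x y : E 2, dir (phi r y - phi r x) =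
      ⟨(dist x y)⁻¹ * (y 0 - x 0), (dist x y)⁻¹ * (y 1 - x 1)⟩ := by
    intro x y
    unfold dir
    rw [norm_phi_sub hr]
    have hq : ((dist x y / r : ℝ) : ℂ)⁻¹ = (((dist x y)⁻¹ * r : ℝ) : ℂ) := by
      rw [← Complex.ofReal_inv, inv_div, div_eq_mul_inv, mul_comm]
    rw [hq]
    apply Complex.ext
    · simp only [phi, Complex.re_ofReal_mul, Complex.sub_re]
      field_simp
    · simp only [phi, Complex.im_ofReal_mul, Complex.sub_im]
      field_simp
  rw [key, key]
  apply FromA_norm
  · simp only [Complex.sub_re, PiLp.smul_apply, PiLp.sub_apply, smul_eq_mul]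
  · simp only [Complex.sub_im, PiLp.smul_apply, PiLp.sub_apply, smul_eq_mul]

end Pool.Agent.MP_259de8
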