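import Pool.Agent.Lib.MP_259de8_co.G.FromA

/-!
# Walks and chains of the scaled system
-/

set_option autoImplicit false

namespace Pool.Agent.MP_259de8

open Greedy

open Classical in
/-- a walk in the graph of a set of edges between points of `S`, all of them greedy edges, is a `Pth` -/
theorem pth_of_walk {ε r : ℝ} (hr : 0 < r) {S : Finset (E 2)} {L : List (Sym2 (E 2))}
    (hL : IsOrdering S L) {u v : E 2} (hu : u ∈ S)
    (p : (SimpleGraph.fromEdgeSet ((greedy ε L : Finset (Sym2 (E 2))) : Set (Sym2 (E 2)))).Walk u v) :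
    Pth (Eo ε r S L) (phi r u) (phi r v) (wlen p / r) := by
  induction p with
  | nil =>
    rw [wlen_nil, zero_div]
    exact Pth.nil _
  | @cons a b c h p ih =>
    rw [wlen_cons]
    have hadj := (SimpleGraph.fromEdgeSet_adj _).1 h
    have hmem : s(a, b) ∈ greedy ε L := by exact_mod_cast hadj.1
    have hb : b ∈ S := ((hL.mem_iff _).1 (mem_of_mem_greedy _ _ _ hmem)).2 b (by simp)
    have hE : (phi r a, phi r b) ∈ Eo ε r S L := by
      unfold Eo
      rw [Finset.mem_image]
      exact ⟨(a, b), by rw [Finset.mem_filter, Finset.mem_product]; exact ⟨⟨hu, hb⟩, hmem⟩, rfl⟩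
    have h2 := Pth.cons hE (ih hb)
    rw [norm_phi_sub hr] at h2
    rw [add_div]
    exact h2

open Classical in
/-- A mixed chain of pairs shorter than the greedy edge `s(a,b)` (at the position `L = L₁ ++ s(a,b) :: L₂`) is
realised by a walk in the greedy graph of `L₁` of at most the same length.
Proof: induction on the chain; pairs of length `< dist a b` precede `s(a,b)` in `L` (`hL.sorted`), so
`processed` (jumps) and `mem_before` (edges) apply to `L₁`. -/
theorem walk_of_cost {ε r : ℝ} (hε : 0 ≤ ε) (hr : 0 < r) {S : Finset (E 2)} {L₁ L₂ : List (Sym2 (E 2))}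
    {a b : E 2} (hL : IsOrdering S (L₁ ++ s(a, b) :: L₂))
    {x y : ℂ} {c : ℝ}
    (hc : Cost ε (S.image (phi r)) (Eo ε r S (L₁ ++ s(a, b) :: L₂)) (dist a b / r) x y c)
    {u v : E 2} (hu : x = phi r u) (hv : y = phi r v) (hv' : v ∈ S) :
    ∃ p : (SimpleGraph.fromEdgeSet ((greedy ε L₁ : Finset (Sym2 (E 2))) : Set (Sym2 (E 2)))).Walk u v,
      wlen p ≤ r * c := by
  have hnd := hL.nodup
  have hsorted := hL.sorted
  have hbefore : ∀ e : Sym2 (E 2), e ∈ L₁ ++ s(a, b) :: L₂ → len e < dist a b → e ∈ L₁ := by
    intro e he hlt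
    rw [List.mem_append] at he
    rcases he with he | he
    · exact he
    · exfalso
      rcases List.mem_cons.1 he with rfl | he
      · simp at hlt
      · have h1 := (List.pairwise_append.1 hsorted).2.1
        have h2 := (List.pairwise_cons.1 h1).1 e he
        rw [len_mk] at h2
        linarith
  have hjump : ∀ p q : E 2, p ∈ S → q ∈ S → dist p q < dist a b →
      HasShortPath ε (greedy ε L₁) p q := by
    intro p q hp hq hlt
    by_cases hpq : p = q
    · subst hpq
      exact HasShortPath.refl _ _
    · have hmem : s(p, q) ∈ L₁ ++ s(a, b) :: L₂ := by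
        rw [hL.mem_iff]
        refine ⟨by simpa using hpq, ?_⟩
        intro z hz
        rw [Sym2.mem_iff] at hz
        rcases hz with rfl | rfl
        · exact hp
        · exact hq
      exact processed hε L₁ p q (hbefore _ hmem (by simpa using hlt))
  induction hc generalizing u with
  | nil x =>
    have huv : u = v := phi_injective hr (hu.symm.trans hv)
    subst huv
    exact ⟨SimpleGraph.Walk.nil, by simp⟩
  | @jump x y z c hx hy h hc ih =>
    obtain ⟨y', hy', rfl⟩ := Finset.mem_image.1 hy
    obtain ⟨x', hx', hxx⟩ := Finset.mem_image.1 hx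
    have hux : x' = u := phi_injective hr (hxx.trans hu)
    subst hux
    rw [hu, norm_phi_sub hr] at h ⊢
    have hlt : dist x' y' < dist a b := (div_lt_div_iff_of_pos_right hr).1 h
    obtain ⟨w, hw⟩ := hjump x' y' hx' hy' hlt
    obtain ⟨w', hw'⟩ := ih rfl hv
    refine ⟨w.append w', ?_⟩
    rw [wlen_append]
    have e1 : r * ((1 + ε) * (dist x' y' / r) + c) = (1 + ε) * dist x' y' + r * c := by
      field_simp
    rw [e1]
    linarith
  | @edge x y z c he h hc ih =>
    have he' := he
    unfold Eo at he'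
    rw [Finset.mem_image] at he'
    obtain ⟨⟨x', y'⟩, hmem, hxy⟩ := he'
    rw [Finset.mem_filter, Finset.mem_product] at hmem
    obtain ⟨⟨hx', hy'⟩, hg⟩ := hmem
    rw [Prod.mk.injEq] at hxy
    obtain ⟨hxx, hyy⟩ := hxy
    simp only at hx' hy' hg hxx hyy
    have hux : x' = u := phi_injective hr (hxx.trans hu)
    subst hux
    subst hyy
    rw [hu, norm_phi_sub hr] at h ⊢
    have hlt : dist x' y' < dist a b := (div_lt_div_iff_of_pos_right hr).1 h
    have hL1 : s(x', y') ∈ L₁ := hbefore _ (mem_of_mem_greedy _ _ _ hg) (by simpa using hlt)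
    have hg1 : s(x', y') ∈ greedy ε L₁ := mem_before hnd hL1 hg
    have hne : x' ≠ y' := by
      have := ((hL.mem_iff _).1 (mem_of_mem_greedy _ _ _ hg)).1
      simpa using this
    have hadj : (SimpleGraph.fromEdgeSet ((greedy ε L₁ : Finset (Sym2 (E 2))) :
        Set (Sym2 (E 2)))).Adj x' y' := by
      rw [SimpleGraph.fromEdgeSet_adj]
      exact ⟨by exact_mod_cast hg1, hne⟩
    obtain ⟨w', hw'⟩ := ih rfl hv
    refine ⟨SimpleGraph.Walk.cons hadj w', ?_⟩
    rw [wlen_cons]
    have e1 : r * (dist x' y' / r + c) = dist x' y' + r * c := by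
      field_simp
    rw [e1]
    linarith

end Pool.Agent.MP_259de8
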