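import Pool.Agent.Lib.MP_259de8_co.G.FromA

/-!
# Edges of one scale in the scaled system
-/

set_option autoImplicit false

namespace Pool.Agent.MP_259de8

open Greedy

open Classical in
/-- the greedy edges of length in `[r, 2r)` are at most as many as the oriented edges of unit scale of the
scaled system -/
theorem card_scale_le {ε r : ℝ} (hr : 0 < r) {S : Finset (E 2)} {L : List (Sym2 (E 2))}
    (hL : IsOrdering S L) :
    ((greedy ε L).filter (fun e => r ≤ len e ∧ len e < 2 * r)).card ≤ (E1 (Eo ε r S L)).card := by
  have hout : ∀ e : Sym2 (E 2), s((Quot.out e).1, (Quot.out e).2) = e := fun e => Quot.out_eq e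
  refine Finset.card_le_card_of_injOn
    (fun e => (phi r (Quot.out e).1, phi r (Quot.out e).2)) ?_ ?_
  · intro e he
    rw [Finset.mem_coe, Finset.mem_filter] at he
    obtain ⟨h1, h2, h3⟩ := he
    rw [Finset.mem_coe]
    have hE : (phi r (Quot.out e).1, phi r (Quot.out e).2) ∈ Eo ε r S L := by
      unfold Eo
      rw [Finset.mem_image]
      refine ⟨((Quot.out e).1, (Quot.out e).2), ?_, rfl⟩
      rw [Finset.mem_filter, Finset.mem_product]
      have hS := ((hL.mem_iff e).mp (mem_of_mem_greedy ε L e h1)).2
      have hm1 : (Quot.out e).1 ∈ e := by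
        have h := Sym2.mem_mk_left (Quot.out e).1 (Quot.out e).2
        rwa [hout e] at h
      have hm2 : (Quot.out e).2 ∈ e := by
        have h := Sym2.mem_mk_right (Quot.out e).1 (Quot.out e).2
        rwa [hout e] at h
      refine ⟨⟨hS _ hm1, hS _ hm2⟩, ?_⟩
      rw [hout e]
      exact h1
    have hl : len e = dist (Quot.out e).1 (Quot.out e).2 := by
      nth_rewrite 1 [← hout e]
      exact len_mk _ _
    unfold E1
    rw [Finset.mem_filter]
    refine ⟨hE, ?_, ?_⟩
    · rw [norm_phi_sub hr, ← hl, le_div_iff₀ hr]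
      linarith
    · rw [norm_phi_sub hr, ← hl, div_lt_iff₀ hr]
      exact h3
  · intro e _ f _ hef
    rw [Prod.mk.injEq] at hef
    have h1 := phi_injective hr hef.1
    have h2 := phi_injective hr hef.2
    rw [← hout e, ← hout f, h1, h2]

end Pool.Agent.MP_259de8
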