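import Pool.Agent.Lib.MP_259de8_co.G.FromB

/-!
# The greedy spanner is a `Sys`
-/

set_option autoImplicit false

namespace Pool.Agent.MP_259de8

open Greedy

open Classical in
private theorem fromGreedy_mem {ε r : ℝ} {S : Finset (E 2)} {L : List (Sym2 (E 2))} {a b : ℂ}
    (h : (a, b) ∈ Eo ε r S L) :
    ∃ u v : E 2, u ∈ S ∧ v ∈ S ∧ s(u, v) ∈ greedy ε L ∧ a = phi r u ∧ b = phi r v := by
  unfold Eo at h
  rw [Finset.mem_image] at h
  obtain ⟨⟨u, v⟩, hp, he⟩ := h
  rw [Finset.mem_filter, Finset.mem_product] at hp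
  rw [Prod.mk.injEq] at he
  exact ⟨u, v, hp.1.1, hp.1.2, hp.2, he.1.symm, he.2.symm⟩

open Classical in
theorem sys_of_greedy {ε r : ℝ} (hε : 0 < ε) (hε1 : ε ≤ 1) (hr : 0 < r) {S : Finset (E 2)}
    {L : List (Sym2 (E 2))} (hL : IsOrdering S L) :
    Sys ε (S.image (phi r)) (Eo ε r S L) := by
  have hne : ∀ u v : E 2, s(u, v) ∈ greedy ε L → u ≠ v := by
    intro u v h huv
    have h1 := ((hL.mem_iff _).1 (mem_of_mem_greedy _ _ _ h)).1
    exact h1 (by simpa using huv)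
  refine ⟨?_, ?_, ?_, ?_, ?_⟩
  · intro a b h
    obtain ⟨u, v, hu, hv, he, rfl, rfl⟩ := fromGreedy_mem h
    exact ⟨Finset.mem_image_of_mem _ hu, Finset.mem_image_of_mem _ hv,
      fun h => hne u v he (phi_injective hr h)⟩
  · intro a b h
    obtain ⟨u, v, hu, hv, he, rfl, rfl⟩ := fromGreedy_mem h
    unfold Eo
    rw [Finset.mem_image]
    refine ⟨(v, u), ?_, rfl⟩
    rw [Finset.mem_filter, Finset.mem_product]
    exact ⟨⟨hv, hu⟩, by rw [Sym2.eq_swap]; exact he⟩
  · intro a ha b hb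
    rw [Finset.mem_image] at ha hb
    obtain ⟨u, hu, rfl⟩ := ha
    obtain ⟨v, hv, rfl⟩ := hb
    by_cases huv : u = v
    · subst huv
      exact ⟨0, Pth.nil _, by simp⟩
    · have hm : s(u, v) ∈ L := by
        rw [hL.mem_iff]
        refine ⟨by simpa using huv, ?_⟩
        intro x hx
        rw [Sym2.mem_iff] at hx
        rcases hx with rfl | rfl <;> assumption
      obtain ⟨p, hp⟩ := processed hε.le L u v hm
      refine ⟨wlen p / r, pth_of_walk hr hL hu p, ?_⟩
      rw [norm_phi_sub hr, ← mul_div_assoc]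
      exact div_le_div_of_nonneg_right hp hr.le
  · intro a b h c hc
    obtain ⟨u, v, hu, hv, he, rfl, rfl⟩ := fromGreedy_mem h
    obtain ⟨L₁, L₂, hsplit⟩ := List.append_of_mem (mem_of_mem_greedy _ _ _ he)
    subst hsplit
    rw [norm_phi_sub hr] at hc ⊢
    obtain ⟨p, hp⟩ := walk_of_cost hε.le hr hL hc rfl rfl hv
    have h1 := no_path hL.nodup he u v rfl
    have h2 : (1 + ε) * dist u v < wlen p := by
      by_contra hcon
      exact h1 ⟨p, not_lt.1 hcon⟩
    rw [← mul_div_assoc, div_lt_iff₀ hr, mul_comm c r]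
    exact h2.trans_le hp
  · intro ρ hρ a b a' b' h h' h1 h1' hp hu
    obtain ⟨p, q, hpS, hqS, he, rfl, rfl⟩ := fromGreedy_mem h
    obtain ⟨p', q', hpS', hqS', he', rfl, rfl⟩ := fromGreedy_mem h'
    rw [norm_phi_sub hr] at h1 h1' hp
    rw [norm_dir_phi hr] at hu
    have g1 : ρ * r ≤ dist p q := by rwa [le_div_iff₀ hr] at h1
    have g1' : ρ * r ≤ dist p' q' := by rwa [le_div_iff₀ hr] at h1'
    have g2 : dist p p' ≤ ε * (ρ * r) / 8 := by
      rw [div_le_iff₀ hr] at hp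
      linarith
    have hρr : 0 < ρ * r := mul_pos hρ hr
    by_cases hs : s(p, q) = s(p', q')
    · rw [Sym2.eq_iff] at hs
      rcases hs with ⟨rfl, rfl⟩ | ⟨rfl, rfl⟩
      · rfl
      · exfalso
        have : ε * (ρ * r) ≤ 1 * (ρ * r) := mul_le_mul_of_nonneg_right hε1 hρr.le
        linarith
    · exact (packing hε hε1 hL hρr he he' hs g1 g1' g2 hu).elim

end Pool.Agent.MP_259de8
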