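import Pool.Agent.Lib.MP_259de8_co.G.Num

/-!
# Numerical inequalities: `η`
-/

set_option autoImplicit false

namespace Pool.Agent.MP_259de8

/-- Bound for `η = |u₁u| + |ub| + |bv₁| - |u₁v₁|`.
Proof: `sqrt_add_sq_le` three times.  `|u₁u| ≤ R + y₁²/(2R) ≤ R + s⁴W/1600`,
`|ub| ≤ x + Yb²/(2x) ≤ x + s⁴W/3200`; with `D = ℓ cos α - R - x ≥ 1/2` (as `cos α ≥ 1 - α²/2`, `R ≤ 1/5`,
`x ≤ 1/200`) and `(y₁ + ℓ sin α - Yb)² ≤ 3 (y₁² + 4 α² + Yb²) ≤ s⁴W/100` (as `|sin α| ≤ |α|`, `ℓ ≤ 2`):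
`|bv₁| ≤ D + s⁴W/100`.  The sum is at most `ℓ cos α + s⁴W/50 ≤ ℓ + s⁴W/50`. -/
theorem eta_le {s W R x y₁ Yb ℓ α : ℝ} (hs : 0 < s) (hs1 : s ≤ 1 / 100) (hW : 0 < W) (hW1 : W ≤ 1)
    (hR : 0 < R) (hR1 : R ≤ 1 / 5) (hx : 0 < x) (hxR : x ≤ W * R / 40)
    (hy : y₁ ^ 2 ≤ s ^ 4 * W * R / 800) (hYb : Yb ^ 2 ≤ s ^ 4 * W * x / 1600)
    (hℓ : 1 ≤ ℓ) (hℓ2 : ℓ ≤ 2) (hα : α ^ 2 ≤ s ^ 4 * W / 1600) :
    Real.sqrt (R ^ 2 + y₁ ^ 2) + Real.sqrt (x ^ 2 + Yb ^ 2) +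
      Real.sqrt ((ℓ * Real.cos α - R - x) ^ 2 + (y₁ + ℓ * Real.sin α - Yb) ^ 2) ≤
        ℓ + s ^ 4 * W / 50 := by
  obtain ⟨P, hP⟩ : ∃ P : ℝ, P = s ^ 4 * W := ⟨_, rfl⟩
  have hP0 : 0 < P := by rw [hP]; positivity
  have hs4 : s ^ 4 ≤ 1 := by
    have : s ^ 4 ≤ (1 : ℝ) ^ 4 := pow_le_pow_left₀ hs.le (by linarith) 4
    simpa using this
  have hP1 : P ≤ 1 := by
    rw [hP]
    calc s ^ 4 * W ≤ 1 * 1 := mul_le_mul hs4 hW1 hW.le zero_le_one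
      _ = 1 := one_mul 1
  have hWR : W * R ≤ 1 / 5 := by
    calc W * R ≤ 1 * (1 / 5) := mul_le_mul hW1 hR1 hR.le zero_le_one
      _ = 1 / 5 := one_mul _
  have hx1 : x ≤ 1 / 200 := by linarith
  rw [← hP] at hy hYb hα ⊢
  have h1 : Real.sqrt (R ^ 2 + y₁ ^ 2) ≤ R + P / 1600 := by
    refine (sqrt_add_sq_le hR).trans ?_
    have : y₁ ^ 2 / (2 * R) ≤ P / 1600 := by
      rw [div_le_iff₀ (by positivity)]
      linarith
    linarith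
  have h2 : Real.sqrt (x ^ 2 + Yb ^ 2) ≤ x + P / 3200 := by
    refine (sqrt_add_sq_le hx).trans ?_
    have : Yb ^ 2 / (2 * x) ≤ P / 3200 := by
      rw [div_le_iff₀ (by positivity)]
      linarith
    linarith
  have hcos : 1 - α ^ 2 / 2 ≤ Real.cos α := Real.one_sub_sq_div_two_le_cos
  have hcos0 : 9 / 10 ≤ Real.cos α := by linarith
  have hD : 1 / 2 ≤ ℓ * Real.cos α - R - x := by
    have : 1 * (9 / 10) ≤ ℓ * Real.cos α := mul_le_mul hℓ hcos0 (by norm_num) (by linarith)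
    linarith
  have hsin : Real.sin α ^ 2 ≤ α ^ 2 := by
    have := Real.abs_sin_le_abs (x := α)
    exact sq_le_sq.mpr this
  have hsq : (y₁ + ℓ * Real.sin α - Yb) ^ 2 ≤ P / 100 := by
    have e1 : (y₁ + ℓ * Real.sin α - Yb) ^ 2 ≤
        3 * (y₁ ^ 2 + (ℓ * Real.sin α) ^ 2 + Yb ^ 2) := by
      nlinarith [sq_nonneg (y₁ - ℓ * Real.sin α), sq_nonneg (y₁ + Yb),
        sq_nonneg (ℓ * Real.sin α + Yb)]
    have e2 : (ℓ * Real.sin α) ^ 2 ≤ 4 * (P / 1600) := by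
      rw [mul_pow]
      have : ℓ ^ 2 ≤ 4 := by nlinarith
      exact mul_le_mul this (hsin.trans hα) (sq_nonneg _) (by norm_num)
    have e3 : y₁ ^ 2 ≤ P / 4000 := by
      have : P * R ≤ P * (1 / 5) := mul_le_mul_of_nonneg_left hR1 hP0.le
      linarith
    have e4 : Yb ^ 2 ≤ P / 320000 := by
      have : P * x ≤ P * (1 / 200) := mul_le_mul_of_nonneg_left hx1 hP0.le
      linarith
    linarith
  have h3 : Real.sqrt ((ℓ * Real.cos α - R - x) ^ 2 + (y₁ + ℓ * Real.sin α - Yb) ^ 2) ≤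
      (ℓ * Real.cos α - R - x) + P / 100 := by
    refine (sqrt_add_sq_le (by linarith)).trans ?_
    have : (y₁ + ℓ * Real.sin α - Yb) ^ 2 / (2 * (ℓ * Real.cos α - R - x)) ≤ P / 100 := by
      rw [div_le_iff₀ (by linarith)]
      have : P / 100 * 1 ≤ P / 100 * (2 * (ℓ * Real.cos α - R - x)) :=
        mul_le_mul_of_nonneg_left (by linarith) (by positivity)
      linarith
    linarith
  have hl : ℓ * Real.cos α ≤ ℓ := by
    have := mul_le_mul_of_nonneg_left (Real.cos_le_one α) (by linarith : (0 : ℝ) ≤ ℓ)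
    linarith
  linarith

end Pool.Agent.MP_259de8
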