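import Pool.Agent.Lib.MP_259de8_co.G.Num

/-!
# Numerical inequalities: confinement
-/

set_option autoImplicit false

namespace Pool.Agent.MP_259de8

/-- Confinement.  Proof: put `c = cos α`, `S = sin α`, `m = X c + Y S` (the component of `p` along the fan
edge), `|m| ≤ 1/2`.  `(lam c - X)² + (lam S - Y)² = (lam - m)² + (X S - Y c)²`, so by `sqrt_add_sq_le`
`√… ≤ lam - m + (X S - Y c)²` (`lam - m ≥ 1/2`) and the left side of `hK` is `≥ m - (X S - Y c)²`,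
`(X S - Y c)² ≤ 2 X² α² + 2 Y²`.  On the right `R + X ≥ (9/10) R` and `√((X+R)²+(Y-y₁)²) ≤ X + R +
(Y-y₁)²/(1.8 R)`, `(Y-y₁)² ≤ 2Y² + 2y₁²`.  Hence
`Y sin α ≤ X (1 - cos α) + 2X²α² + 2Y² + 1.12 Y²/R + 1.12 y₁²/R + η`.  Now `X(1-cos α) ≤ |X| α²/2`,
`2X²α² ≤ |X| α²/4`, `2 y₁²… ≤ 0.0014 s⁴W`, `Y² (2 + 1.12/R) ≤ Y (3 s x)(1.6/R) ≤ Y · 4.8 s W/40 ≤ 0.24 α Y`
(as `W s ≤ 2 α`), `sin α ≥ 0.98 α`, `s⁴ W ≤ 2 α s³`.  So `0.74 α Y ≤ 0.75 |X| α² + 0.044 α s³`. -/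
theorem conf {s W R x X Y y₁ α lam η : ℝ} (hs : 0 < s) (hs1 : s ≤ 1 / 100) (hW : 0 < W) (hW1 : W ≤ 1)
    (hR : 0 < R) (hR1 : R ≤ 1 / 5) (hx : 0 < x) (hxR : x ≤ W * R / 40)
    (hy : y₁ ^ 2 ≤ s ^ 4 * W * R / 800) (hα1 : W * s / 2 ≤ α) (hα2 : α ≤ s / 10)
    (hlam : 1 ≤ lam) (hη : η ≤ s ^ 4 * W / 50)
    (hX1 : |X| ≤ 2 * x) (hY1 : |Y| ≤ 3 * s * x) (hX2 : -(2 * s ^ 2 * x) ≤ X) (hY : 0 ≤ Y)
    (hK : lam - Real.sqrt ((lam * Real.cos α - X) ^ 2 + (lam * Real.sin α - Y) ^ 2) ≤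
      Real.sqrt ((X + R) ^ 2 + (Y - y₁) ^ 2) - R + η) :
    Y ≤ 2 / 15 * s * |X| + 3 / 50 * s ^ 3 := by
  have hα0 : 0 < α := lt_of_lt_of_le (by positivity) hα1
  have hα3 : α ≤ 1 / 1000 := by linarith
  set c : ℝ := Real.cos α with hc
  set S : ℝ := Real.sin α with hS
  have hcS : c ^ 2 + S ^ 2 = 1 := by rw [hc, hS]; exact Real.cos_sq_add_sin_sq α
  have hc1 : c ≤ 1 := Real.cos_le_one α
  have hc0 : 0 ≤ c := Real.cos_nonneg_of_neg_pi_div_two_le_of_le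
    (by linarith [Real.pi_gt_three]) (by linarith [Real.pi_gt_three])
  have hcl : 1 - c ≤ α ^ 2 / 2 := by
    have := Real.one_sub_sq_div_two_le_cos (x := α)
    rw [← hc] at this
    linarith
  have hS0 : 0 ≤ S := Real.sin_nonneg_of_nonneg_of_le_pi hα0.le (by linarith [Real.pi_gt_three])
  have hS1 : S ≤ α := Real.sin_le hα0.le
  have hSl : 98 / 100 * α ≤ S := by
    have h1 : α - α ^ 3 / 6 < S := Real.sin_gt_sub_cube hα0
    have h2 : α ^ 3 ≤ α * (1 / 1000) ^ 2 := by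
      have h3 : α ^ 2 ≤ (1 / 1000) ^ 2 := pow_le_pow_left₀ hα0.le hα3 2
      calc α ^ 3 = α * α ^ 2 := by ring
        _ ≤ α * (1 / 1000) ^ 2 := mul_le_mul_of_nonneg_left h3 hα0.le
    linarith
  -- sizes
  have hWR : W * R ≤ 1 / 5 := by
    have h1 := mul_le_mul_of_nonneg_right hW1 hR.le
    linarith
  have hx1 : x ≤ 1 / 200 := by linarith
  have hxR' : x ≤ R / 40 := by
    have h1 := mul_le_mul_of_nonneg_right hW1 hR.le
    linarith
  have hXa : |X| ≤ 1 / 100 := by linarith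
  have hXl := neg_abs_le X
  have hXu := le_abs_self X
  have hX0 := abs_nonneg X
  have hYx : Y ≤ 3 * s * x := (le_abs_self Y).trans hY1
  have hsx : s * x ≤ 1 / 20000 := by
    have h1 : s * x ≤ 1 / 100 * (1 / 200) := mul_le_mul hs1 hx1 hx.le (by norm_num)
    linarith
  have hYs : Y ≤ 1 / 1000 := by linarith
  set m : ℝ := X * c + Y * S with hm
  have hm1 : m ≤ 1 / 2 := by
    have h1 : X * c ≤ |X| := by
      calc X * c ≤ |X| * c := mul_le_mul_of_nonneg_right hXu hc0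
        _ ≤ |X| * 1 := mul_le_mul_of_nonneg_left hc1 hX0
        _ = |X| := mul_one _
    have h2 : Y * S ≤ Y * 1 := mul_le_mul_of_nonneg_left (by linarith) hY
    linarith
  -- left side
  have hid : (lam * c - X) ^ 2 + (lam * S - Y) ^ 2 = (lam - m) ^ 2 + (X * S - Y * c) ^ 2 := by
    rw [hm]
    have : (lam * c - X) ^ 2 + (lam * S - Y) ^ 2 - ((lam - (X * c + Y * S)) ^ 2 +
      (X * S - Y * c) ^ 2) = (lam ^ 2 - X ^ 2 - Y ^ 2) * ((c ^ 2 + S ^ 2) - 1) := by ring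
    rw [hcS, sub_self, mul_zero] at this
    linarith
  have hlm : 1 / 2 ≤ lam - m := by linarith
  have hsq1 : Real.sqrt ((lam * c - X) ^ 2 + (lam * S - Y) ^ 2) ≤
      lam - m + (X * S - Y * c) ^ 2 := by
    rw [hid]
    refine (sqrt_add_sq_le (by linarith)).trans ?_
    have h1 : (X * S - Y * c) ^ 2 / (2 * (lam - m)) ≤ (X * S - Y * c) ^ 2 := by
      apply div_le_self (sq_nonneg _)
      linarith
    linarith
  have hcross : (X * S - Y * c) ^ 2 ≤ 2 * |X| ^ 2 * α ^ 2 + 2 * Y ^ 2 := by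
    have h1 : (X * S - Y * c) ^ 2 ≤ 2 * (X * S) ^ 2 + 2 * (Y * c) ^ 2 := by
      have h0 := sq_nonneg (X * S + Y * c)
      linarith
    have h2 : (X * S) ^ 2 ≤ |X| ^ 2 * α ^ 2 := by
      rw [mul_pow, sq_abs]
      exact mul_le_mul_of_nonneg_left (pow_le_pow_left₀ hS0 hS1 2) (sq_nonneg X)
    have h3 : (Y * c) ^ 2 ≤ Y ^ 2 := by
      rw [mul_pow]
      calc Y ^ 2 * c ^ 2 ≤ Y ^ 2 * 1 :=
            mul_le_mul_of_nonneg_left (by have h0 := sq_nonneg S; linarith) (sq_nonneg Y)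
        _ = Y ^ 2 := mul_one _
    linarith
  -- right side
  have hRX : 9 / 10 * R ≤ X + R := by linarith
  have hRX0 : 0 < X + R := by linarith
  have hsq2 : Real.sqrt ((X + R) ^ 2 + (Y - y₁) ^ 2) ≤
      X + R + (Y - y₁) ^ 2 / (9 / 5 * R) := by
    refine (sqrt_add_sq_le hRX0).trans ?_
    have h1 : (Y - y₁) ^ 2 / (2 * (X + R)) ≤ (Y - y₁) ^ 2 / (9 / 5 * R) :=
      div_le_div_of_nonneg_left (sq_nonneg _) (by positivity) (by linarith)
    linarith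
  have hYy : (Y - y₁) ^ 2 / (9 / 5 * R) ≤ 10 / 9 * (Y ^ 2 / R) + 10 / 9 * (y₁ ^ 2 / R) := by
    have h1 : (Y - y₁) ^ 2 ≤ 2 * Y ^ 2 + 2 * y₁ ^ 2 := by
      have h0 := sq_nonneg (Y + y₁)
      linarith
    have h2 : (Y - y₁) ^ 2 / (9 / 5 * R) ≤ (2 * Y ^ 2 + 2 * y₁ ^ 2) / (9 / 5 * R) :=
      div_le_div_of_nonneg_right h1 (by positivity)
    have h3 : (2 * Y ^ 2 + 2 * y₁ ^ 2) / (9 / 5 * R) =
        10 / 9 * (Y ^ 2 / R) + 10 / 9 * (y₁ ^ 2 / R) := by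
      field_simp
      ring
    rw [h3] at h2
    exact h2
  have hy1 : y₁ ^ 2 / R ≤ s ^ 4 * W / 800 := by
    rw [div_le_iff₀ hR]
    linarith
  have hY2 : Y ^ 2 / R ≤ Y * (3 / 20 * α) := by
    rw [div_le_iff₀ hR]
    have h1 : Y ^ 2 ≤ Y * (3 * s * x) := by
      have h0 := mul_le_mul_of_nonneg_left hYx hY
      linarith
    have h2 : 3 * s * x ≤ 3 / 20 * α * R := by
      have h3 : s * x ≤ s * (W * R / 40) := mul_le_mul_of_nonneg_left hxR hs.le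
      have h4 : W * s * R ≤ 2 * α * R := mul_le_mul_of_nonneg_right (by linarith) hR.le
      linarith
    calc Y ^ 2 ≤ Y * (3 * s * x) := h1
      _ ≤ Y * (3 / 20 * α * R) := mul_le_mul_of_nonneg_left h2 hY
      _ = Y * (3 / 20 * α) * R := by ring
  have hY3 : Y ^ 2 ≤ Y * (3 / 100 * α) := by
    have h1 : Y ^ 2 / R * R ≤ Y * (3 / 20 * α) * (1 / 5) :=
      mul_le_mul hY2 hR1 hR.le (by positivity)
    rw [div_mul_cancel₀ _ hR.ne'] at h1
    linarith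
  have hs4 : s ^ 4 * W ≤ 2 * α * s ^ 3 := by
    have h1 : s ^ 3 * (W * s) ≤ s ^ 3 * (2 * α) :=
      mul_le_mul_of_nonneg_left (by linarith) (by positivity)
    linarith
  have hXc : X * (1 - c) ≤ |X| * (α ^ 2 / 2) :=
    (mul_le_mul_of_nonneg_right hXu (by linarith)).trans (mul_le_mul_of_nonneg_left hcl hX0)
  have hXX : 2 * |X| ^ 2 * α ^ 2 ≤ 1 / 50 * (|X| * α ^ 2) := by
    have h1 : |X| ^ 2 ≤ 1 / 100 * |X| := by
      have h0 := mul_le_mul_of_nonneg_right hXa hX0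
      linarith
    have h2 : |X| ^ 2 * α ^ 2 ≤ 1 / 100 * |X| * α ^ 2 :=
      mul_le_mul_of_nonneg_right h1 (sq_nonneg α)
    linarith
  -- assemble
  have hmain : Y * S ≤ X * (1 - c) + 2 * |X| ^ 2 * α ^ 2 + 2 * Y ^ 2 + 10 / 9 * (Y ^ 2 / R) +
      10 / 9 * (y₁ ^ 2 / R) + η := by
    have hm' : m = X * c + Y * S := hm
    linarith
  have hYS : 98 / 100 * α * Y ≤ Y * S := by
    have := mul_le_mul_of_nonneg_left hSl hY
    linarith
  have hfin : 74 / 100 * α * Y ≤ 52 / 100 * (|X| * α ^ 2) + 44 / 1000 * (α * s ^ 3) := by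
    have h1 : 0 ≤ α * Y := by positivity
    have h2 : 0 ≤ α * s ^ 3 := by positivity
    linarith
  have hdiv : 74 / 100 * Y ≤ 52 / 100 * (|X| * α) + 44 / 1000 * s ^ 3 := by
    have h1 : α * (74 / 100 * Y) ≤ α * (52 / 100 * (|X| * α) + 44 / 1000 * s ^ 3) := by
      linarith
    exact le_of_mul_le_mul_left h1 hα0
  have hXα : |X| * α ≤ |X| * (s / 10) := mul_le_mul_of_nonneg_left hα2 hX0
  have hXs : 0 ≤ |X| * s := by positivity
  have hs3 : 0 ≤ s ^ 3 := by positivity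
  linarith

end Pool.Agent.MP_259de8
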