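import Pool.Agent.Lib.MP_259de8_co.G.Num

/-!
# Numerical inequalities: no jump over the annulus
-/

set_option autoImplicit false

namespace Pool.Agent.MP_259de8

/-- No edge of the path jumps over the annulus.  `p = (Xp, Yp)`, `q = (Xq, Yq)`, `g = |pq|`.
Proof: `g ≥ (23/8) s²`, so `s² ≤ 0.35 g`; `|Yp| ≤ 0.08 s³`, `|Xq| ≤ g + s²/8 ≤ 1.05 g`, `|Yq| ≤ 0.17 s g`,
`|Yq - Yp| ≤ 0.2 s g`, `ΔX = Xq - Xp ≥ 0.99 g` (positive because `Xq ≥ -2s²x` and `|Xp| ≤ s²/8`), so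
`g ≤ ΔX + 0.021 s² g`.  `|u₁p| ≤ R + Xp + (Yp - y₁)²/(1.9 R)`, and `x ≥ 1.4 s²` (from `|Xq| ≤ 2x`), so
`R ≥ 40 x ≥ 50 s²` and the error is `≤ (2·0.0064 s⁶ + s⁴WR/400)/(1.9R) ≤ 0.002 s⁴ ≤ 0.001 s² g`.
`D = ℓ cos α - R - Xq ≥ 1/2`, `(y₁ + ℓ sin α - Yq)² ≤ 3(y₁² + 4α² + Yq²) ≤ 0.01 s⁴ + 0.09 s² g²` and
`g ≤ |p| + |q| ≤ 0.02`, so `|qv₁| ≤ D + 0.006 s² g`.  The sum is `≤ ℓ cos α + 0.03 s² g`, while
`s²/(1+s²) g ≥ 0.99 s² g`. -/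
theorem cross {s W R x y₁ Xp Yp Xq Yq ℓ α : ℝ} (hs : 0 < s) (hs1 : s ≤ 1 / 100) (hW : 0 < W)
    (hW1 : W ≤ 1) (hR : 0 < R) (hR1 : R ≤ 1 / 5) (hx : 0 < x) (hxR : x ≤ W * R / 40)
    (hy : y₁ ^ 2 ≤ s ^ 4 * W * R / 800) (hℓ : 1 ≤ ℓ) (hℓ2 : ℓ ≤ 2) (hα : α ^ 2 ≤ s ^ 4 * W / 1600)
    (hp : Real.sqrt (Xp ^ 2 + Yp ^ 2) ≤ s ^ 2 / 8) (hq : 3 * s ^ 2 ≤ Real.sqrt (Xq ^ 2 + Yq ^ 2))
    (hXq1 : |Xq| ≤ 2 * x) (hXq2 : -(2 * s ^ 2 * x) ≤ Xq) (hYq1 : |Yq| ≤ 3 * s * x)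
    (hYp : |Yp| ≤ 2 / 15 * s * |Xp| + 3 / 50 * s ^ 3)
    (hYq : |Yq| ≤ 2 / 15 * s * |Xq| + 3 / 50 * s ^ 3) :
    Real.sqrt ((Xp + R) ^ 2 + (Yp - y₁) ^ 2) + Real.sqrt ((Xq - Xp) ^ 2 + (Yq - Yp) ^ 2) +
      Real.sqrt ((ℓ * Real.cos α - R - Xq) ^ 2 + (y₁ + ℓ * Real.sin α - Yq) ^ 2) <
        ℓ + s ^ 2 / (1 + s ^ 2) * Real.sqrt ((Xq - Xp) ^ 2 + (Yq - Yp) ^ 2) := by
  have hs2 : 0 < s ^ 2 := by positivity
  have hs2' : s ^ 2 ≤ 1 / 10000 := by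
    have := pow_le_pow_left₀ hs.le hs1 2
    norm_num at this
    linarith
  have hs3 : s ^ 3 ≤ s ^ 2 / 100 := by
    have := mul_le_mul_of_nonneg_left hs1 hs2.le
    linarith
  have hs3' : 0 < s ^ 3 := by positivity
  have hWR : W * R ≤ 1 / 5 := by
    have := mul_le_mul_of_nonneg_right hW1 hR.le
    linarith
  have hx1 : x ≤ 1 / 200 := by linarith
  have hXp : |Xp| ≤ s ^ 2 / 8 :=
    (Real.abs_le_sqrt (by linarith [sq_nonneg Yp])).trans hp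
  have hYp1 : |Yp| ≤ 2 / 25 * s ^ 3 := by
    have h1 : s * |Xp| ≤ s * (s ^ 2 / 8) := mul_le_mul_of_nonneg_left hXp hs.le
    linarith
  have hXqa : 299 / 100 * s ^ 2 ≤ |Xq| := by
    have h1 : Real.sqrt (Xq ^ 2 + Yq ^ 2) ≤ |Xq| + |Yq| := by
      rw [Real.sqrt_le_left (by positivity)]
      have e1 := sq_abs Xq
      have e2 := sq_abs Yq
      linarith [mul_nonneg (abs_nonneg Xq) (abs_nonneg Yq)]
    have h2 : s * |Xq| ≤ 1 / 100 * |Xq| := mul_le_mul_of_nonneg_right hs1 (abs_nonneg _)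
    linarith
  have hs2x : s ^ 2 * x ≤ s ^ 2 * (1 / 200) := mul_le_mul_of_nonneg_left hx1 hs2.le
  have hXq0 : 0 < Xq := by
    by_contra h
    rw [not_lt] at h
    rw [abs_of_nonpos h] at hXqa
    linarith
  rw [abs_of_pos hXq0] at hXqa hXq1 hYq
  have hsX : s ^ 2 * s ≤ 100 / 299 * Xq * s := mul_le_mul_of_nonneg_right (by linarith) hs.le
  have hs3X : s ^ 3 ≤ 100 / 299 * (s * Xq) := by linarith
  have hYq1' : |Yq| ≤ 4 / 25 * (s * Xq) := by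
    have : 0 < s * Xq := mul_pos hs hXq0
    linarith
  have hYp2 : |Yp| ≤ 3 / 100 * (s * Xq) := by
    have : 0 < s * Xq := mul_pos hs hXq0
    linarith
  obtain ⟨hXpa, hXpb⟩ := abs_le.1 hXp
  obtain ⟨hYpa, hYpb⟩ := abs_le.1 hYp2
  obtain ⟨hYqa, hYqb⟩ := abs_le.1 hYq1'
  obtain ⟨hYpc, hYpd⟩ := abs_le.1 hYp1
  set d := Xq - Xp with hd
  have hd1 : 19 / 20 * Xq ≤ d := by linarith
  have hd0 : 0 < d := by linarith
  have hd2 : 28 / 10 * s ^ 2 ≤ d := by linarith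
  have hdY : |Yq - Yp| ≤ 1 / 5 * (s * d) := by
    have h1 : s * (19 / 20 * Xq) ≤ s * d := mul_le_mul_of_nonneg_left hd1 hs.le
    rw [abs_le]
    constructor <;> linarith [mul_pos hs hXq0]
  -- the middle term
  have hg : Real.sqrt (d ^ 2 + (Yq - Yp) ^ 2) ≤ d + 1 / 50 * (s ^ 2 * d) := by
    refine (sqrt_add_sq_le hd0).trans ?_
    have h1 : (Yq - Yp) ^ 2 ≤ (1 / 5 * (s * d)) ^ 2 := sq_le_sq' (abs_le.1 hdY).1 (abs_le.1 hdY).2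
    have h2 : (Yq - Yp) ^ 2 / (2 * d) ≤ 1 / 50 * (s ^ 2 * d) := by
      rw [div_le_iff₀ (by positivity)]
      calc _ ≤ (1 / 5 * (s * d)) ^ 2 := h1
        _ = 1 / 50 * (s ^ 2 * d) * (2 * d) := by ring
    linarith
  have hg' : d ≤ Real.sqrt (d ^ 2 + (Yq - Yp) ^ 2) := le_sqrt_add_sq
  -- the size of `R`
  have hxs : 299 / 200 * s ^ 2 ≤ x := by linarith
  have hRx : 40 * x ≤ R := by
    have : W * R ≤ 1 * R := mul_le_mul_of_nonneg_right hW1 hR.le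
    linarith
  have hRs : 50 * s ^ 2 ≤ R := by linarith
  have hs4 : s ^ 4 ≤ 10 / 28 * (s ^ 2 * d) := by
    have : s ^ 2 * (28 / 10 * s ^ 2) ≤ s ^ 2 * d := mul_le_mul_of_nonneg_left hd2 hs2.le
    have e : s ^ 2 * (28 / 10 * s ^ 2) = 28 / 10 * s ^ 4 := by ring
    rw [e] at this
    linarith
  have hs4' : 0 < s ^ 4 := by positivity
  -- the first term
  have h1 : Real.sqrt ((Xp + R) ^ 2 + (Yp - y₁) ^ 2) ≤ Xp + R + 1 / 500 * s ^ 4 := by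
    have hA : 95 / 100 * R ≤ Xp + R := by linarith
    have hA0 : 0 < Xp + R := by linarith
    refine (sqrt_add_sq_le hA0).trans ?_
    have e1 : (Yp - y₁) ^ 2 ≤ 2 * Yp ^ 2 + 2 * y₁ ^ 2 := by
      have := sq_nonneg (Yp + y₁)
      have e : (Yp + y₁) ^ 2 = 2 * Yp ^ 2 + 2 * y₁ ^ 2 - (Yp - y₁) ^ 2 := by ring
      linarith
    have e2 : Yp ^ 2 ≤ (2 / 25 * s ^ 3) ^ 2 := sq_le_sq' (by linarith) (by linarith)
    have e3 : s ^ 6 ≤ s ^ 4 * R / 50 := by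
      have : s ^ 4 * (50 * s ^ 2) ≤ s ^ 4 * R := mul_le_mul_of_nonneg_left hRs hs4'.le
      have e : s ^ 4 * (50 * s ^ 2) = 50 * s ^ 6 := by ring
      rw [e] at this
      linarith
    have e4 : s ^ 4 * W * R ≤ s ^ 4 * R := by
      have : s ^ 4 * R * W ≤ s ^ 4 * R * 1 :=
        mul_le_mul_of_nonneg_left hW1 (mul_pos hs4' hR).le
      have e : s ^ 4 * R * W = s ^ 4 * W * R := by ring
      rw [e, mul_one] at this
      exact this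
    have e5 : (Yp - y₁) ^ 2 ≤ 3 / 1000 * (s ^ 4 * R) := by
      have e : (2 / 25 * s ^ 3) ^ 2 = 4 / 625 * s ^ 6 := by ring
      rw [e] at e2
      have f := mul_pos hs4' hR
      linarith
    have e6 : (Yp - y₁) ^ 2 / (2 * (Xp + R)) ≤ 1 / 500 * s ^ 4 := by
      rw [div_le_iff₀ (by positivity)]
      have h5 : s ^ 4 * (95 / 100 * R) ≤ s ^ 4 * (Xp + R) := mul_le_mul_of_nonneg_left hA hs4'.le
      have h6 := mul_pos hs4' hR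
      have h7 : s ^ 4 * (95 / 100 * R) = 95 / 100 * (s ^ 4 * R) := by ring
      have h8 : 1 / 500 * s ^ 4 * (2 * (Xp + R)) = 1 / 250 * (s ^ 4 * (Xp + R)) := by ring
      rw [h7] at h5
      rw [h8]
      linarith
    linarith
  -- the third term
  have hα0 : α ^ 2 ≤ s ^ 4 / 1600 := by
    have : s ^ 4 * W ≤ s ^ 4 * 1 := mul_le_mul_of_nonneg_left hW1 hs4'.le
    linarith
  have hs4s : s ^ 4 ≤ 1 / 10000 := by
    have h5 : s ^ 4 = s ^ 2 * s ^ 2 := by ring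
    have h6 : s ^ 2 * s ^ 2 ≤ s ^ 2 * (1 / 10000) := mul_le_mul_of_nonneg_left hs2' hs2.le
    rw [h5]
    linarith
  have hcos : 1 - α ^ 2 / 2 ≤ Real.cos α := Real.one_sub_sq_div_two_le_cos
  have hcos1 : Real.cos α ≤ 1 := Real.cos_le_one α
  have hℓc : 9 / 10 ≤ ℓ * Real.cos α := by
    have h5 : 9 / 10 ≤ Real.cos α := by linarith
    have h6 : 1 * Real.cos α ≤ ℓ * Real.cos α := mul_le_mul_of_nonneg_right hℓ (by linarith)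
    linarith
  have hℓc1 : ℓ * Real.cos α ≤ ℓ := mul_le_of_le_one_right (by linarith) hcos1
  have h3 : Real.sqrt ((ℓ * Real.cos α - R - Xq) ^ 2 + (y₁ + ℓ * Real.sin α - Yq) ^ 2) ≤
      ℓ * Real.cos α - R - Xq + 1 / 100 * (s ^ 2 * d) + 1 / 100 * s ^ 4 := by
    have hD : 1 / 2 ≤ ℓ * Real.cos α - R - Xq := by linarith
    refine (sqrt_add_sq_le (by linarith)).trans ?_
    have e1 : (y₁ + ℓ * Real.sin α - Yq) ^ 2 ≤
        3 * y₁ ^ 2 + 3 * (ℓ * Real.sin α) ^ 2 + 3 * Yq ^ 2 := by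
      have f1 := sq_nonneg (y₁ - ℓ * Real.sin α)
      have f2 := sq_nonneg (y₁ + Yq)
      have f3 := sq_nonneg (ℓ * Real.sin α + Yq)
      have e : 3 * y₁ ^ 2 + 3 * (ℓ * Real.sin α) ^ 2 + 3 * Yq ^ 2 -
          (y₁ + ℓ * Real.sin α - Yq) ^ 2 = (y₁ - ℓ * Real.sin α) ^ 2 + (y₁ + Yq) ^ 2 +
          (ℓ * Real.sin α + Yq) ^ 2 := by ring
      linarith
    have e2 : (ℓ * Real.sin α) ^ 2 ≤ 4 * α ^ 2 := by
      have f1 : Real.sin α ^ 2 ≤ α ^ 2 := by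
        have := Real.abs_sin_le_abs (x := α)
        exact sq_le_sq.2 this
      have f2 : ℓ ^ 2 ≤ 4 := by
        have := pow_le_pow_left₀ (by linarith) hℓ2 2
        norm_num at this
        exact this
      calc (ℓ * Real.sin α) ^ 2 = ℓ ^ 2 * Real.sin α ^ 2 := by ring
        _ ≤ 4 * α ^ 2 := mul_le_mul f2 f1 (sq_nonneg _) (by norm_num)
    have e3 : s ^ 4 * W * R ≤ s ^ 4 * (1 / 5) := by
      calc s ^ 4 * W * R = s ^ 4 * (W * R) := by ring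
        _ ≤ _ := mul_le_mul_of_nonneg_left hWR hs4'.le
    have e4 : Yq ^ 2 ≤ (4 / 25 * (s * Xq)) ^ 2 := sq_le_sq' hYqa hYqb
    have e5 : (s * Xq) ^ 2 ≤ 1 / 10 * (s ^ 2 * d) := by
      have g1 : Xq ≤ 1 / 100 := by linarith
      have g2 : Xq * Xq ≤ 1 / 100 * Xq := mul_le_mul_of_nonneg_right g1 hXq0.le
      have g3 : Xq * Xq ≤ 1 / 10 * d := by linarith
      calc (s * Xq) ^ 2 = s ^ 2 * (Xq * Xq) := by ring
        _ ≤ s ^ 2 * (1 / 10 * d) := mul_le_mul_of_nonneg_left g3 hs2.le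
        _ = _ := by ring
    have e6 : (y₁ + ℓ * Real.sin α - Yq) ^ 2 ≤ 1 / 100 * (s ^ 2 * d) + 1 / 100 * s ^ 4 := by
      have h5 := mul_pos hs2 hd0
      have h6 : (4 / 25 * (s * Xq)) ^ 2 = 16 / 625 * (s * Xq) ^ 2 := by ring
      rw [h6] at e4
      linarith
    have e7 : (y₁ + ℓ * Real.sin α - Yq) ^ 2 / (2 * (ℓ * Real.cos α - R - Xq)) ≤
        (y₁ + ℓ * Real.sin α - Yq) ^ 2 :=
      div_le_self (sq_nonneg _) (by linarith)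
    linarith
  -- the sum
  have hr : 9 / 10 * (s ^ 2 * d) ≤
      s ^ 2 / (1 + s ^ 2) * Real.sqrt (d ^ 2 + (Yq - Yp) ^ 2) := by
    have e1 : 9 / 10 * s ^ 2 ≤ s ^ 2 / (1 + s ^ 2) := by
      rw [le_div_iff₀ (by positivity)]
      have h5 : s ^ 2 * s ^ 2 ≤ s ^ 2 * (1 / 10000) := mul_le_mul_of_nonneg_left hs2' hs2.le
      have h6 : 9 / 10 * s ^ 2 * (1 + s ^ 2) = 9 / 10 * s ^ 2 + 9 / 10 * (s ^ 2 * s ^ 2) := by ring
      rw [h6]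
      linarith
    calc 9 / 10 * (s ^ 2 * d) = 9 / 10 * s ^ 2 * d := by ring
      _ ≤ s ^ 2 / (1 + s ^ 2) * Real.sqrt (d ^ 2 + (Yq - Yp) ^ 2) :=
        mul_le_mul e1 hg' hd0.le (by positivity)
  have hpos : 0 < s ^ 2 * d := mul_pos hs2 hd0
  have hd' : Xp - Xq = -d := by rw [hd]; ring
  linarith

end Pool.Agent.MP_259de8
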