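import Pool.Agent.Lib.MP_259de8_co.G.Num

/-!
# Numerical inequalities: the far end
-/

set_option autoImplicit false

namespace Pool.Agent.MP_259de8

/-- The far end is closer than the length of the edge.
Proof: `D = ℓ cos α - R - X ≥ 1/2`, `D ≤ ℓ - R + 2 s² x`, and the square root is
`≤ D + (y₁ + ℓ sin α - Y)² ≤ D + 3 (y₁² + 4 α² + Y²) ≤ D + 3 (s⁴WR/800 + s⁴W/400 + 9 s² x²)`; finally
`R ≥ 40 x` and `s⁴ ≤ 16 s² x`. -/
theorem far_lt {s W R x X Y y₁ ℓ α : ℝ} (hs : 0 < s) (hs1 : s ≤ 1 / 100) (hW : 0 < W)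
    (hW1 : W ≤ 1) (hR : 0 < R) (hR1 : R ≤ 1 / 5) (hx : s ^ 2 / 16 ≤ x) (hxR : x ≤ W * R / 40)
    (hy : y₁ ^ 2 ≤ s ^ 4 * W * R / 800) (hℓ : 1 ≤ ℓ) (hℓ2 : ℓ ≤ 2) (hα : α ^ 2 ≤ s ^ 4 * W / 1600)
    (hX1 : |X| ≤ 2 * x) (hX2 : -(2 * s ^ 2 * x) ≤ X) (hY : |Y| ≤ 3 * s * x) :
    Real.sqrt ((ℓ * Real.cos α - R - X) ^ 2 + (y₁ + ℓ * Real.sin α - Y) ^ 2) < ℓ := by
  have hℓ0 : 0 < ℓ := by linarith
  have hx0 : 0 < x := lt_of_lt_of_le (by positivity) hx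
  have hWR : W * R ≤ R := by nlinarith
  have hRx : 40 * x ≤ R := by linarith
  have hs2 : s ^ 2 ≤ 1 / 10000 := by nlinarith
  have hs2p : 0 < s ^ 2 := by positivity
  have hs4 : s ^ 4 ≤ 16 * (s ^ 2 * x) := by
    have : s ^ 4 = s ^ 2 * s ^ 2 := by ring
    rw [this]
    nlinarith
  have hs4p : 0 < s ^ 4 := by positivity
  have hs4s : s ^ 4 ≤ 1 / 10000 := by
    have : s ^ 4 = s ^ 2 * s ^ 2 := by ring
    rw [this]
    nlinarith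
  have hWR0 : 0 < W * R := by positivity
  have hWR1 : W * R ≤ 1 / 5 := by linarith
  have hx1 : x ≤ 1 / 200 := by linarith
  have hα1 : α ^ 2 ≤ s ^ 4 / 1600 := by
    have : s ^ 4 * W ≤ s ^ 4 * 1 := mul_le_mul_of_nonneg_left hW1 hs4p.le
    linarith
  have hα2 : α ^ 2 ≤ 1 / 10000 := by linarith
  have hc1 := Real.cos_le_one α
  have hc2 := Real.one_sub_sq_div_two_le_cos (x := α)
  have hc0 : 0 ≤ Real.cos α := by nlinarith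
  have hsin : Real.sin α ^ 2 ≤ α ^ 2 := by
    have h1 := Real.sin_sq_add_cos_sq α
    nlinarith
  have hXa := abs_le.1 hX1
  -- bounds for the first coordinate
  have hD1 : ℓ * Real.cos α - R - X ≤ ℓ - 39 * x := by
    have h1 : ℓ * Real.cos α ≤ ℓ * 1 := mul_le_mul_of_nonneg_left hc1 hℓ0.le
    have h2 : s ^ 2 * x ≤ 1 / 10000 * x := mul_le_mul_of_nonneg_right hs2 hx0.le
    linarith
  have hD2 : 1 / 2 ≤ ℓ * Real.cos α - R - X := by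
    have h1 : 1 * Real.cos α ≤ ℓ * Real.cos α := mul_le_mul_of_nonneg_right hℓ hc0
    linarith [hXa.2]
  -- the second coordinate
  have hY2 : Y ^ 2 ≤ 9 * s ^ 2 * x ^ 2 := by
    have h1 : Y ^ 2 = |Y| ^ 2 := (sq_abs Y).symm
    have h2 : |Y| ^ 2 ≤ (3 * s * x) ^ 2 := pow_le_pow_left₀ (abs_nonneg Y) hY 2
    nlinarith
  have hS2 : (ℓ * Real.sin α) ^ 2 ≤ 4 * α ^ 2 := by
    have h1 : ℓ ^ 2 ≤ 4 := by nlinarith
    have h2 : ℓ ^ 2 * Real.sin α ^ 2 ≤ 4 * Real.sin α ^ 2 :=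
      mul_le_mul_of_nonneg_right h1 (sq_nonneg _)
    calc (ℓ * Real.sin α) ^ 2 = ℓ ^ 2 * Real.sin α ^ 2 := by ring
      _ ≤ 4 * Real.sin α ^ 2 := h2
      _ ≤ 4 * α ^ 2 := by linarith
  have hE : (y₁ + ℓ * Real.sin α - Y) ^ 2 ≤ 3 * (y₁ ^ 2 + (ℓ * Real.sin α) ^ 2 + Y ^ 2) := by
    nlinarith [sq_nonneg (y₁ - ℓ * Real.sin α), sq_nonneg (y₁ + Y),
      sq_nonneg (ℓ * Real.sin α + Y)]
  have h1 : s ^ 4 * W * R ≤ 16 * (s ^ 2 * x) / 5 := by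
    have h3 : s ^ 4 * (W * R) ≤ s ^ 4 * (1 / 5) := mul_le_mul_of_nonneg_left hWR1 hs4p.le
    have h4 : s ^ 4 * W * R = s ^ 4 * (W * R) := by ring
    linarith
  have h2 : α ^ 2 ≤ s ^ 2 * x / 100 := by linarith
  have h3 : 9 * s ^ 2 * x ^ 2 ≤ 9 * (s ^ 2 * x) / 200 := by
    have h4 : s ^ 2 * x * x ≤ s ^ 2 * x * (1 / 200) :=
      mul_le_mul_of_nonneg_left hx1 (by positivity)
    have h5 : 9 * s ^ 2 * x ^ 2 = 9 * (s ^ 2 * x * x) := by ring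
    linarith
  have h4 : s ^ 2 * x ≤ 1 / 10000 * x := mul_le_mul_of_nonneg_right hs2 hx0.le
  have hsx : 0 < s ^ 2 * x := by positivity
  have hfin : (y₁ + ℓ * Real.sin α - Y) ^ 2 ≤ s ^ 2 * x := by linarith
  rw [Real.sqrt_lt' hℓ0]
  have h5 : (ℓ * Real.cos α - R - X) ^ 2 ≤ (ℓ - 39 * x) ^ 2 :=
    pow_le_pow_left₀ (by linarith) hD1 2
  nlinarith

end Pool.Agent.MP_259de8
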