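import Pool.Agent.Lib.MP_259de8_co.G.Num

/-!
# Numerical inequalities: the ellipse
-/

set_option autoImplicit false

namespace Pool.Agent.MP_259de8

/-- A priori position of the points of a short path from `0` to `b = (x, Yb)`.
Proof: `√(x²+Yb²) ≤ x + Yb²/(2x) ≤ x + s⁴/3200 ≤ (1 + s²/200) x` (as `s²/16 ≤ x`), so the left side of `h` is
at most `(1 + 1.1 s²) x`.  `|X| + |x - X| ≤` left side gives `-(2 s² x) ≤ X` and `|X| ≤ 2x`.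
Minkowski: `√(X²+Y²) + √((x-X)²+(Yb-Y)²) ≥ √(x² + (|Y|+|Yb-Y|)²) ≥ √(x²+Y²)`, so
`Y² ≤ ((1+1.1s²)² - 1) x² ≤ 9 s² x²`. -/
theorem ellipse {s x X Y Yb : ℝ} (hs : 0 < s) (hs1 : s ≤ 1 / 100) (hx : s ^ 2 / 16 ≤ x)
    (hYb : Yb ^ 2 ≤ s ^ 4 * x / 1600)
    (h : Real.sqrt (X ^ 2 + Y ^ 2) + Real.sqrt ((x - X) ^ 2 + (Yb - Y) ^ 2) ≤
      (1 + s ^ 2) * Real.sqrt (x ^ 2 + Yb ^ 2)) :
    |X| ≤ 2 * x ∧ |Y| ≤ 3 * s * x ∧ -(2 * s ^ 2 * x) ≤ X := by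
  have hs2 : 0 < s ^ 2 := by positivity
  have hs3 : s ^ 2 ≤ 1 / 10000 := by nlinarith
  have hx0 : 0 < x := by nlinarith
  have hR : Real.sqrt (x ^ 2 + Yb ^ 2) ≤ (1 + s ^ 2 / 200) * x := by
    refine Real.sqrt_le_iff.2 ⟨by positivity, ?_⟩
    have h1 : s ^ 4 * x ≤ 16 * s ^ 2 * x ^ 2 := by
      have h2 : s ^ 2 * x * s ^ 2 ≤ s ^ 2 * x * (16 * x) :=
        mul_le_mul_of_nonneg_left (by linarith) (by positivity)
      nlinarith [h2]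
    have h3 : ((1 + s ^ 2 / 200) * x) ^ 2 = x ^ 2 + s ^ 2 * x ^ 2 / 100 + s ^ 4 * x ^ 2 / 40000 := by
      ring
    rw [h3]
    have h4 : 0 ≤ s ^ 4 * x ^ 2 / 40000 := by positivity
    linarith
  have hL : Real.sqrt (X ^ 2 + Y ^ 2) + Real.sqrt ((x - X) ^ 2 + (Yb - Y) ^ 2) ≤
      (1 + 11 / 10 * s ^ 2) * x := by
    have h1 : (1 + s ^ 2) * Real.sqrt (x ^ 2 + Yb ^ 2) ≤ (1 + s ^ 2) * ((1 + s ^ 2 / 200) * x) :=
      mul_le_mul_of_nonneg_left hR (by positivity)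
    have h2 : (1 + s ^ 2) * ((1 + s ^ 2 / 200) * x) ≤ (1 + 11 / 10 * s ^ 2) * x := by
      have h3 : (1 + s ^ 2) * (1 + s ^ 2 / 200) ≤ 1 + 11 / 10 * s ^ 2 := by nlinarith
      nlinarith [mul_le_mul_of_nonneg_right h3 hx0.le]
    linarith
  have hA : |X| ≤ Real.sqrt (X ^ 2 + Y ^ 2) := Real.abs_le_sqrt (by nlinarith [sq_nonneg Y])
  have hB : |x - X| ≤ Real.sqrt ((x - X) ^ 2 + (Yb - Y) ^ 2) :=
    Real.abs_le_sqrt (by nlinarith [sq_nonneg (Yb - Y)])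
  have hsx : s ^ 2 * x ≤ x / 10000 := by nlinarith
  have hX1 := le_abs_self X
  have hX2 := neg_abs_le X
  have hX3 := le_abs_self (x - X)
  have hX4 := neg_abs_le (x - X)
  have hsx0 : 0 < s ^ 2 * x := by positivity
  refine ⟨?_, ?_, ?_⟩
  · rw [abs_le]
    constructor <;> nlinarith
  · have hT : Real.sqrt (x ^ 2 + Y ^ 2) ≤ (1 + 11 / 10 * s ^ 2) * x := by
      refine le_trans ?_ hL
      have hT0 : 0 < Real.sqrt (x ^ 2 + Y ^ 2) := Real.sqrt_pos.2 (by positivity)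
      have hTT : Real.sqrt (x ^ 2 + Y ^ 2) * Real.sqrt (x ^ 2 + Y ^ 2) = x ^ 2 + Y ^ 2 :=
        Real.mul_self_sqrt (by positivity)
      have h1 : X * x + Y ^ 2 ≤ Real.sqrt (X ^ 2 + Y ^ 2) * Real.sqrt (x ^ 2 + Y ^ 2) := by
        rw [← Real.sqrt_mul (by positivity)]
        refine Real.le_sqrt_of_sq_le ?_
        nlinarith [sq_nonneg (X * Y - x * Y)]
      have h2 : (x - X) * x ≤
          Real.sqrt ((x - X) ^ 2 + (Yb - Y) ^ 2) * Real.sqrt (x ^ 2 + Y ^ 2) := by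
        rw [← Real.sqrt_mul (by positivity)]
        refine Real.le_sqrt_of_sq_le ?_
        have e : ((x - X) ^ 2 + (Yb - Y) ^ 2) * (x ^ 2 + Y ^ 2) = ((x - X) * x) ^ 2 +
            ((x - X) * Y) ^ 2 + ((Yb - Y) * x) ^ 2 + ((Yb - Y) * Y) ^ 2 := by ring
        rw [e]
        nlinarith [sq_nonneg ((x - X) * Y), sq_nonneg ((Yb - Y) * x), sq_nonneg ((Yb - Y) * Y)]
      have h3 : Real.sqrt (x ^ 2 + Y ^ 2) * Real.sqrt (x ^ 2 + Y ^ 2) ≤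
          (Real.sqrt (X ^ 2 + Y ^ 2) + Real.sqrt ((x - X) ^ 2 + (Yb - Y) ^ 2)) *
            Real.sqrt (x ^ 2 + Y ^ 2) := by
        rw [hTT, add_mul]
        nlinarith [h1, h2]
      exact le_of_mul_le_mul_right h3 hT0
    have h4 := (Real.sqrt_le_iff.1 hT).2
    refine abs_le_of_sq_le_sq ?_ (by positivity)
    have h5 : ((1 + 11 / 10 * s ^ 2) * x) ^ 2 = x ^ 2 + (11 / 5 * s ^ 2 + 121 / 100 * s ^ 4) * x ^ 2 := by
      ring
    rw [h5] at h4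
    have h6 : 11 / 5 * s ^ 2 + 121 / 100 * s ^ 4 ≤ 9 * s ^ 2 := by nlinarith
    have h7 := mul_le_mul_of_nonneg_right h6 (sq_nonneg x)
    have h8 : (3 * s * x) ^ 2 = 9 * s ^ 2 * x ^ 2 := by ring
    rw [h8]
    linarith
  · nlinarith

end Pool.Agent.MP_259de8
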