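import Pool.Agent.Lib.MP_259de8_co.G.GeomA
import Pool.Agent.Lib.MP_259de8_co.G.NumA
import Pool.Agent.Lib.MP_259de8_co.G.NumB
import Pool.Agent.Lib.MP_259de8_co.G.NumC
import Pool.Agent.Lib.MP_259de8_co.G.NumD
import Pool.Agent.Lib.MP_259de8_co.G.NumE

/-!
# A forced vertex near the start of a two-sided fan with an aligned back edge
-/

set_option autoImplicit false

namespace Pool.Agent.MP_259de8

variable {ε : ℝ} {S : Finset ℂ} {E : Finset (ℂ × ℂ)}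

private theorem Geom_polar {t : ℂ} (ht : ‖t‖ = 1) {a z w : ℂ} {l α : ℝ}
    (h : a - z = (l : ℂ) * (t * uv α)) :
    ‖a - w‖ = Real.sqrt ((l * Real.cos α + cx t (z - w)) ^ 2 + (l * Real.sin α + cy t (z - w)) ^ 2) := by
  have e : a - w = (l : ℂ) * (t * uv α) + (z - w) := by
    rw [← h]
    ring
  rw [norm_coord ht, e]
  congr 1
  have e1 : cx t ((l : ℂ) * (t * uv α) + (z - w)) = l * Real.cos α + cx t (z - w) := by
    rw [← cx_polar ht]
    unfold cx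
    rw [mul_add, Complex.add_re]
  have e2 : cy t ((l : ℂ) * (t * uv α) + (z - w)) = l * Real.sin α + cy t (z - w) := by
    rw [← cy_polar ht]
    unfold cy
    rw [mul_add, Complex.add_im]
  rw [e1, e2]

/-- Position of the vertices of the walk. -/
private theorem Geom_confined (hS : Sys ε S E) (hε : 0 < ε) {s W R x y₁ Yb α₁ : ℝ} (hs : 0 < s)
    (hs2 : s ^ 2 = ε) (hs1 : s ≤ 1 / 100) (hW : 0 < W)
    (hW1 : W ≤ 1) {t : ℂ} (ht : ‖t‖ = 1) {u₁ v₁ u vp vm b : ℂ}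
    (h₁ : (u₁, v₁) ∈ E) (h₁a : 1 ≤ ‖v₁ - u₁‖) (h₁b : ‖v₁ - u₁‖ ≤ 2)
    (hα₁ : α₁ ^ 2 ≤ s ^ 4 * W / 1600) (hv₁ : v₁ - u₁ = (‖v₁ - u₁‖ : ℂ) * (t * uv α₁))
    (hp : (u, vp) ∈ E) (hpa : 1 ≤ ‖vp - u‖)
    {αp : ℝ} (hαp1 : W * s / 2 ≤ αp) (hαp2 : αp ≤ s / 10)
    (hvp : vp - u = (‖vp - u‖ : ℂ) * (t * uv αp))
    (hm : (u, vm) ∈ E) (hma : 1 ≤ ‖vm - u‖)
    {αm : ℝ} (hαm1 : W * s / 2 ≤ αm) (hαm2 : αm ≤ s / 10)
    (hvm : vm - u = (‖vm - u‖ : ℂ) * (t * uv (-αm)))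
    (hb : b ∈ S) (hu : u ∈ S)
    (eR : cx t (u - u₁) = R) (ey : cy t (u - u₁) = -y₁) (ex : cx t (b - u) = x) (eY : cy t (b - u) = Yb)
    (hR : 0 < R) (hR1 : R ≤ 1 / 5)
    (hy : y₁ ^ 2 ≤ s ^ 4 * W * R / 800)
    (hx0 : s ^ 2 / 16 ≤ x) (hx1 : x ≤ W * R / 40)
    (hby : Yb ^ 2 ≤ s ^ 4 * W * x / 1600) :
    ∀ z c₁ c₂, Pth E u z c₁ → Pth E z b c₂ → c₁ + c₂ ≤ (1 + ε) * ‖b - u‖ →
      |cx t (z - u)| ≤ 2 * x ∧ |cy t (z - u)| ≤ 3 * s * x ∧ -(2 * s ^ 2 * x) ≤ cx t (z - u) ∧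
      |cy t (z - u)| ≤ 2 / 15 * s * |cx t (z - u)| + 3 / 50 * s ^ 3 ∧
      ‖z - u₁‖ < ‖v₁ - u₁‖ ∧ ‖v₁ - z‖ < ‖v₁ - u₁‖ ∧ c₁ + c₂ ≤ 1 / 20 ∧
      ‖z - u₁‖ = Real.sqrt ((cx t (z - u) + R) ^ 2 + (cy t (z - u) - y₁) ^ 2) ∧
      ‖v₁ - z‖ = Real.sqrt ((‖v₁ - u₁‖ * Real.cos α₁ - R - cx t (z - u)) ^ 2 +
        (y₁ + ‖v₁ - u₁‖ * Real.sin α₁ - cy t (z - u)) ^ 2) := by
  intro z c₁ c₂ hc₁ hc₂ hc
  have hx : 0 < x := lt_of_lt_of_le (by positivity) hx0
  have hs4 : s ^ 4 ≤ 1 := pow_le_one₀ hs.le (by linarith)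
  -- sizes
  have hWR : W * R ≤ 1 * (1 / 5) := mul_le_mul hW1 hR1 hR.le (by norm_num)
  have hx2 : x ≤ 1 / 200 := by linarith
  have hby' : Yb ^ 2 ≤ s ^ 4 * x / 1600 := by
    have : s ^ 4 * W * x ≤ s ^ 4 * 1 * x := by gcongr
    linarith
  have nb : ‖b - u‖ = Real.sqrt (x ^ 2 + Yb ^ 2) := by rw [norm_coord ht, ex, eY]
  have nbs : ‖b - u‖ ≤ 1 / 50 := by
    rw [nb, Real.sqrt_le_left (by norm_num)]
    have : Yb ^ 2 ≤ 1 / 200 / 1600 := by
      refine hby'.trans ?_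
      have : s ^ 4 * x ≤ 1 * (1 / 200) := mul_le_mul hs4 hx2 hx.le (by norm_num)
      linarith
    nlinarith
  have hc1 : c₁ + c₂ ≤ 1 / 20 := by
    refine hc.trans ?_
    have hε1 : ε ≤ 1 := by rw [← hs2]; exact pow_le_one₀ hs.le (by linarith)
    nlinarith [norm_nonneg (b - u)]
  have d1 := hc₁.norm_le
  have d2 := hc₂.norm_le
  -- coordinates of z
  set X := cx t (z - u) with hX
  set Y := cy t (z - u) with hY
  have nz : ‖z - u‖ = Real.sqrt (X ^ 2 + Y ^ 2) := norm_coord ht _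
  have nbz : ‖b - z‖ = Real.sqrt ((x - X) ^ 2 + (Yb - Y) ^ 2) := by
    have e : b - z = (b - u) - (z - u) := by ring
    rw [norm_coord ht, e, cx_sub, cy_sub, ex, eY]
  have nu1 : ‖z - u₁‖ = Real.sqrt ((X + R) ^ 2 + (Y - y₁) ^ 2) := by
    have e : z - u₁ = (z - u) - (u₁ - u) := by ring
    have e1 : cx t (u₁ - u) = -R := by
      rw [← eR, ← neg_sub u u₁]
      unfold cx
      rw [mul_neg, Complex.neg_re]
    have e2 : cy t (u₁ - u) = y₁ := by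
      rw [← neg_sub u u₁]
      unfold cy at ey ⊢
      rw [mul_neg, Complex.neg_im, ey, neg_neg]
    rw [norm_coord ht, e, cx_sub, cy_sub, e1, e2, ← hX, ← hY]
    congr 1
    ring
  have hZ := ellipse (X := X) (Y := Y) hs hs1 hx0 hby' (by
    rw [← nz, ← nbz, ← nb, hs2]
    linarith)
  obtain ⟨hX1, hY1, hX2⟩ := hZ
  have nuu : ‖u - u₁‖ = Real.sqrt (R ^ 2 + y₁ ^ 2) := by rw [norm_coord ht, eR, ey, neg_sq]
  have hRle : R ≤ ‖u - u₁‖ := by rw [nuu]; exact le_sqrt_add_sq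
  have nuu1 : ‖u - u₁‖ ≤ 1 / 2 := by
    rw [nuu, Real.sqrt_le_left (by norm_num)]
    have h1 : y₁ ^ 2 ≤ 1 / 800 := by
      refine hy.trans ?_
      have : s ^ 4 * (W * R) ≤ 1 * (1 * (1 / 5)) := mul_le_mul hs4 hWR (by positivity) (by norm_num)
      linarith
    nlinarith
  have hz1 : ‖z - u₁‖ < ‖v₁ - u₁‖ := by
    have h1 : ‖z - u₁‖ ≤ ‖z - u‖ + ‖u - u₁‖ := by
      have e : z - u₁ = (z - u) + (u - u₁) := by ring
      rw [e]
      exact norm_add_le _ _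
    have h2 := norm_nonneg (b - z)
    linarith
  -- distances to v₁
  have nv : ∀ w : ℂ, ‖v₁ - w‖ = Real.sqrt ((‖v₁ - u₁‖ * Real.cos α₁ - R - cx t (w - u)) ^ 2 +
      (y₁ + ‖v₁ - u₁‖ * Real.sin α₁ - cy t (w - u)) ^ 2) := by
    intro w
    rw [Geom_polar ht (w := w) hv₁]
    have e : u₁ - w = -((u - u₁) + (w - u)) := by ring
    have e1 : cx t (u₁ - w) = -(R + cx t (w - u)) := by
      rw [e, ← eR]
      unfold cx
      rw [mul_neg, Complex.neg_re, mul_add, Complex.add_re]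
    have e2 : cy t (u₁ - w) = -(-y₁ + cy t (w - u)) := by
      rw [e, ← ey]
      unfold cy
      rw [mul_neg, Complex.neg_im, mul_add, Complex.add_im]
    rw [e1, e2]
    ring_nf
  have hz2 : ‖v₁ - z‖ < ‖v₁ - u₁‖ := by
    rw [nv z]
    exact far_lt hs hs1 hW hW1 hR hR1 hx0 hx1 hy h₁a h₁b hα₁ hX1 hX2 hY1
  have hb2 : ‖v₁ - b‖ < ‖v₁ - u₁‖ := by
    rw [nv b, ex, eY]
    refine far_lt hs hs1 hW hW1 hR hR1 hx0 hx1 hy h₁a h₁b hα₁ ?_ ?_ ?_
    · rw [abs_of_pos hx]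
      linarith
    · have : 0 ≤ 2 * s ^ 2 * x := by positivity
      linarith
    · apply abs_le_of_sq_le_sq _ (by positivity)
      have h1 : s ^ 2 * x * (s ^ 2 / 16) ≤ s ^ 2 * x * x :=
        mul_le_mul_of_nonneg_left hx0 (by positivity)
      nlinarith
  have hη := eta_le hs hs1 hW hW1 hR hR1 hx hx1 hy hby h₁a h₁b hα₁
  have hηeq : ‖u - u₁‖ + ‖b - u‖ + ‖v₁ - b‖ - ‖v₁ - u₁‖ ≤ s ^ 4 * W / 50 := by
    rw [nuu, nb, nv b, ex, eY]
    linarith
  have hbS := hb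
  have hzS : z ∈ S := Pth.mem hS hc₁ hu
  have hc₂0 : 0 ≤ c₁ := le_trans (norm_nonneg _) d1
  -- the two fan edges
  have conc : |Y| ≤ 2 / 15 * s * |X| + 3 / 50 * s ^ 3 := by
    rcases le_total 0 Y with hYs | hYs
    · rw [abs_of_nonneg hYs]
      have hK := ineqK hS hε h₁ hp hb hzS hc₁ hc₂ hc (by linarith) (by linarith) hz1 hb2
      have nvp : ‖vp - z‖ = Real.sqrt ((‖vp - u‖ * Real.cos αp - X) ^ 2 +
          (‖vp - u‖ * Real.sin αp - Y) ^ 2) := by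
        rw [Geom_polar ht (w := z) hvp]
        have e : u - z = -(z - u) := by ring
        have e1 : cx t (u - z) = -X := by
          rw [e, hX]
          unfold cx
          rw [mul_neg, Complex.neg_re]
        have e2 : cy t (u - z) = -Y := by
          rw [e, hY]
          unfold cy
          rw [mul_neg, Complex.neg_im]
        rw [e1, e2]
        ring_nf
      rw [nvp, nu1] at hK
      refine conf (lam := ‖vp - u‖) hs hs1 hW hW1 hR hR1 hx hx1 hy hαp1 hαp2 hpa hηeq hX1 ?_ hX2 hYs ?_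
      · rwa [abs_of_nonneg hYs] at hY1 ⊢
      · linarith
    · rw [abs_of_nonpos hYs]
      have hK := ineqK hS hε h₁ hm hb hzS hc₁ hc₂ hc (by linarith) (by linarith) hz1 hb2
      have nvm : ‖vm - z‖ = Real.sqrt ((‖vm - u‖ * Real.cos αm - X) ^ 2 +
          (‖vm - u‖ * Real.sin αm - (-Y)) ^ 2) := by
        rw [Geom_polar ht (w := z) hvm]
        have e : u - z = -(z - u) := by ring
        have e1 : cx t (u - z) = -X := by
          rw [e, hX]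
          unfold cx
          rw [mul_neg, Complex.neg_re]
        have e2 : cy t (u - z) = -Y := by
          rw [e, hY]
          unfold cy
          rw [mul_neg, Complex.neg_im]
        rw [e1, e2, Real.cos_neg, Real.sin_neg]
        congr 1
        ring
      have nu1' : ‖z - u₁‖ = Real.sqrt ((X + R) ^ 2 + ((-Y) - (-y₁)) ^ 2) := by
        rw [nu1]
        congr 1
        ring
      rw [nvm, nu1'] at hK
      refine conf (lam := ‖vm - u‖) (Y := -Y) (y₁ := -y₁) hs hs1 hW hW1 hR hR1 hx hx1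
        (by rw [neg_sq]; exact hy) hαm1 hαm2 hma hηeq hX1 ?_ hX2 (by linarith) ?_
      · rwa [abs_neg]
      · linarith
  exact ⟨hX1, hY1, hX2, conc, hz1, hz2, hc1, nu1, nv z⟩

/-- **The forced vertex.**  `(u₁,v₁)` is a long edge passing over `u` and `b`, nearly parallel to the axis `t`;
`(u,v₊)`, `(u,v₋)` are two long edges at `u` on both sides of the axis.  Then there is a point of `S` at
distance between `ε/16` and `3ε` from `u` in the sector of half-angle `(2/3)√ε` around the axis.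

Proof.  `s = √ε`, coordinates `cx t (· - u)`, `cy t (· - u)`; `R = cx t (u - u₁)`, `y₁ = - cy t (u - u₁)`,
`x = cx t (b - u)`, `Yb = cy t (b - u)`.  Take the walk `π` from `u` to `b` of length `c ≤ (1+ε)|ub|`
(`hS.path`).  If `‖b - u‖ ≤ 3ε` take `p = b` (`|Yb| ≤ √ε x/10`, since `ε ≤ 16 x`).  Otherwise
`Pth.exists_cross` with `P z = (‖z - u‖ < ε/8)` gives consecutive vertices `p, q`.  For both of them
`ellipse` applies (prefix length ≥ distance), and `ineqK` with `v₊` (if the ordinate is ≥ 0) or `v₋` (apply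
`conf` to the reflected configuration `Y ↦ -Y, y₁ ↦ -y₁, α ↦ -α`), `eta_le` and `conf` give
`|Y| ≤ (2/15)√ε|X| + (3/50)√ε³`.  If `‖q - u‖ ≤ 3ε`, then `q` is the point wanted: `ε/8 ≤ ‖q-u‖` gives
`√ε³ ≤ 8 √ε ‖q-u‖`, so `|Y| ≤ (2/3)√ε‖q-u‖`, and `X > 0` because `X ≥ -2εx ≥ -ε/100`.  Otherwise `ineqC`
contradicts `cross`.  (`far_lt` gives the conditions `‖v₁ - q‖ < ‖v₁ - u₁‖` and, with `X = x`, `Y = Yb`,
`‖v₁ - b‖ < ‖v₁ - u₁‖`; everything else is shorter than `1`.) -/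
theorem forced_vertex (hS : Sys ε S E) (hε : 0 < ε) (hε1 : ε ≤ 1 / 10000) {W : ℝ} (hW : 0 < W)
    (hW1 : W ≤ 1) {t : ℂ} (ht : ‖t‖ = 1) {u₁ v₁ u vp vm b : ℂ}
    (h₁ : (u₁, v₁) ∈ E) (h₁a : 1 ≤ ‖v₁ - u₁‖) (h₁b : ‖v₁ - u₁‖ ≤ 2)
    {α₁ : ℝ} (hα₁ : α₁ ^ 2 ≤ ε ^ 2 * W / 1600) (hv₁ : v₁ - u₁ = (‖v₁ - u₁‖ : ℂ) * (t * uv α₁))
    (hp : (u, vp) ∈ E) (hpa : 1 ≤ ‖vp - u‖)
    {αp : ℝ} (hαp1 : W * Real.sqrt ε / 2 ≤ αp) (hαp2 : αp ≤ Real.sqrt ε / 10)
    (hvp : vp - u = (‖vp - u‖ : ℂ) * (t * uv αp))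
    (hm : (u, vm) ∈ E) (hma : 1 ≤ ‖vm - u‖)
    {αm : ℝ} (hαm1 : W * Real.sqrt ε / 2 ≤ αm) (hαm2 : αm ≤ Real.sqrt ε / 10)
    (hvm : vm - u = (‖vm - u‖ : ℂ) * (t * uv (-αm)))
    (hb : b ∈ S)
    (hR : 0 < cx t (u - u₁)) (hR1 : cx t (u - u₁) ≤ 1 / 5)
    (hy : (cy t (u - u₁)) ^ 2 ≤ ε ^ 2 * W * cx t (u - u₁) / 800)
    (hx0 : ε / 16 ≤ cx t (b - u)) (hx1 : cx t (b - u) ≤ W * cx t (u - u₁) / 40)
    (hby : (cy t (b - u)) ^ 2 ≤ ε ^ 2 * W * cx t (b - u) / 1600) :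
    ∃ p ∈ S, ε / 16 ≤ ‖p - u‖ ∧ ‖p - u‖ ≤ 3 * ε ∧ 0 < cx t (p - u) ∧
      |cy t (p - u)| ≤ 2 / 3 * Real.sqrt ε * ‖p - u‖ := by
  classical
  set s := Real.sqrt ε with hsdef
  have hs : 0 < s := Real.sqrt_pos.2 hε
  have hs2 : s ^ 2 = ε := Real.sq_sqrt hε.le
  have hs1 : s ≤ 1 / 100 := by
    rw [hsdef, Real.sqrt_le_left (by norm_num)]
    linarith
  have hs4 : s ^ 4 = ε ^ 2 := by rw [← hs2]; ring
  set R := cx t (u - u₁) with hRdef
  set x := cx t (b - u) with hxdef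
  have hu : u ∈ S := (hS.mem _ _ hp).1
  have hx : 0 < x := lt_of_lt_of_le (by positivity) hx0
  have hyy : (-cy t (u - u₁)) ^ 2 ≤ s ^ 4 * W * R / 800 := by
    rw [neg_sq, hs4]
    exact hy
  have hα₁' : α₁ ^ 2 ≤ s ^ 4 * W / 1600 := by rw [hs4]; exact hα₁
  have hx0' : s ^ 2 / 16 ≤ x := by rw [hs2]; exact hx0
  have hby' : (cy t (b - u)) ^ 2 ≤ s ^ 4 * W * x / 1600 := by rw [hs4]; exact hby
  have key := Geom_confined hS hε hs hs2 hs1 hW hW1 ht h₁ h₁a h₁b hα₁' hv₁ hp hpa hαp1 hαp2 hvp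
    hm hma hαm1 hαm2 hvm hb hu hRdef.symm (neg_neg _).symm hxdef.symm rfl hR hR1 hyy hx0' hx1 hby'
  have nb : x ≤ ‖b - u‖ := by
    rw [norm_coord ht, ← hxdef]
    exact le_sqrt_add_sq
  rcases le_or_gt (‖b - u‖) (3 * ε) with hle | hgt
  · -- the point b itself
    refine ⟨b, hb, hx0.trans nb, hle, hx, ?_⟩
    apply abs_le_of_sq_le_sq _ (by positivity)
    refine hby'.trans ?_
    have h1 : s ^ 2 * x * (s ^ 2 / 16) ≤ s ^ 2 * x * x :=
      mul_le_mul_of_nonneg_left hx0' (by positivity)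
    have h2 : s ^ 4 * W * x ≤ s ^ 4 * 1 * x := by gcongr
    have h3 : s ^ 2 * x ^ 2 ≤ s ^ 2 * ‖b - u‖ ^ 2 := by gcongr
    nlinarith
  · obtain ⟨c, hP, hc⟩ := hS.path u hu b hb
    obtain ⟨p, q, c₁, c₂, hup, hpq, hqb, hsum, hpP, hqP⟩ :=
      hP.exists_cross (P := fun z => ‖z - u‖ < ε / 8) (by simp; positivity) (by simp only [not_lt]; linarith)
    simp only [not_lt] at hqP
    have kp := key p c₁ (‖q - p‖ + c₂) hup (Pth.cons hpq hqb) (by linarith)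
    have kq := key q (c₁ + ‖q - p‖) c₂ (hup.trans (Pth.single hpq)) hqb (by linarith)
    obtain ⟨p1, p2, p3, p4, p5, p6, p7, p8, p9⟩ := kp
    obtain ⟨q1, q2, q3, q4, q5, q6, q7, q8, q9⟩ := kq
    have hqS : q ∈ S := (hS.mem _ _ hpq).2.1
    rcases le_or_gt (‖q - u‖) (3 * ε) with hq3 | hq3
    · refine ⟨q, hqS, by linarith, hq3, ?_, ?_⟩
      · -- positive abscissa
        by_contra hneg
        push Not at hneg
        have hWR : W * R ≤ 1 * (1 / 5) := mul_le_mul hW1 hR1 hR.le (by norm_num)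
        have hx2 : x ≤ 1 / 200 := by linarith
        have a1 : |cx t (q - u)| ≤ s ^ 2 / 100 := by
          rw [abs_of_nonpos hneg]
          have : s ^ 2 * x ≤ s ^ 2 * (1 / 200) := by gcongr
          linarith
        have a2 : ‖q - u‖ ≤ |cx t (q - u)| + |cy t (q - u)| := by
          rw [norm_coord ht, Real.sqrt_le_left (by positivity)]
          nlinarith [abs_nonneg (cx t (q - u)), abs_nonneg (cy t (q - u)), sq_abs (cx t (q - u)),
            sq_abs (cy t (q - u)), mul_nonneg (abs_nonneg (cx t (q - u))) (abs_nonneg (cy t (q - u)))]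
        have a3 : s * |cx t (q - u)| ≤ 1 * (s ^ 2 / 100) := by
          apply mul_le_mul _ a1 (abs_nonneg _) (by norm_num)
          linarith
        have a4 : s ^ 3 ≤ s ^ 2 * (1 / 100) := by
          have : s ^ 3 = s ^ 2 * s := by ring
          rw [this]
          gcongr
        have a5 : 0 < s ^ 2 := by positivity
        rw [← hs2] at hqP
        linarith
      · refine q4.trans ?_
        have b1 : |cx t (q - u)| ≤ ‖q - u‖ := by
          rw [norm_coord ht]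
          exact Real.abs_le_sqrt (by nlinarith [sq_nonneg (cy t (q - u))])
        have b2 : s * |cx t (q - u)| ≤ s * ‖q - u‖ := by gcongr
        have b3 : s ^ 3 ≤ 8 * (s * ‖q - u‖) := by
          have : s ^ 3 = s * s ^ 2 := by ring
          rw [this, hs2]
          have := mul_le_mul_of_nonneg_left hqP hs.le
          linarith
        have b4 : 0 ≤ s * ‖q - u‖ := by positivity
        linarith
    · exfalso
      have hg : ‖q - p‖ < ‖v₁ - u₁‖ := by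
        have g1 := hup.norm_le
        have g2 := hqb.norm_le
        have g3 := norm_nonneg (p - u)
        have g4 := norm_nonneg (b - q)
        linarith
      have hC := ineqC hS hε h₁ hpq hg p5 q6
      have hcross := cross (Xp := cx t (p - u)) (Yp := cy t (p - u)) (Xq := cx t (q - u))
        (Yq := cy t (q - u)) (y₁ := -cy t (u - u₁)) hs hs1 hW hW1 hR hR1 hx hx1 hyy h₁a h₁b hα₁'
        (by rw [← norm_coord ht, hs2]; exact hpP.le) (by rw [← norm_coord ht, hs2]; exact hq3.le)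
        q1 q3 q2 p4 q4
      have npq : ‖q - p‖ = Real.sqrt ((cx t (q - u) - cx t (p - u)) ^ 2 +
          (cy t (q - u) - cy t (p - u)) ^ 2) := by
        have e : q - p = (q - u) - (p - u) := by ring
        rw [norm_coord ht, e, cx_sub, cy_sub]
      rw [← npq, ← p8, ← q9, hs2] at hcross
      linarith

end Pool.Agent.MP_259de8
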