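import Pool.Agent.Lib.MP_259de8_co.G.Walk

/-!
# The two chain inequalities (K) and (C)
-/

set_option autoImplicit false

namespace Pool.Agent.MP_259de8

variable {ε : ℝ} {S : Finset ℂ} {E : Finset (ℂ × ℂ)}

/-- Inequality (K) for one fan edge `(u, v)` and a vertex `p` of a walk from `u` to `b`.
Proof.  (A) `c₁ + (1+ε) |pv| ≥ (1+ε) |uv|`: trivial if `|pv| ≥ |uv|`, otherwise `hS.chain` for the edge `(u,v)`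
and the chain walk `u → p`, jump `p → v`.  (B) `hS.chain` for `(u₁, v₁)` and the chain jump `u₁ → p`, walk
`p → b`, jump `b → v₁`: `(1+ε)|u₁p| + c₂ + (1+ε)|bv₁| ≥ (1+ε)|u₁v₁|`.  Add, use `c₁ + c₂ ≤ (1+ε)|ub|` and divide by
`1+ε`. -/
theorem ineqK (hS : Sys ε S E) (hε : 0 < ε) {u₁ v₁ u v p b : ℂ} {c₁ c₂ : ℝ}
    (h₁ : (u₁, v₁) ∈ E) (h : (u, v) ∈ E) (hb : b ∈ S) (hp : p ∈ S)
    (hc₁ : Pth E u p c₁) (hc₂ : Pth E p b c₂) (hc : c₁ + c₂ ≤ (1 + ε) * ‖b - u‖)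
    (hs1 : c₁ + c₂ < ‖v - u‖) (hs2 : c₁ + c₂ < ‖v₁ - u₁‖) (hs3 : ‖p - u₁‖ < ‖v₁ - u₁‖)
    (hs4 : ‖v₁ - b‖ < ‖v₁ - u₁‖) :
    ‖v - u‖ - ‖v - p‖ ≤ ‖p - u₁‖ - ‖u - u₁‖ + (‖u - u₁‖ + ‖b - u‖ + ‖v₁ - b‖ - ‖v₁ - u₁‖) := by
  have hc10 : 0 ≤ c₁ := le_trans (norm_nonneg _) hc₁.norm_le
  have hc20 : 0 ≤ c₂ := le_trans (norm_nonneg _) hc₂.norm_le
  have hv : v ∈ S := (hS.mem u v h).2.1
  have hv1 : v₁ ∈ S := (hS.mem u₁ v₁ h₁).2.1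
  have hu1 : u₁ ∈ S := (hS.mem u₁ v₁ h₁).1
  have hA : (1 + ε) * ‖v - u‖ ≤ c₁ + (1 + ε) * ‖v - p‖ := by
    rcases le_or_gt ‖v - u‖ ‖v - p‖ with h0 | h0
    · have := mul_le_mul_of_nonneg_left h0 (by linarith : (0:ℝ) ≤ 1 + ε)
      linarith
    · exact (hS.chain u v h _ ((hc₁.cost (by linarith)).trans
        (Cost.jump_single hp hv h0))).le
  have hB : (1 + ε) * ‖v₁ - u₁‖ ≤ (1 + ε) * ‖p - u₁‖ + (c₂ + (1 + ε) * ‖v₁ - b‖) :=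
    (hS.chain u₁ v₁ h₁ _ ((Cost.jump_single hu1 hp hs3).trans
      ((hc₂.cost (by linarith)).trans (Cost.jump_single hb hv1 hs4)))).le
  have h3 : 0 ≤ (1 + ε) * (‖v - p‖ + ‖p - u₁‖ + ‖b - u‖ + ‖v₁ - b‖ - ‖v₁ - u₁‖ - ‖v - u‖) := by
    linarith
  have h4 := nonneg_of_mul_nonneg_right h3 (by linarith : (0:ℝ) < 1 + ε)
  linarith

/-- Inequality (C) for an edge `(p, q)` of the walk.
Proof: `hS.chain` for `(u₁, v₁)` and jump `u₁ → p`, edge `(p, q)`, jump `q → v₁`; divide by `1+ε`. -/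
theorem ineqC (hS : Sys ε S E) (hε : 0 < ε) {u₁ v₁ p q : ℂ}
    (h₁ : (u₁, v₁) ∈ E) (hpq : (p, q) ∈ E) (hs1 : ‖q - p‖ < ‖v₁ - u₁‖)
    (hs3 : ‖p - u₁‖ < ‖v₁ - u₁‖) (hs4 : ‖v₁ - q‖ < ‖v₁ - u₁‖) :
    ‖v₁ - u₁‖ + ε / (1 + ε) * ‖q - p‖ ≤ ‖p - u₁‖ + ‖q - p‖ + ‖v₁ - q‖ := by
  have hv1 : v₁ ∈ S := (hS.mem u₁ v₁ h₁).2.1
  have hu1 : u₁ ∈ S := (hS.mem u₁ v₁ h₁).1
  have hp : p ∈ S := (hS.mem p q hpq).1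
  have hq : q ∈ S := (hS.mem p q hpq).2.1
  have hB : (1 + ε) * ‖v₁ - u₁‖ ≤ (1 + ε) * ‖p - u₁‖ + (‖q - p‖ + (1 + ε) * ‖v₁ - q‖) :=
    (hS.chain u₁ v₁ h₁ _ ((Cost.jump_single hu1 hp hs3).trans
      (Cost.edge hpq hs1 (Cost.jump_single hq hv1 hs4)))).le
  have h1 : (0:ℝ) < 1 + ε := by linarith
  have h5 : ε / (1 + ε) * ‖q - p‖ = ‖q - p‖ - ‖q - p‖ / (1 + ε) := by
    field_simp
    ring
  have h6 : (1 + ε) * (‖q - p‖ / (1 + ε)) = ‖q - p‖ := by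
    field_simp
  have h3 : 0 ≤ (1 + ε) * (‖p - u₁‖ + ‖q - p‖ / (1 + ε) + ‖v₁ - q‖ - ‖v₁ - u₁‖) := by
    linarith
  have h4 := nonneg_of_mul_nonneg_right h3 h1
  rw [h5]
  linarith

end Pool.Agent.MP_259de8
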