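import Pool.Agent.Lib.MP_259de8_co.G.Count

/-!
# Two dimensional counting lemma
-/

set_option autoImplicit false

namespace Pool.Agent.MP_259de8

/-- Two dimensional version: cells of length `l` in the first coordinate, gaps `s` in the second. -/
theorem grid_count {ι : Type*} (Q : Finset ι) (a y : ι → ℝ) {D l h s : ℝ} (hl : 0 < l) (hs : 0 < s)
    (hD0 : 0 ≤ D) (hh0 : 0 ≤ h)
    (hD : ∀ i ∈ Q, ∀ j ∈ Q, |a i - a j| ≤ D) (hh : ∀ i ∈ Q, ∀ j ∈ Q, |y i - y j| ≤ h)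
    (hgap : ∀ i ∈ Q, ∀ j ∈ Q, i ≠ j → 0 ≤ a j - a i → a j - a i ≤ l → s ≤ |y j - y i|) :
    (Q.card : ℝ) ≤ (D / l + 1) * (h / s + 1) := by
  classical
  have hA : 0 ≤ D / l := div_nonneg hD0 hl.le
  have hB : 0 ≤ h / s := div_nonneg hh0 hs.le
  rcases Q.eq_empty_or_nonempty with rfl | hne
  · rw [Finset.card_empty, Nat.cast_zero]
    positivity
  obtain ⟨i₀, hi₀, hmin⟩ := Finset.exists_min_image Q a hne
  have hmaps : ∀ i ∈ Q, ⌊(a i - a i₀) / l⌋₊ ∈ Finset.range (⌊D / l⌋₊ + 1) := by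
    intro i hi
    rw [Finset.mem_range, Nat.lt_succ_iff]
    apply Nat.floor_mono
    apply div_le_div_of_nonneg_right _ hl.le
    exact (le_abs_self _).trans (hD i hi i₀ hi₀)
  have hfib : ∀ b ∈ Finset.range (⌊D / l⌋₊ + 1),
      (Q.filter (fun i => ⌊(a i - a i₀) / l⌋₊ = b)).card ≤ ⌊h / s + 1⌋₊ := by
    intro b _
    apply Nat.le_floor
    apply sep_count _ y hs hh0
    · intro i hi j hj
      exact hh i (Finset.mem_filter.1 hi).1 j (Finset.mem_filter.1 hj).1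
    · have key : ∀ i ∈ Q, ∀ j ∈ Q, ⌊(a i - a i₀) / l⌋₊ = ⌊(a j - a i₀) / l⌋₊ → a j - a i ≤ l := by
        intro i hi j hj hij
        have h1 : (⌊(a i - a i₀) / l⌋₊ : ℝ) ≤ (a i - a i₀) / l :=
          Nat.floor_le (div_nonneg (sub_nonneg.2 (hmin i hi)) hl.le)
        have h2 : (a j - a i₀) / l < (⌊(a j - a i₀) / l⌋₊ : ℝ) + 1 := Nat.lt_floor_add_one _
        rw [← hij] at h2
        have h3 : (a j - a i₀) / l < (a i - a i₀) / l + 1 := by linarith
        rw [div_add_one hl.ne', div_lt_div_iff_of_pos_right hl] at h3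
        linarith
      intro i hi j hj hij
      obtain ⟨hiQ, hib⟩ := Finset.mem_filter.1 hi
      obtain ⟨hjQ, hjb⟩ := Finset.mem_filter.1 hj
      rcases le_total 0 (a j - a i) with h0 | h0
      · rw [abs_sub_comm]
        exact hgap i hiQ j hjQ hij h0 (key i hiQ j hjQ (hib.trans hjb.symm))
      · exact hgap j hjQ i hiQ hij.symm (by linarith) (key j hjQ i hiQ (hjb.trans hib.symm))
  have hcard := Finset.card_le_mul_card_image_of_maps_to hmaps ⌊h / s + 1⌋₊ hfib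
  rw [Finset.card_range] at hcard
  have hcard' : (Q.card : ℝ) ≤ (⌊h / s + 1⌋₊ : ℝ) * ((⌊D / l⌋₊ : ℝ) + 1) := by
    exact_mod_cast hcard
  have h4 : (⌊h / s + 1⌋₊ : ℝ) ≤ h / s + 1 := Nat.floor_le (by linarith)
  have h5 : (⌊D / l⌋₊ : ℝ) ≤ D / l := Nat.floor_le hA
  calc (Q.card : ℝ) ≤ (⌊h / s + 1⌋₊ : ℝ) * ((⌊D / l⌋₊ : ℝ) + 1) := hcard'
    _ ≤ (h / s + 1) * (D / l + 1) := by
        apply mul_le_mul h4 (by linarith) (by positivity) (by linarith)
    _ = (D / l + 1) * (h / s + 1) := mul_comm _ _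

end Pool.Agent.MP_259de8
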