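import Pool.Agent.Lib.MP_259de8_co.G.FromA

/-!
# Dyadic decomposition
-/

set_option autoImplicit false

namespace Pool.Agent.MP_259de8

open Greedy

private theorem mainB_scale {x : ℝ} (h0 : 0 < x) (h2 : x < 2) :
    ∃ i : ℕ, (1 / 2 : ℝ) ^ i ≤ x ∧ x < 2 * (1 / 2 : ℝ) ^ i := by
  classical
  have hex : ∃ i : ℕ, (1 / 2 : ℝ) ^ i ≤ x := by
    obtain ⟨n, hn⟩ := exists_pow_lt_of_lt_one h0 (show (1 / 2 : ℝ) < 1 by norm_num)
    exact ⟨n, hn.le⟩
  refine ⟨Nat.find hex, Nat.find_spec hex, ?_⟩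
  rcases Nat.eq_zero_or_pos (Nat.find hex) with h | h
  · rw [h, pow_zero]
    linarith
  · obtain ⟨k, hk⟩ := Nat.exists_eq_succ_of_ne_zero h.ne'
    have h1 : ¬ (1 / 2 : ℝ) ^ k ≤ x := Nat.find_min hex (by omega)
    rw [hk, Nat.succ_eq_add_one, pow_succ]
    push Not at h1
    linarith

private theorem mainB_len {S : Finset (E 2)} (hS : ∀ x ∈ S, ∀ i, 0 ≤ x i ∧ x i ≤ 1)
    {e : Sym2 (E 2)} (he : ¬ e.IsDiag) (hm : ∀ x ∈ e, x ∈ S) : 0 < len e ∧ len e < 2 := by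
  induction e with
  | _ u v =>
    rw [len_mk]
    have huv : u ≠ v := by
      intro h
      exact he (by rw [h]; exact Sym2.mk_isDiag_iff.2 rfl)
    have hu := hS u (hm u (Sym2.mem_mk_left u v))
    have hv := hS v (hm v (Sym2.mem_mk_right u v))
    refine ⟨dist_pos.2 huv, ?_⟩
    rw [EuclideanSpace.dist_eq, Fin.sum_univ_two, Real.dist_eq, Real.dist_eq, sq_abs, sq_abs]
    rw [Real.sqrt_lt' (by norm_num)]
    have h0 : (u 0 - v 0) ^ 2 ≤ 1 := by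
      rw [sq_le_one_iff_abs_le_one, abs_le]
      constructor <;> linarith [(hu 0).1, (hu 0).2, (hv 0).1, (hv 0).2]
    have h1 : (u 1 - v 1) ^ 2 ≤ 1 := by
      rw [sq_le_one_iff_abs_le_one, abs_le]
      constructor <;> linarith [(hu 1).1, (hu 1).2, (hv 1).1, (hv 1).2]
    linarith

open Classical in
/-- dyadic decomposition: every edge has length in `(0, √2]`, so it lies in exactly one scale `r = 2^(-i)`,
`i < I`, and `len < 2 r` -/
theorem dyadic {ε : ℝ} {S : Finset (E 2)} (hS : ∀ x ∈ S, ∀ i, 0 ≤ x i ∧ x i ≤ 1)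
    {L : List (Sym2 (E 2))} (hL : IsOrdering S L) :
    ∃ I : ℕ, ∑ e ∈ greedy ε L, len e ≤ ∑ i ∈ Finset.range I, 2 * ((1 / 2 : ℝ) ^ i *
      (((greedy ε L).filter (fun e => (1 / 2 : ℝ) ^ i ≤ len e ∧ len e < 2 * (1 / 2 : ℝ) ^ i)).card : ℝ)) := by
  have hex : ∀ e ∈ greedy ε L, ∃ i : ℕ, (1 / 2 : ℝ) ^ i ≤ len e ∧ len e < 2 * (1 / 2 : ℝ) ^ i := by
    intro e he
    have h1 := (hL.mem_iff e).1 (mem_of_mem_greedy ε L e he)
    have h2 := mainB_len hS h1.1 h1.2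
    exact mainB_scale h2.1 h2.2
  choose! f hf using hex
  refine ⟨(greedy ε L).sup f + 1, ?_⟩
  have h1 : ∀ e ∈ greedy ε L, len e ≤ ∑ i ∈ Finset.range ((greedy ε L).sup f + 1),
      if (1 / 2 : ℝ) ^ i ≤ len e ∧ len e < 2 * (1 / 2 : ℝ) ^ i then 2 * (1 / 2 : ℝ) ^ i else 0 := by
    intro e he
    have h2 : f e ∈ Finset.range ((greedy ε L).sup f + 1) := by
      rw [Finset.mem_range]
      exact Nat.lt_succ_of_le (Finset.le_sup he)
    have h3 : len e ≤ if (1 / 2 : ℝ) ^ (f e) ≤ len e ∧ len e < 2 * (1 / 2 : ℝ) ^ (f e) then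
        2 * (1 / 2 : ℝ) ^ (f e) else 0 := by
      rw [if_pos (hf e he)]
      exact (hf e he).2.le
    refine h3.trans (Finset.single_le_sum (f := fun i =>
      if (1 / 2 : ℝ) ^ i ≤ len e ∧ len e < 2 * (1 / 2 : ℝ) ^ i then
        2 * (1 / 2 : ℝ) ^ i else 0) ?_ h2)
    intro i _
    split_ifs
    · positivity
    · exact le_rfl
  refine (Finset.sum_le_sum h1).trans ?_
  rw [Finset.sum_comm]
  apply Finset.sum_le_sum
  intro i _
  rw [← Finset.sum_filter, Finset.sum_const, nsmul_eq_mul]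
  apply le_of_eq
  ring

end Pool.Agent.MP_259de8
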