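import Pool.Agent.Lib.MP_259de8_co.G.SumA

/-!
# One scale
-/

set_option autoImplicit false

namespace Pool.Agent.MP_259de8

/-- for `0 < x ≤ 1`, `x ≤ psi x` -/
private theorem sum_le_psi {x : ℝ} (hx : 0 < x) (hx1 : x ≤ 1) : x ≤ psi x := by
  unfold psi
  refine le_min ?_ ?_
  · calc x = x ^ (1 : ℝ) := (Real.rpow_one x).symm
      _ ≤ x ^ ((1 : ℝ) / 3) := Real.rpow_le_rpow_of_exponent_ge hx hx1 (by norm_num)
  · calc x ≤ 1 := hx1
      _ ≤ x ^ (-((1 : ℝ) / 3)) := Real.one_le_rpow_of_pos_of_le_one_of_nonpos hx hx1 (by norm_num)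

/-- for `1 ≤ x`, `1 / x ≤ psi x` -/
private theorem sum_inv_le_psi {x : ℝ} (hx1 : 1 ≤ x) : 1 / x ≤ psi x := by
  have hx : 0 < x := by linarith
  unfold psi
  refine le_min ?_ ?_
  · calc 1 / x ≤ 1 := by rw [div_le_one hx]; exact hx1
      _ ≤ x ^ ((1 : ℝ) / 3) := Real.one_le_rpow hx1 (by norm_num)
  · calc 1 / x = x ^ (-(1 : ℝ)) := by rw [Real.rpow_neg hx.le, Real.rpow_one, one_div]
      _ ≤ x ^ (-((1 : ℝ) / 3)) := Real.rpow_le_rpow_of_exponent_le hx1 (by norm_num)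

/-- for `0 < x ≤ 1`, `psi x` is the cube root -/
private theorem sum_psi_small {x : ℝ} (hx : 0 < x) (hx1 : x ≤ 1) :
    0 < psi x ∧ psi x ≤ 1 ∧ psi x ^ 3 = x := by
  have h1 : psi x = x ^ ((1 : ℝ) / 3) := by
    unfold psi
    apply min_eq_left
    exact Real.rpow_le_rpow_of_exponent_ge hx hx1 (by norm_num)
  rw [h1]
  refine ⟨Real.rpow_pos_of_pos hx _, Real.rpow_le_one hx.le hx1 (by norm_num), ?_⟩
  rw [← Real.rpow_natCast, ← Real.rpow_mul hx.le]
  norm_num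

/-- for `1 ≤ x`, `psi x` is the inverse cube root -/
private theorem sum_psi_large {x : ℝ} (hx1 : 1 ≤ x) :
    0 < psi x ∧ psi x ≤ 1 ∧ psi x ^ 3 = 1 / x := by
  have hx : 0 < x := by linarith
  have h1 : psi x = x ^ (-((1 : ℝ) / 3)) := by
    unfold psi
    apply min_eq_right
    exact Real.rpow_le_rpow_of_exponent_le hx1 (by norm_num)
  rw [h1]
  refine ⟨Real.rpow_pos_of_pos hx _, Real.rpow_le_one_of_one_le_of_nonpos hx1 (by norm_num), ?_⟩
  rw [← Real.rpow_natCast, ← Real.rpow_mul hx.le]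
  norm_num
  rw [Real.rpow_neg hx.le, Real.rpow_one]

/-- **One scale**, in the three ranges.  `s = ε^(1/64)`, `ε^(-7/8) = s^(-56)`, `ε^(-9/8) = s^(-72)`; `m = √n r`
with `r = 2^(-i)`; `F` is the number of edges of the scale.  Conclusion: `r F ≤ C √n ε^(-15/8) (ψ(m s^72) +
ψ(m s^56))`.
Proof.  `m ≤ s^(-56)`: from `ha`, `r F ≤ C √n m s^(-64) = C √n s^(-120) (m s^56)`.
`m ≥ s^(-72)`: from `hc`, `r F ≤ C s^(-192)/r = C √n s^(-192)/m = C √n s^(-120)/(m s^72)`.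
In between: `W = (s^(-96)/m²)^(1/3)` lies in `[s^16, s^4]` (`m² ≤ s^(-144)`, `m² ≥ s^(-112)`: `W³ ≥ s^48`,
`W³ ≤ s^16 ≤ s^12`), and `hb` gives
`r F ≤ C √n [m W s^(-64) + m s^(-48) + s^(-160) W^(-2)/m + s^(-169)/m]`, where (`W³ = s^(-96) m^(-2)`)
`m W s^(-64) = s^(-160) W^(-2)/m = m^(1/3) s^(-96) = s^(-120) (m s^72)^(1/3)`, `m s^(-48) = s^(-120) (m s^72) ≤
s^(-120) (m s^72)^(1/3)`, `s^(-169)/m = s^(-113)/(m s^56) ≤ s^(-120) (m s^56)^(-1/3)`. -/
theorem one_scale {s n r F C : ℝ} (hs : 0 < s) (hs1 : s ≤ 1 / 2) (hn : 0 < n) (hr : 0 < r) (hC : 0 ≤ C)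
    (ha : F ≤ C * n / s ^ 64) (hc : F ≤ C / (s ^ 192 * r ^ 2))
    (hb : ∀ W : ℝ, s ^ 16 ≤ W → W ≤ s ^ 4 →
      F ≤ C * (n * (W / s ^ 64 + 1 / s ^ 48) + (1 / r) ^ 2 * (1 / (s ^ 160 * W ^ 2) + 1 / s ^ 169))) :
    r * F ≤ 4 * C * Real.sqrt n / s ^ 120 *
      (psi (Real.sqrt n * s ^ 72 * r) + psi (Real.sqrt n * s ^ 56 * r)) := by
  obtain ⟨q, hq⟩ : ∃ q : ℝ, q = Real.sqrt n := ⟨_, rfl⟩
  have hq0 : 0 < q := by rw [hq]; exact Real.sqrt_pos.mpr hn
  have hqn : n = q * q := by rw [hq]; exact (Real.mul_self_sqrt hn.le).symm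
  rw [← hq]
  have hs1' : s ≤ 1 := by linarith
  obtain ⟨x, hx⟩ : ∃ x : ℝ, x = q * s ^ 72 * r := ⟨_, rfl⟩
  obtain ⟨y, hy⟩ : ∃ y : ℝ, y = q * s ^ 56 * r := ⟨_, rfl⟩
  have hx0 : 0 < x := by rw [hx]; positivity
  have hy0 : 0 < y := by rw [hy]; positivity
  have hxy : x = y * s ^ 16 := by rw [hx, hy]; ring
  have hrx : r = x / (q * s ^ 72) := by rw [hx]; field_simp
  have hry : r = y / (q * s ^ 56) := by rw [hy]; field_simp
  rw [← hx, ← hy]
  obtain ⟨T, hT⟩ : ∃ T : ℝ, T = C * q / s ^ 120 := ⟨_, rfl⟩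
  have hT0 : 0 ≤ T := by rw [hT]; positivity
  have hgoal : 4 * C * q / s ^ 120 * (psi x + psi y) = 4 * T * (psi x + psi y) := by
    rw [hT]; ring
  rw [hgoal]
  have hpx0 : 0 < psi x := by
    unfold psi
    exact lt_min (Real.rpow_pos_of_pos hx0 _) (Real.rpow_pos_of_pos hx0 _)
  have hpy0 : 0 < psi y := by
    unfold psi
    exact lt_min (Real.rpow_pos_of_pos hy0 _) (Real.rpow_pos_of_pos hy0 _)
  rcases le_total y 1 with hy1 | hy1
  · -- small scales
    have h1 : r * F ≤ T * y := by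
      calc r * F ≤ r * (C * n / s ^ 64) := mul_le_mul_of_nonneg_left ha hr.le
        _ = T * y := by rw [hqn, hry, hT]; field_simp
    have h2 := sum_le_psi hy0 hy1
    have h3 : T * y ≤ T * psi y := mul_le_mul_of_nonneg_left h2 hT0
    have h4 : 0 ≤ T * psi x := mul_nonneg hT0 hpx0.le
    have h5 : 0 ≤ T * psi y := mul_nonneg hT0 hpy0.le
    linarith
  · rcases le_total 1 x with hx1 | hx1
    · have h1 : r * F ≤ T * (1 / x) := by
        calc r * F ≤ r * (C / (s ^ 192 * r ^ 2)) := mul_le_mul_of_nonneg_left hc hr.le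
          _ = T * (1 / x) := by rw [hrx, hT]; field_simp
      have h2 := sum_inv_le_psi hx1
      have h3 : T * (1 / x) ≤ T * psi x := mul_le_mul_of_nonneg_left h2 hT0
      have h4 : 0 ≤ T * psi x := mul_nonneg hT0 hpx0.le
      have h5 : 0 ≤ T * psi y := mul_nonneg hT0 hpy0.le
      linarith
    · obtain ⟨hu0, hu1, hu3⟩ := sum_psi_small hx0 hx1
      obtain ⟨hz0, hz1, hz3⟩ := sum_psi_large hy1
      set u := psi x with hu
      set z := psi y with hz
      have hW1 : s ^ 16 ≤ s ^ 16 / u ^ 2 := by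
        rw [le_div_iff₀ (by positivity)]
        have : u ^ 2 ≤ 1 := pow_le_one₀ hu0.le hu1
        have h16 : 0 ≤ s ^ 16 := by positivity
        nlinarith
      have hu6 : s ^ 12 ≤ u ^ 2 := by
        have h6 : (s ^ 12) ^ 3 ≤ (u ^ 2) ^ 3 := by
          have e1 : (u ^ 2) ^ 3 = y ^ 2 * s ^ 32 := by
            calc (u ^ 2) ^ 3 = (u ^ 3) ^ 2 := by ring
              _ = x ^ 2 := by rw [hu3]
              _ = y ^ 2 * s ^ 32 := by rw [hxy]; ring
          rw [e1]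
          have e2 : (s ^ 12) ^ 3 = s ^ 32 * s ^ 4 := by ring
          rw [e2]
          have h4 : s ^ 4 ≤ 1 := pow_le_one₀ hs.le hs1'
          have h32 : 0 < s ^ 32 := by positivity
          have hy2 : 1 ≤ y ^ 2 := one_le_pow₀ hy1
          nlinarith
        exact le_of_pow_le_pow_left₀ (by norm_num) (by positivity) h6
      have hW2 : s ^ 16 / u ^ 2 ≤ s ^ 4 := by
        rw [div_le_iff₀ (by positivity)]
        calc s ^ 16 = s ^ 4 * s ^ 12 := by ring
          _ ≤ s ^ 4 * u ^ 2 := mul_le_mul_of_nonneg_left hu6 (by positivity)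
      have h1 := hb _ hW1 hW2
      have hru : r = u ^ 3 / (q * s ^ 72) := by rw [hu3]; exact hrx
      have hrz : r = 1 / (z ^ 3 * (q * s ^ 56)) := by
        rw [hz3, hry]; field_simp
      have h2 : r * F ≤ T * u + T * u ^ 3 + T * u + T * (z ^ 3 * s ^ 7) := by
        calc r * F ≤ r * (C * (n * (s ^ 16 / u ^ 2 / s ^ 64 + 1 / s ^ 48) +
              (1 / r) ^ 2 * (1 / (s ^ 160 * (s ^ 16 / u ^ 2) ^ 2) + 1 / s ^ 169))) :=
              mul_le_mul_of_nonneg_left h1 hr.le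
          _ = C * (r * n) * (s ^ 16 / u ^ 2 / s ^ 64) + C * (r * n) * (1 / s ^ 48) +
              C * (1 / r) * (1 / (s ^ 160 * (s ^ 16 / u ^ 2) ^ 2)) + C * (1 / r) * (1 / s ^ 169) := by
              field_simp
              ring
          _ = T * u + T * u ^ 3 + T * u + T * (z ^ 3 * s ^ 7) := by
              congr 1
              · congr 1
                · congr 1
                  · rw [hru, hqn, hT]; field_simp
                  · rw [hru, hqn, hT]; field_simp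
                · rw [hru, hT]; field_simp
              · rw [hrz, hT]; field_simp
      have h3 : u ^ 3 ≤ u := by
        have : u ^ 2 ≤ 1 := pow_le_one₀ hu0.le hu1
        nlinarith
      have h4 : z ^ 3 * s ^ 7 ≤ z := by
        have h5 : z ^ 2 ≤ 1 := pow_le_one₀ hz0.le hz1
        have h6 : s ^ 7 ≤ 1 := pow_le_one₀ hs.le hs1'
        have h7 : z ^ 2 * s ^ 7 ≤ 1 := by
          calc z ^ 2 * s ^ 7 ≤ 1 * 1 := mul_le_mul h5 h6 (by positivity) (by norm_num)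
            _ = 1 := by norm_num
        nlinarith
      have h8 : T * u ^ 3 ≤ T * u := mul_le_mul_of_nonneg_left h3 hT0
      have h9 : T * (z ^ 3 * s ^ 7) ≤ T * z := mul_le_mul_of_nonneg_left h4 hT0
      have h10 : 0 ≤ T * u := mul_nonneg hT0 hu0.le
      have h11 : 0 ≤ T * z := mul_nonneg hT0 hz0.le
      linarith

end Pool.Agent.MP_259de8
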