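import Pool.Agent.Lib.MP_259de8_co.G.MainA
import Pool.Agent.Lib.MP_259de8_co.G.MainB
import Pool.Agent.Lib.MP_259de8_co.G.Sum

/-!
# The planar bound `C ε^(-15/8) √n`
-/

set_option autoImplicit false

namespace Pool.Agent.MP_259de8

open Greedy

/-- small `ε` -/
theorem main_small {s ε : ℝ} (hs : 0 < s) (hs1 : s ≤ 1 / 2) (hε : s ^ 64 = ε)
    {S : Finset (E 2)} (hS : ∀ x ∈ S, ∀ i, 0 ≤ x i ∧ x i ≤ 1)
    {L : List (Sym2 (E 2))} (hL : IsOrdering S L) :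
    ∑ e ∈ greedy ε L, len e ≤ 10 ^ 14 * Real.sqrt S.card / s ^ 120 := by
  classical
  obtain ⟨I, hI⟩ := dyadic (ε := ε) hS hL
  refine hI.trans ?_
  rcases Nat.eq_zero_or_pos S.card with h0 | hpos
  · -- no points, no edges
    have hb : ∀ i ∈ Finset.range I, 2 * ((1 / 2 : ℝ) ^ i *
        (((greedy ε L).filter (fun e => (1 / 2 : ℝ) ^ i ≤ len e ∧ len e < 2 * (1 / 2 : ℝ) ^ i)).card : ℝ))
          ≤ 0 := by
      intro i _
      have h := (scale_bounds hs hs1 hε (r := (1 / 2 : ℝ) ^ i) (by positivity)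
        (pow_le_one₀ (by norm_num) (by norm_num)) hS hL).1
      rw [h0] at h
      simp only [Nat.cast_zero, mul_zero, zero_div] at h
      have hc : (((greedy ε L).filter (fun e => (1 / 2 : ℝ) ^ i ≤ len e ∧
        len e < 2 * (1 / 2 : ℝ) ^ i)).card : ℝ) = 0 := le_antisymm h (by positivity)
      rw [hc]
      simp
    refine (Finset.sum_nonpos hb).trans (by positivity)
  · have hn : (0 : ℝ) < S.card := by exact_mod_cast hpos
    have hb : ∀ i ∈ Finset.range I, 2 * ((1 / 2 : ℝ) ^ i *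
        (((greedy ε L).filter (fun e => (1 / 2 : ℝ) ^ i ≤ len e ∧ len e < 2 * (1 / 2 : ℝ) ^ i)).card : ℝ))
          ≤ 8 * 10 ^ 11 * Real.sqrt S.card / s ^ 120 *
            (psi (Real.sqrt S.card * s ^ 72 / 2 ^ i) + psi (Real.sqrt S.card * s ^ 56 / 2 ^ i)) := by
      intro i _
      obtain ⟨h1, h2, h3⟩ := scale_bounds hs hs1 hε (r := (1 / 2 : ℝ) ^ i) (by positivity)
        (pow_le_one₀ (by norm_num) (by norm_num)) hS hL
      have h := one_scale hs hs1 hn (r := (1 / 2 : ℝ) ^ i) (by positivity)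
        (C := 10 ^ 11) (by positivity) h1 h2 h3
      have e1 : ∀ y : ℝ, y * (1 / 2 : ℝ) ^ i = y / 2 ^ i := by
        intro y
        rw [one_div, inv_pow, div_eq_mul_inv]
      rw [e1 (Real.sqrt S.card * s ^ 72), e1 (Real.sqrt S.card * s ^ 56)] at h
      calc _ ≤ 2 * (4 * 10 ^ 11 * Real.sqrt S.card / s ^ 120 *
            (psi (Real.sqrt S.card * s ^ 72 / 2 ^ i) + psi (Real.sqrt S.card * s ^ 56 / 2 ^ i))) := by
              linarith
        _ = _ := by ring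
    refine (Finset.sum_le_sum hb).trans ?_
    rw [← Finset.mul_sum, Finset.sum_add_distrib]
    have hsq : 0 < Real.sqrt S.card := Real.sqrt_pos.2 hn
    have p1 := sum_psi (x := Real.sqrt S.card * s ^ 72) (by positivity) I
    have p2 := sum_psi (x := Real.sqrt S.card * s ^ 56) (by positivity) I
    have hK : 0 ≤ 8 * 10 ^ 11 * Real.sqrt S.card / s ^ 120 := by positivity
    calc _ ≤ 8 * 10 ^ 11 * Real.sqrt S.card / s ^ 120 * 20 :=
          mul_le_mul_of_nonneg_left (by linarith) hK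
      _ = 16 * 10 ^ 12 * Real.sqrt S.card / s ^ 120 := by ring
      _ ≤ _ := by
          apply div_le_div_of_nonneg_right _ (by positivity)
          nlinarith

/-- **Main theorem.** -/
theorem main : ∃ C : ℝ, ∀ ε : ℝ, 0 < ε → ε ≤ 1 →
    ∀ S : Finset (E 2), (∀ x ∈ S, ∀ i, 0 ≤ x i ∧ x i ≤ 1) →
    ∀ L : List (Sym2 (E 2)), IsOrdering S L →
      ∑ e ∈ greedy ε L, len e ≤ C * ε ^ (-(15 / 8 : ℝ)) * Real.sqrt S.card := by
  refine ⟨10 ^ 14 + (216 * (2 : ℝ) ^ 2 * (19 * 2) ^ (2 - 1)) * 2 ^ 8, fun ε hε hε1 S hS L hL => ?_⟩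
  have hsq : 0 ≤ Real.sqrt S.card := Real.sqrt_nonneg _
  have hrp : 0 < ε ^ (-(15 / 8 : ℝ)) := Real.rpow_pos_of_pos hε _
  rcases le_total ε ((1 / 2 : ℝ) ^ 64) with h | h
  · -- small
    set s : ℝ := ε ^ ((1 : ℝ) / 64) with hsdef
    have hs : 0 < s := Real.rpow_pos_of_pos hε _
    have hs64 : s ^ 64 = ε := by
      rw [hsdef, ← Real.rpow_natCast, ← Real.rpow_mul hε.le]
      norm_num
    have hs1 : s ≤ 1 / 2 := by
      by_contra hcon
      push Not at hcon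
      have : (1 / 2 : ℝ) ^ 64 < s ^ 64 := pow_lt_pow_left₀ hcon (by norm_num) (by norm_num)
      rw [hs64] at this
      linarith
    have hs120 : ε ^ (-(15 / 8 : ℝ)) = 1 / s ^ 120 := by
      have e0 : ε = s ^ (64 : ℝ) := by
        rw [← hs64]
        norm_cast
      conv_lhs => rw [e0]
      rw [← Real.rpow_mul hs.le, one_div, ← Real.rpow_natCast, ← Real.rpow_neg hs.le]
      norm_num
    have hm := main_small hs hs1 hs64 hS hL
    refine hm.trans ?_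
    rw [hs120]
    have hp : 0 ≤ 1 / s ^ 120 * Real.sqrt S.card := by positivity
    have hk : (0 : ℝ) ≤ (216 * (2 : ℝ) ^ 2 * (19 * 2) ^ (2 - 1)) * 2 ^ 8 := by positivity
    calc 10 ^ 14 * Real.sqrt S.card / s ^ 120 = 10 ^ 14 * (1 / s ^ 120 * Real.sqrt S.card) := by ring
      _ ≤ (10 ^ 14 + (216 * (2 : ℝ) ^ 2 * (19 * 2) ^ (2 - 1)) * 2 ^ 8) *
          (1 / s ^ 120 * Real.sqrt S.card) := mul_le_mul_of_nonneg_right (by linarith) hp
      _ = _ := by ring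
  · -- large
    have hw := weight_bound (d := 2) le_rfl hε hε1 S hS L hL
    refine hw.trans ?_
    have e1 : ((S.card : ℝ)) ^ (((2 : ℕ) : ℝ) - 1) / ((2 : ℕ) : ℝ) = (S.card : ℝ) ^ (((2 : ℕ) : ℝ) - 1) / 2 := by
      norm_num
    have e2 : (S.card : ℝ) ^ ((((2 : ℕ) : ℝ) - 1) / ((2 : ℕ) : ℝ)) = Real.sqrt S.card := by
      rw [Real.sqrt_eq_rpow]
      norm_num
    rw [e2]
    have e3 : ε ^ (-((2 : ℕ) : ℝ)) = ε ^ (-(15 / 8 : ℝ)) * ε ^ (-(1 / 8 : ℝ)) := by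
      rw [← Real.rpow_add hε]
      norm_num
    have e4 : ε ^ (-(1 / 8 : ℝ)) ≤ 2 ^ 8 := by
      have : ε ^ (-(1 / 8 : ℝ)) ≤ ((1 / 2 : ℝ) ^ 64) ^ (-(1 / 8 : ℝ)) :=
        Real.rpow_le_rpow_of_nonpos (by positivity) h (by norm_num)
      refine this.trans (le_of_eq ?_)
      rw [← Real.rpow_natCast, ← Real.rpow_mul (by norm_num)]
      norm_num
    rw [e3]
    have hk : (0 : ℝ) ≤ 216 * ((2 : ℕ) : ℝ) ^ 2 * (19 * ((2 : ℕ) : ℝ)) ^ (2 - 1) := by positivity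
    have hp : 0 ≤ ε ^ (-(15 / 8 : ℝ)) * Real.sqrt S.card := by positivity
    calc _ = (216 * (2 : ℝ) ^ 2 * (19 * 2) ^ (2 - 1)) * ε ^ (-(1 / 8 : ℝ)) *
          (ε ^ (-(15 / 8 : ℝ)) * Real.sqrt S.card) := by push_cast; ring
      _ ≤ (216 * (2 : ℝ) ^ 2 * (19 * 2) ^ (2 - 1)) * 2 ^ 8 *
          (ε ^ (-(15 / 8 : ℝ)) * Real.sqrt S.card) := by gcongr
      _ ≤ (10 ^ 14 + (216 * (2 : ℝ) ^ 2 * (19 * 2) ^ (2 - 1)) * 2 ^ 8) *
          (ε ^ (-(15 / 8 : ℝ)) * Real.sqrt S.card) := mul_le_mul_of_nonneg_right (by linarith) hp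
      _ = _ := by ring

end Pool.Agent.MP_259de8
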