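import Pool.Agent.Lib.MP_259de8_co.G.ScaleOne
import Pool.Agent.Lib.MP_259de8_co.G.FromGreedy
import Pool.Agent.Lib.MP_259de8_co.G.FromC

/-!
# The three bounds for one scale
-/

set_option autoImplicit false

namespace Pool.Agent.MP_259de8

open Greedy

/-- `count_edges` in the plane -/
private theorem mainA_count {ε r : ℝ} (hε : 0 < ε) (hε1 : ε ≤ 1) (hr : 0 < r)
    {S : Finset (E 2)} {L : List (Sym2 (E 2))} (hL : IsOrdering S L)
    (hS : ∀ x ∈ S, ∀ i, 0 ≤ x i ∧ x i ≤ 1) :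
    (((greedy ε L).filter (fun e => r ≤ len e ∧ len e < 2 * r)).card : ℝ) ≤
      152 / ε * S.card ∧
    (((greedy ε L).filter (fun e => r ≤ len e ∧ len e < 2 * r)).card : ℝ) ≤
      152 / ε * (16 / (ε * r) + 1) ^ 2 := by
  have h := count_edges (d := 2) (by norm_num) hε hε1 hr hL hS
  have h0 : (((greedy ε L).filter (fun e => r ≤ len e ∧ len e < 2 * r)).card : ℝ) ≤
      (((greedy ε L).filter (fun e => r ≤ len e)).card : ℝ) := by
    have : ((greedy ε L).filter (fun e => r ≤ len e ∧ len e < 2 * r)).card ≤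
        ((greedy ε L).filter (fun e => r ≤ len e)).card := by
      apply Finset.card_le_card
      intro e he
      rw [Finset.mem_filter] at he ⊢
      exact ⟨he.1, he.2.1⟩
    exact_mod_cast this
  have e1 : (2 * ((2 : ℕ) : ℝ) * (19 * ((2 : ℕ) : ℝ) / ε) ^ (2 - 1)) = 152 / ε := by
    norm_num
    ring
  have e2 : (8 * ((2 : ℕ) : ℝ) / (ε * r) + 1) = 16 / (ε * r) + 1 := by
    norm_num
  rw [e1, e2] at h
  have hk : 0 ≤ 152 / ε := by positivity
  exact ⟨h0.trans (h.trans (mul_le_mul_of_nonneg_left (min_le_left _ _) hk)),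
    h0.trans (h.trans (mul_le_mul_of_nonneg_left (min_le_right _ _) hk))⟩

open Classical in
/-- the number of greedy edges of length in `[r, 2r)`, `0 < r ≤ 1`: the three bounds
(`count_edges` with `d = 2`, and `scale_one` for the system scaled by `1/r`, `B = 1/r`) -/
theorem scale_bounds {s ε r : ℝ} (hs : 0 < s) (hs1 : s ≤ 1 / 2) (hε : s ^ 64 = ε) (hr : 0 < r)
    (hr1 : r ≤ 1) {S : Finset (E 2)} (hS : ∀ x ∈ S, ∀ i, 0 ≤ x i ∧ x i ≤ 1)
    {L : List (Sym2 (E 2))} (hL : IsOrdering S L) :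
    (((greedy ε L).filter (fun e => r ≤ len e ∧ len e < 2 * r)).card : ℝ) ≤
        10 ^ 11 * S.card / s ^ 64 ∧
    (((greedy ε L).filter (fun e => r ≤ len e ∧ len e < 2 * r)).card : ℝ) ≤
        10 ^ 11 / (s ^ 192 * r ^ 2) ∧
    ∀ W : ℝ, s ^ 16 ≤ W → W ≤ s ^ 4 →
      (((greedy ε L).filter (fun e => r ≤ len e ∧ len e < 2 * r)).card : ℝ) ≤
        10 ^ 11 * (S.card * (W / s ^ 64 + 1 / s ^ 48) +
          (1 / r) ^ 2 * (1 / (s ^ 160 * W ^ 2) + 1 / s ^ 169)) := by
  have hεpos : 0 < ε := by rw [← hε]; positivity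
  have hε1 : ε ≤ 1 := by
    rw [← hε]
    exact pow_le_one₀ hs.le (by linarith)
  obtain ⟨hc1, hc2⟩ := mainA_count hεpos hε1 hr hL hS
  have hn : (0 : ℝ) ≤ S.card := by positivity
  refine ⟨?_, ?_, ?_⟩
  · refine hc1.trans ?_
    rw [hε]
    have e : 152 / ε * (S.card : ℝ) = 152 * S.card / ε := by ring
    rw [e]
    apply div_le_div_of_nonneg_right _ hεpos.le
    nlinarith
  · refine hc2.trans ?_
    have h192 : s ^ 192 = ε ^ 3 := by rw [← hε]; ring
    rw [h192]
    have hεr : 0 < ε * r := mul_pos hεpos hr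
    have hεr1 : ε * r ≤ 1 := by
      calc ε * r ≤ 1 * 1 := mul_le_mul hε1 hr1 hr.le (by norm_num)
        _ = 1 := by norm_num
    have h1 : 16 / (ε * r) + 1 ≤ 17 / (ε * r) := by
      have h2 : 1 ≤ 1 / (ε * r) := by
        rw [le_div_iff₀ hεr]
        linarith
      have h3 : 17 / (ε * r) = 16 / (ε * r) + 1 / (ε * r) := by ring
      rw [h3]
      linarith
    have h2 : (16 / (ε * r) + 1) ^ 2 ≤ (17 / (ε * r)) ^ 2 :=
      pow_le_pow_left₀ (by positivity) h1 2
    calc 152 / ε * (16 / (ε * r) + 1) ^ 2 ≤ 152 / ε * (17 / (ε * r)) ^ 2 :=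
          mul_le_mul_of_nonneg_left h2 (by positivity)
      _ = 43928 / (ε ^ 3 * r ^ 2) := by
          field_simp
          norm_num
      _ ≤ 10 ^ 11 / (ε ^ 3 * r ^ 2) := by
          apply div_le_div_of_nonneg_right _ (by positivity)
          norm_num
  · intro W hW hW1
    have hsys := sys_of_greedy hεpos hε1 hr hL
    have hWpos : 0 < W := lt_of_lt_of_le (by positivity) hW
    have hB : (1 : ℝ) ≤ 1 / r := by
      rw [le_div_iff₀ hr]
      linarith
    have hSB : ∀ z ∈ S.image (phi r), 0 ≤ z.re ∧ z.re ≤ 1 / r ∧ 0 ≤ z.im ∧ z.im ≤ 1 / r := by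
      intro z hz
      obtain ⟨x, hx, rfl⟩ := Finset.mem_image.1 hz
      have h0 := hS x hx 0
      have h1 := hS x hx 1
      unfold phi
      refine ⟨div_nonneg h0.1 hr.le, ?_, div_nonneg h1.1 hr.le, ?_⟩
      · exact div_le_div_of_nonneg_right h0.2 hr.le
      · exact div_le_div_of_nonneg_right h1.2 hr.le
    have h := scale_one hsys hs hs1 hε hW hW1 hB hSB
    have hcard := card_scale_le (ε := ε) hr hL
    have hcardR : (((greedy ε L).filter (fun e => r ≤ len e ∧ len e < 2 * r)).card : ℝ) ≤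
        ((E1 (Eo ε r S L)).card : ℝ) := by exact_mod_cast hcard
    refine hcardR.trans (h.trans ?_)
    have himg : ((S.image (phi r)).card : ℝ) ≤ S.card := by
      exact_mod_cast Finset.card_image_le
    have hk : 0 ≤ W / s ^ 64 + 1 / s ^ 48 := by positivity
    have h3 : ((S.image (phi r)).card : ℝ) * (W / s ^ 64 + 1 / s ^ 48) ≤
        S.card * (W / s ^ 64 + 1 / s ^ 48) := mul_le_mul_of_nonneg_right himg hk
    apply mul_le_mul_of_nonneg_left _ (by positivity)
    linarith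

end Pool.Agent.MP_259de8
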