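import Mathlib

/-!
# Numerical inequalities for the plane geometry of the 15/8 bound

`s` is `√ε`.  Coordinates: `u = 0`, `u₁ = (-R, y₁)`, `v₁ = u₁ + ℓ (cos α, sin α)`, `b = (x, Yb)`.
All constants have a large amount of room.
-/

set_option autoImplicit false

namespace Pool.Agent.MP_259de8

theorem sqrt_add_sq_le {A B : ℝ} (hA : 0 < A) : Real.sqrt (A ^ 2 + B ^ 2) ≤ A + B ^ 2 / (2 * A) := by
  rw [Real.sqrt_le_left (by positivity)]
  have h : (A + B ^ 2 / (2 * A)) ^ 2 = A ^ 2 + B ^ 2 + (B ^ 2 / (2 * A)) ^ 2 := by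
    field_simp
    ring
  rw [h]
  nlinarith [sq_nonneg (B ^ 2 / (2 * A))]

theorem le_sqrt_add_sq {A B : ℝ} : A ≤ Real.sqrt (A ^ 2 + B ^ 2) :=
  Real.le_sqrt_of_sq_le (by nlinarith [sq_nonneg B])

end Pool.Agent.MP_259de8
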