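import Pool.Agent.Lib.MP_259de8_co.G.Tube
import Pool.Agent.Lib.MP_259de8_co.G.GridCount

/-!
# Counting the two-sided, non-violating edges which start in a set `T` of diameter at most `1/5`
-/

set_option autoImplicit false

namespace Pool.Agent.MP_259de8

variable {ε : ℝ} {S : Finset ℂ} {E : Finset (ℂ × ℂ)}

open Classical in
/-- the edges to be counted -/
noncomputable def Good (ε : ℝ) (S : Finset ℂ) (E : Finset (ℂ × ℂ)) (W A : ℝ) (T : Finset ℂ) :
    Finset (ℂ × ℂ) :=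
  (E1 E).filter (fun e => e.1 ∈ T ∧ ¬ OneSided ε E W e ∧ ¬ Viol ε S A e)

open Classical in
/-- the good edges of exact level `k` -/
noncomputable def Lev (ε : ℝ) (S : Finset ℂ) (E : Finset (ℂ × ℂ)) (W A : ℝ) (T : Finset ℂ) (k : ℕ) :
    Finset (ℂ × ℂ) :=
  (Good ε S E W A T).filter (fun e => Partn E T (dl ε W) k e ∧ ∀ i < k, ¬ Partn E T (dl ε W) i e)

open Classical in
/-- the good edges without a back partner of level `≤ K` -/
noncomputable def Rest (ε : ℝ) (S : Finset ℂ) (E : Finset (ℂ × ℂ)) (W A : ℝ) (T : Finset ℂ) (K : ℕ) :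
    Finset (ℂ × ℂ) :=
  (Good ε S E W A T).filter (fun e => ∀ i ≤ K, ¬ Partn E T (dl ε W) i e)

private theorem partA_abs_cx {t : ℂ} (ht : ‖t‖ = 1) (z : ℂ) : |cx t z| ≤ ‖z‖ := by
  rw [norm_coord ht z]
  apply Real.abs_le_sqrt
  nlinarith [sq_nonneg (cy t z)]

private theorem partA_not_partn {T : Finset ℂ} {δ : ℝ} {k : ℕ} {e f : ℂ × ℂ}
    (h : ¬ Partn E T δ k e) (hf : f ∈ E1 E) (hfT : f.1 ∈ T) (hw : win δ f = win δ e)
    (hs : sub δ k f = sub δ k e) :
    cx (wdir δ (win δ e)) (e.1 - f.1) < (1 / 4 : ℝ) ^ k / 2 := by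
  by_contra hcon
  exact h ⟨f, hf, hfT, hw, hs, not_lt.mp hcon⟩

private theorem partA_dl_pos (hε : 0 < ε) {W : ℝ} (hW : 0 < W) : 0 < dl ε W := by
  unfold dl
  have := Real.sqrt_pos.mpr hW
  positivity

open Classical in
/-- one tube of level `k`: `grid_count` with `D = 2·4^(-k)` (for `k ≥ 1` because there is no back partner of
level `k - 1` and tubes are nested; for `k = 0` because the diameter is `≤ 1/5`), `l = W 4^(-k)/80`,
`h = δ/2^k`, `s = ε√ε√(WA)/60` (`pair_gap`): at most `(160/W + 1)(1.5/(2^k √(εA)) + 1)`. -/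
theorem lev_tube (hS : Sys ε S E) (hε : 0 < ε) (hε1 : ε ≤ 1 / 10000) {W A : ℝ} (hW : ε ≤ W)
    (hW1 : W ≤ 1) (hA : 3 ≤ A) (hWA : W * A ≤ 1) {T : Finset ℂ} (hT : T ⊆ S)
    (hd : ∀ z ∈ T, ∀ w ∈ T, ‖z - w‖ ≤ 1 / 5) (k : ℕ) (j m : ℤ) :
    (((Lev ε S E W A T k).filter (fun e => win (dl ε W) e = j ∧ sub (dl ε W) k e = m)).card : ℝ) ≤
      (160 / W + 1) * (3 / (2 * 2 ^ k * Real.sqrt (ε * A)) + 1) := by
  have hW0 : 0 < W := lt_of_lt_of_le hε hW
  have hA0 : 0 < A := by linarith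
  have hδ : 0 < dl ε W := partA_dl_pos hε hW0
  have ht : ‖wdir (dl ε W) j‖ = 1 := norm_uv _
  set Q := (Lev ε S E W A T k).filter (fun e => win (dl ε W) e = j ∧ sub (dl ε W) k e = m) with hQ
  have hmem : ∀ e ∈ Q, e ∈ E1 E ∧ e.1 ∈ T ∧ ¬ OneSided ε E W e ∧ ¬ Viol ε S A e ∧
      Partn E T (dl ε W) k e ∧ (∀ i < k, ¬ Partn E T (dl ε W) i e) ∧ win (dl ε W) e = j ∧
      sub (dl ε W) k e = m := by
    intro e he
    simp only [hQ, Lev, Good, Finset.mem_filter] at he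
    obtain ⟨⟨⟨h1, h2, h3, h4⟩, h5, h6⟩, h7, h8⟩ := he
    exact ⟨h1, h2, h3, h4, h5, h6, h7, h8⟩
  have h4 : (0 : ℝ) < (1 / 4 : ℝ) ^ k := by positivity
  have hsε : 0 < Real.sqrt ε := Real.sqrt_pos.mpr hε
  have hsWA : 0 < Real.sqrt (W * A) := Real.sqrt_pos.mpr (by positivity)
  have key := grid_count Q (fun e => cx (wdir (dl ε W) j) e.1) (fun e => cy (wdir (dl ε W) j) e.1)
    (D := 2 * (1 / 4 : ℝ) ^ k) (l := W * (1 / 4 : ℝ) ^ k / 80) (h := dl ε W / 2 ^ k)
    (s := ε * Real.sqrt ε * Real.sqrt (W * A) / 60) (by positivity) (by positivity) (by positivity)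
    (by positivity)
    (by
      -- spread along the axis
      have one : ∀ e ∈ Q, ∀ f ∈ Q, cx (wdir (dl ε W) j) e.1 - cx (wdir (dl ε W) j) f.1 ≤
          2 * (1 / 4 : ℝ) ^ k := by
        intro e he f hf
        obtain ⟨he1, heT, -, -, -, heP, hew, hes⟩ := hmem e he
        obtain ⟨hf1, hfT, -, -, -, -, hfw, hfs⟩ := hmem f hf
        rw [← cx_sub]
        rcases Nat.eq_zero_or_pos k with hk0 | hk0
        · subst hk0
          have h1 := hd e.1 heT f.1 hfT
          have h2 := partA_abs_cx ht (e.1 - f.1)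
          have h3 := le_abs_self (cx (wdir (dl ε W) j) (e.1 - f.1))
          norm_num
          linarith
        · obtain ⟨k', rfl⟩ : ∃ k', k = k' + 1 := ⟨k - 1, by omega⟩
          have hw : win (dl ε W) f = win (dl ε W) e := by rw [hfw, hew]
          have hs1 : sub (dl ε W) k' f = sub (dl ε W) k' e :=
            sub_nest hδ k' hw (by rw [hfs, hes])
          have h1 := partA_not_partn (heP k' (Nat.lt_succ_self k')) hf1 hfT hw hs1
          rw [hew] at h1
          have h2 : (1 / 4 : ℝ) ^ (k' + 1) = (1 / 4 : ℝ) ^ k' / 4 := by ring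
          rw [h2]
          linarith
      intro e he f hf
      rw [abs_le]
      have h1 := one e he f hf
      have h2 := one f hf e he
      constructor <;> linarith)
    (by
      intro e he f hf
      obtain ⟨-, -, -, -, -, -, hew, hes⟩ := hmem e he
      obtain ⟨-, -, -, -, -, -, hfw, hfs⟩ := hmem f hf
      have h1 := sub_close hδ k (e := f) (f := e) (by rw [hfw, hew]) (by rw [hfs, hes])
      rw [hfw, cy_sub] at h1
      exact h1.le)
    (by
      intro e he f hf hne h0 h1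
      obtain ⟨he1, heT, heO, heV, heP, -, hew, hes⟩ := hmem e he
      obtain ⟨hf1, hfT, -, -, -, -, hfw, hfs⟩ := hmem f hf
      have h2 := pair_gap hS hε hε1 hW hW1 hA hWA hT hd (k := k) he1 hf1 heT hfT
        (by rw [hfw, hew]) (by rw [hfs, hes]) heP heO heV hne
        (by rw [hew, cx_sub]; exact h0) (by rw [hew, cx_sub]; exact h1)
      rw [hew, cy_sub] at h2
      exact h2)
  refine key.trans (le_of_eq ?_)
  have hsW : 0 < Real.sqrt W := Real.sqrt_pos.mpr hW0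
  have hsA : 0 < Real.sqrt A := Real.sqrt_pos.mpr hA0
  have h2k : (0 : ℝ) < 2 ^ k := by positivity
  have e1 : 2 * (1 / 4 : ℝ) ^ k / (W * (1 / 4 : ℝ) ^ k / 80) = 160 / W := by
    field_simp
    norm_num
  have e2 : dl ε W / 2 ^ k / (ε * Real.sqrt ε * Real.sqrt (W * A) / 60) =
      3 / (2 * 2 ^ k * Real.sqrt (ε * A)) := by
    rw [Real.sqrt_mul hW0.le, Real.sqrt_mul hε.le]
    unfold dl
    field_simp
    norm_num
  rw [e1, e2]

open Classical in
/-- the rest in one tube of level `K`, `4^(-(K+1)) < ε A`: all starts lie within `4^(-K)/2 < 2 ε A` along the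
axis; `grid_count` with `l = A ε/2`, `s = ε√ε/20` (`near_gap`), `h = δ/2^K`:
at most `5 · (√W/(2·2^K √ε) + 1) ≤ 5 (√(WA) + 1) ≤ 10`. -/
theorem rest_tube (hS : Sys ε S E) (hε : 0 < ε) (hε1 : ε ≤ 1 / 10000) {W A : ℝ} (hW : ε ≤ W)
    (hW1 : W ≤ 1) (hA : 3 ≤ A) (hWA : W * A ≤ 1) {T : Finset ℂ} (hT : T ⊆ S)
    (hd : ∀ z ∈ T, ∀ w ∈ T, ‖z - w‖ ≤ 1 / 5) (K : ℕ) (hK : (1 / 4 : ℝ) ^ (K + 1) < ε * A) (j m : ℤ) :
    (((Rest ε S E W A T K).filter (fun e => win (dl ε W) e = j ∧ sub (dl ε W) K e = m)).card : ℝ) ≤ 10 := by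
  have hW0 : 0 < W := lt_of_lt_of_le hε hW
  have hA0 : 0 < A := by linarith
  have hδ : 0 < dl ε W := partA_dl_pos hε hW0
  set Q := (Rest ε S E W A T K).filter (fun e => win (dl ε W) e = j ∧ sub (dl ε W) K e = m) with hQ
  have hmem : ∀ e ∈ Q, e ∈ E1 E ∧ e.1 ∈ T ∧ ¬ Viol ε S A e ∧
      (∀ i ≤ K, ¬ Partn E T (dl ε W) i e) ∧ win (dl ε W) e = j ∧
      sub (dl ε W) K e = m := by
    intro e he
    simp only [hQ, Rest, Good, Finset.mem_filter] at he
    obtain ⟨⟨⟨h1, h2, -, h4⟩, h6⟩, h7, h8⟩ := he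
    exact ⟨h1, h2, h4, h6, h7, h8⟩
  have h4 : (0 : ℝ) < (1 / 4 : ℝ) ^ K := by positivity
  have hsε : 0 < Real.sqrt ε := Real.sqrt_pos.mpr hε
  have key := grid_count Q (fun e => cx (wdir (dl ε W) j) e.1) (fun e => cy (wdir (dl ε W) j) e.1)
    (D := (1 / 4 : ℝ) ^ K / 2) (l := A * ε / 2) (h := dl ε W / 2 ^ K)
    (s := ε * Real.sqrt ε / 20) (by positivity) (by positivity) (by positivity)
    (by positivity)
    (by
      have one : ∀ e ∈ Q, ∀ f ∈ Q, cx (wdir (dl ε W) j) e.1 - cx (wdir (dl ε W) j) f.1 ≤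
          (1 / 4 : ℝ) ^ K / 2 := by
        intro e he f hf
        obtain ⟨he1, heT, -, heP, hew, hes⟩ := hmem e he
        obtain ⟨hf1, hfT, -, -, hfw, hfs⟩ := hmem f hf
        rw [← cx_sub]
        have h1 := partA_not_partn (heP K le_rfl) hf1 hfT (by rw [hfw, hew]) (by rw [hfs, hes])
        rw [hew] at h1
        exact h1.le
      intro e he f hf
      rw [abs_le]
      have h1 := one e he f hf
      have h2 := one f hf e he
      constructor <;> linarith)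
    (by
      intro e he f hf
      obtain ⟨-, -, -, -, hew, hes⟩ := hmem e he
      obtain ⟨-, -, -, -, hfw, hfs⟩ := hmem f hf
      have h1 := sub_close hδ K (e := f) (f := e) (by rw [hfw, hew]) (by rw [hfs, hes])
      rw [hfw, cy_sub] at h1
      exact h1.le)
    (by
      intro e he f hf hne h0 h1
      obtain ⟨he1, heT, heV, -, hew, hes⟩ := hmem e he
      obtain ⟨hf1, hfT, -, -, hfw, hfs⟩ := hmem f hf
      have h2 := near_gap hS hε hε1 hW0 hW1 hA (k := K) he1 hf1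
        (by rw [hfw, hew]) (by rw [hfs, hes]) heV hne
        (by rw [hew, cx_sub]; exact h0) (by rw [hew, cx_sub]; exact h1)
      rw [hew, cy_sub] at h2
      exact h2)
  refine key.trans ?_
  have h2K : (0 : ℝ) < 2 ^ K := by positivity
  have hK' : (1 / 4 : ℝ) ^ K < 4 * (ε * A) := by
    have : (1 / 4 : ℝ) ^ (K + 1) = (1 / 4 : ℝ) ^ K / 4 := by ring
    rw [this] at hK
    linarith
  have e1 : (1 / 4 : ℝ) ^ K / 2 / (A * ε / 2) + 1 ≤ 5 := by
    have : (1 / 4 : ℝ) ^ K / 2 / (A * ε / 2) ≤ 4 := by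
      rw [div_le_iff₀ (by positivity)]
      nlinarith
    linarith
  have e2 : dl ε W / 2 ^ K / (ε * Real.sqrt ε / 20) + 1 ≤ 2 := by
    have hx : (1 : ℝ) / 2 ^ K ≤ 2 * Real.sqrt (ε * A) := by
      have h1 : ((1 : ℝ) / 2 ^ K) ^ 2 ≤ (2 * Real.sqrt (ε * A)) ^ 2 := by
        rw [mul_pow, Real.sq_sqrt (by positivity)]
        have : ((1 : ℝ) / 2 ^ K) ^ 2 = (1 / 4 : ℝ) ^ K := by
          rw [div_pow, one_pow, ← pow_mul, mul_comm K 2, pow_mul, one_div_pow]
          norm_num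
        rw [this]
        linarith
      exact le_of_sq_le_sq h1 (by positivity)
    have h3 : dl ε W / 2 ^ K / (ε * Real.sqrt ε / 20) =
        Real.sqrt W / (2 * Real.sqrt ε) * (1 / 2 ^ K) := by
      unfold dl
      field_simp
      norm_num
    have h4' : Real.sqrt W / (2 * Real.sqrt ε) * (1 / 2 ^ K) ≤
        Real.sqrt W / (2 * Real.sqrt ε) * (2 * Real.sqrt (ε * A)) :=
      mul_le_mul_of_nonneg_left hx (by positivity)
    have h5 : Real.sqrt W / (2 * Real.sqrt ε) * (2 * Real.sqrt (ε * A)) = Real.sqrt (W * A) := by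
      rw [Real.sqrt_mul hε.le, Real.sqrt_mul hW0.le]
      field_simp
    have h6 : Real.sqrt (W * A) ≤ 1 := by
      rw [Real.sqrt_le_one]
      exact hWA
    linarith [h3, h4', h5, h6]
  have hp : 0 ≤ dl ε W / 2 ^ K / (ε * Real.sqrt ε / 20) + 1 := by positivity
  calc ((1 / 4 : ℝ) ^ K / 2 / (A * ε / 2) + 1) * (dl ε W / 2 ^ K / (ε * Real.sqrt ε / 20) + 1)
      ≤ 5 * 2 := mul_le_mul e1 e2 hp (by norm_num)
    _ = 10 := by norm_num

end Pool.Agent.MP_259de8
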