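import Pool.Agent.Lib.MP_259de8_co.G.TubeA

/-!
# The number of tubes
-/

set_option autoImplicit false

namespace Pool.Agent.MP_259de8

variable {ε : ℝ} {S : Finset ℂ} {E : Finset (ℂ × ℂ)}

private theorem partB_abs_cy_le {t : ℂ} (ht : ‖t‖ = 1) (z : ℂ) : |cy t z| ≤ ‖z‖ := by
  unfold cy
  refine (Complex.abs_im_le_norm _).trans ?_
  rw [norm_mul, RCLike.norm_conj, ht, one_mul]

open Classical in
/-- the number of pairs (window, tube of level `k`) which contain an edge starting in `T`:
at most `8/δ` windows (`floor_count`, `L = 2π`), and at most `(1/5)/(δ/2^k) + 2 ≤ 2^k/δ` tubes in each. -/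
theorem tube_count {δ : ℝ} (hδ : 0 < δ) (hδ1 : δ ≤ 1 / 100) {T : Finset ℂ}
    (hd : ∀ z ∈ T, ∀ w ∈ T, ‖z - w‖ ≤ 1 / 5) (Q : Finset (ℂ × ℂ)) (hQ : ∀ e ∈ Q, e.1 ∈ T) (k : ℕ) :
    ((Q.image (fun e => (win δ e, sub δ k e))).card : ℝ) ≤ 8 * 2 ^ k / δ ^ 2 := by
  have h100 : (2 : ℝ) ≤ (1 / 50) / δ := by
    rw [le_div_iff₀ hδ]
    linarith
  have hpow : (1 : ℝ) ≤ 2 ^ k := one_le_pow₀ (by norm_num)
  -- windows
  set J : Finset ℤ := Q.image (fun e => ⌊ang e / δ⌋) with hJ
  have hJc : (J.card : ℝ) ≤ 8 / δ := by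
    have h1 := floor_count Q ang (L := 2 * Real.pi) (w := δ) hδ (by positivity) (by
      intro e _ f _
      have a1 := ang_mem e
      have a2 := ang_mem f
      rw [abs_le]
      constructor <;> linarith)
    refine h1.trans ?_
    have h2 : 2 * Real.pi / δ + (1 / 50) / δ ≤ 8 / δ := by
      rw [← add_div]
      have := Real.pi_lt_d2
      exact div_le_div_of_nonneg_right (by linarith) hδ.le
    linarith
  -- tubes in one window
  set n : ℕ := ⌊(2 : ℝ) ^ k / δ⌋₊ with hn
  have hn1 : (n : ℝ) ≤ 2 ^ k / δ := Nat.floor_le (by positivity)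
  set I : Finset (ℤ × ℤ) := Q.image (fun e => (win δ e, sub δ k e)) with hI
  have hcard : I.card ≤ n * J.card := by
    refine Finset.card_le_mul_card_image_of_maps_to (f := fun p : ℤ × ℤ => p.1) ?_ n ?_
    · intro p hp
      rw [hI, Finset.mem_image] at hp
      obtain ⟨e, he, rfl⟩ := hp
      rw [hJ]
      exact Finset.mem_image.mpr ⟨e, he, rfl⟩
    · intro j _
      have h1 := floor_count (Q.filter (fun e => win δ e = j)) (fun e => cy (wdir δ j) e.1)
        (L := 1 / 5) (w := δ / 2 ^ k) (by positivity) (by norm_num) (by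
          intro e he f hf
          rw [Finset.mem_filter] at he hf
          have h3 := partB_abs_cy_le (t := wdir δ j) (norm_uv _) (e.1 - f.1)
          rw [cy_sub] at h3
          exact h3.trans (hd _ (hQ e he.1) _ (hQ f hf.1)))
      have h2 : (I.filter (fun p : ℤ × ℤ => p.1 = j)).card ≤
          ((Q.filter (fun e => win δ e = j)).image
            (fun e => ⌊cy (wdir δ j) e.1 / (δ / 2 ^ k)⌋)).card := by
        refine Finset.card_le_card_of_injOn (fun p : ℤ × ℤ => p.2) ?_ ?_
        · intro p hp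
          rw [Finset.mem_coe, Finset.mem_filter, hI, Finset.mem_image] at hp
          obtain ⟨⟨e, he, rfl⟩, h3⟩ := hp
          simp only at h3
          rw [Finset.mem_coe, Finset.mem_image]
          refine ⟨e, Finset.mem_filter.mpr ⟨he, h3⟩, ?_⟩
          simp only [sub, h3]
        · intro p hp q hq hpq
          rw [Finset.mem_coe, Finset.mem_filter] at hp hq
          exact Prod.ext (hp.2.trans hq.2.symm) hpq
      refine h2.trans ?_
      refine Nat.le_floor (h1.trans ?_)
      have h4 : 1 / 5 / (δ / 2 ^ k) = (1 / 5) * (2 ^ k / δ) := by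
        field_simp
      rw [h4]
      have h5 : (1 / 50) / δ ≤ (1 / 50) * (2 ^ k / δ) := by
        rw [← mul_div_assoc]
        exact div_le_div_of_nonneg_right (by linarith) hδ.le
      have h6 : 0 ≤ 2 ^ k / δ := by positivity
      linarith
  have hcard' := (Nat.cast_le (α := ℝ)).mpr hcard
  rw [Nat.cast_mul] at hcard'
  refine hcard'.trans ?_
  calc (n : ℝ) * (J.card : ℝ) ≤ (2 ^ k / δ) * (8 / δ) := by
        gcongr
    _ = 8 * 2 ^ k / δ ^ 2 := by
        rw [div_mul_div_comm]
        ring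

end Pool.Agent.MP_259de8
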