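import Pool.Agent.Lib.MP_259de8_co.G.PartA
import Pool.Agent.Lib.MP_259de8_co.G.PartB

/-!
# Counting the two-sided, non-violating edges
-/

set_option autoImplicit false

namespace Pool.Agent.MP_259de8

variable {ε : ℝ} {S : Finset ℂ} {E : Finset (ℂ × ℂ)}

private theorem partner_fib {α β : Type} [DecidableEq α] [DecidableEq β] (Q : Finset α) (f : α → β)
    (B : ℝ) (hB : 0 ≤ B) (h : ∀ b, ((Q.filter (fun e => f e = b)).card : ℝ) ≤ B) :
    (Q.card : ℝ) ≤ B * (Q.image f).card := by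
  have h1 : Q.card ≤ ⌊B⌋₊ * (Q.image f).card := by
    apply Finset.card_le_mul_card_image
    intro b _
    exact Nat.le_floor (h b)
  have h2 : ((Q.card : ℕ) : ℝ) ≤ ((⌊B⌋₊ * (Q.image f).card : ℕ) : ℝ) := by exact_mod_cast h1
  refine h2.trans ?_
  rw [Nat.cast_mul]
  exact mul_le_mul_of_nonneg_right (Nat.floor_le hB) (Nat.cast_nonneg _)

private theorem partner_dl {ε W : ℝ} (hε : 0 < ε) (hε1 : ε ≤ 1 / 10000) (hW : ε ≤ W)
    (hW1 : W ≤ 1) : 0 < dl ε W ∧ dl ε W ≤ 1 / 100 ∧ dl ε W ^ 2 = ε ^ 2 * W / 1600 := by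
  have hW0 : 0 < W := hε.trans_le hW
  have h1 : 0 < Real.sqrt W := Real.sqrt_pos.2 hW0
  have h2 : Real.sqrt W ≤ 1 := Real.sqrt_le_one.2 hW1
  have h3 : Real.sqrt W ^ 2 = W := Real.sq_sqrt hW0.le
  refine ⟨by unfold dl; positivity, ?_, ?_⟩
  · unfold dl
    nlinarith
  · unfold dl
    rw [div_pow, mul_pow, h3]
    norm_num

/-- total at level `k ≤ K`, where `ε A ≤ 4^(-k)`, i.e. `2^k √(εA) ≤ 1`:
`8·2^k/δ² · (161/W) · 5/(2·2^k √(εA)) = 3220/(δ² W √(εA)) = 3220·1600/(ε² W² √(εA))`. -/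
theorem lev_count (hS : Sys ε S E) (hε : 0 < ε) (hε1 : ε ≤ 1 / 10000) {W A : ℝ} (hW : ε ≤ W)
    (hW1 : W ≤ 1) (hA : 3 ≤ A) (hWA : W * A ≤ 1) {T : Finset ℂ} (hT : T ⊆ S)
    (hd : ∀ z ∈ T, ∀ w ∈ T, ‖z - w‖ ≤ 1 / 5) (k : ℕ) (hk : ε * A ≤ (1 / 4 : ℝ) ^ k) :
    ((Lev ε S E W A T k).card : ℝ) ≤ 6000000 / (ε ^ 2 * W ^ 2 * Real.sqrt (ε * A)) := by
  classical
  have hW0 : 0 < W := hε.trans_le hW
  have hA0 : 0 < A := by linarith
  have hq : 0 < Real.sqrt (ε * A) := Real.sqrt_pos.2 (by positivity)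
  obtain ⟨hd1, hd2, hd3⟩ := partner_dl hε hε1 hW hW1
  have h2k : (0 : ℝ) < 2 ^ k := by positivity
  have hX : 2 ^ k * Real.sqrt (ε * A) ≤ 1 := by
    have h4 : (1 / 4 : ℝ) ^ k = (1 / 2 ^ k) ^ 2 := by
      rw [← one_div_pow, ← pow_mul, mul_comm k 2, pow_mul]
      norm_num
    rw [h4] at hk
    have h5 : Real.sqrt (ε * A) ≤ 1 / 2 ^ k := by
      rw [← Real.sqrt_sq (show (0 : ℝ) ≤ 1 / 2 ^ k by positivity)]
      exact Real.sqrt_le_sqrt hk
    rw [le_div_iff₀ h2k] at h5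
    linarith
  set q : ℝ := Real.sqrt (ε * A) with hqdef
  have hfib : ∀ b : ℤ × ℤ, (((Lev ε S E W A T k).filter
      (fun e => (win (dl ε W) e, sub (dl ε W) k e) = b)).card : ℝ) ≤
      (160 / W + 1) * (3 / (2 * 2 ^ k * q) + 1) := by
    rintro ⟨j, m⟩
    have e1 : (Lev ε S E W A T k).filter (fun e => (win (dl ε W) e, sub (dl ε W) k e) = (j, m)) =
        (Lev ε S E W A T k).filter (fun e => win (dl ε W) e = j ∧ sub (dl ε W) k e = m) := by
      apply Finset.filter_congr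
      intro e _
      rw [Prod.mk.injEq]
    rw [e1]
    convert lev_tube hS hε hε1 hW hW1 hA hWA hT hd k j m
  have h1 := partner_fib (Lev ε S E W A T k) (fun e => (win (dl ε W) e, sub (dl ε W) k e)) _
    (by positivity) hfib
  have h2 := tube_count hd1 hd2 hd (Lev ε S E W A T k) (fun e he => by
    rw [Lev, Finset.mem_filter, Good, Finset.mem_filter] at he
    exact he.1.2.1) k
  have h2' : (((Lev ε S E W A T k).image
      (fun e => (win (dl ε W) e, sub (dl ε W) k e))).card : ℝ) ≤ 8 * 2 ^ k / dl ε W ^ 2 := by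
    convert h2
  have hB1 : 160 / W + 1 ≤ 161 / W := by
    rw [div_add_one hW0.ne', div_le_div_iff_of_pos_right hW0]
    linarith
  have hB2 : 3 / (2 * 2 ^ k * q) + 1 ≤ 5 / (2 * 2 ^ k * q) := by
    have hp : 0 < 2 * 2 ^ k * q := by positivity
    rw [div_add_one hp.ne', div_le_div_iff_of_pos_right hp]
    linarith
  calc ((Lev ε S E W A T k).card : ℝ)
      ≤ (160 / W + 1) * (3 / (2 * 2 ^ k * q) + 1) * ((Lev ε S E W A T k).image
        (fun e => (win (dl ε W) e, sub (dl ε W) k e))).card := h1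
    _ ≤ (161 / W) * (5 / (2 * 2 ^ k * q)) * (8 * 2 ^ k / dl ε W ^ 2) := by
        gcongr
    _ = 5152000 / (ε ^ 2 * W ^ 2 * q) := by
        rw [hd3]
        field_simp
        norm_num
    _ ≤ 6000000 / (ε ^ 2 * W ^ 2 * q) := by
        gcongr
        norm_num

/-- the rest: `10 · 8·2^K/δ² ≤ 80/(δ² √(εA)) = 128000/(ε² W √(εA))`. -/
theorem rest_count (hS : Sys ε S E) (hε : 0 < ε) (hε1 : ε ≤ 1 / 10000) {W A : ℝ} (hW : ε ≤ W)
    (hW1 : W ≤ 1) (hA : 3 ≤ A) (hWA : W * A ≤ 1) {T : Finset ℂ} (hT : T ⊆ S)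
    (hd : ∀ z ∈ T, ∀ w ∈ T, ‖z - w‖ ≤ 1 / 5) (K : ℕ) (hK : (1 / 4 : ℝ) ^ (K + 1) < ε * A)
    (hK' : ε * A ≤ (1 / 4 : ℝ) ^ K) :
    ((Rest ε S E W A T K).card : ℝ) ≤ 1000000 / (ε ^ 2 * W ^ 2 * Real.sqrt (ε * A)) := by
  classical
  have hW0 : 0 < W := hε.trans_le hW
  have hA0 : 0 < A := by linarith
  have hq : 0 < Real.sqrt (ε * A) := Real.sqrt_pos.2 (by positivity)
  obtain ⟨hd1, hd2, hd3⟩ := partner_dl hε hε1 hW hW1
  have h2k : (0 : ℝ) < 2 ^ K := by positivity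
  have hX : 2 ^ K * Real.sqrt (ε * A) ≤ 1 := by
    have h4 : (1 / 4 : ℝ) ^ K = (1 / 2 ^ K) ^ 2 := by
      rw [← one_div_pow, ← pow_mul, mul_comm K 2, pow_mul]
      norm_num
    rw [h4] at hK'
    have h5 : Real.sqrt (ε * A) ≤ 1 / 2 ^ K := by
      rw [← Real.sqrt_sq (show (0 : ℝ) ≤ 1 / 2 ^ K by positivity)]
      exact Real.sqrt_le_sqrt hK'
    rw [le_div_iff₀ h2k] at h5
    linarith
  set q : ℝ := Real.sqrt (ε * A) with hqdef
  have hfib : ∀ b : ℤ × ℤ, (((Rest ε S E W A T K).filter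
      (fun e => (win (dl ε W) e, sub (dl ε W) K e) = b)).card : ℝ) ≤ 10 := by
    rintro ⟨j, m⟩
    have e1 : (Rest ε S E W A T K).filter (fun e => (win (dl ε W) e, sub (dl ε W) K e) = (j, m)) =
        (Rest ε S E W A T K).filter (fun e => win (dl ε W) e = j ∧ sub (dl ε W) K e = m) := by
      apply Finset.filter_congr
      intro e _
      rw [Prod.mk.injEq]
    rw [e1]
    convert rest_tube hS hε hε1 hW hW1 hA hWA hT hd K hK j m
  have h1 := partner_fib (Rest ε S E W A T K) (fun e => (win (dl ε W) e, sub (dl ε W) K e)) _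
    (by norm_num) hfib
  have h2 := tube_count hd1 hd2 hd (Rest ε S E W A T K) (fun e he => by
    rw [Rest, Finset.mem_filter, Good, Finset.mem_filter] at he
    exact he.1.2.1) K
  have h2' : (((Rest ε S E W A T K).image
      (fun e => (win (dl ε W) e, sub (dl ε W) K e))).card : ℝ) ≤ 8 * 2 ^ K / dl ε W ^ 2 := by
    convert h2
  have hK2 : (2 : ℝ) ^ K ≤ 1 / q := by
    rw [le_div_iff₀ hq]
    exact hX
  calc ((Rest ε S E W A T K).card : ℝ)
      ≤ 10 * ((Rest ε S E W A T K).image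
        (fun e => (win (dl ε W) e, sub (dl ε W) K e))).card := h1
    _ ≤ 10 * (8 * (1 / q) / dl ε W ^ 2) := by
        refine mul_le_mul_of_nonneg_left (h2'.trans ?_) (by norm_num)
        gcongr
    _ = 128000 / (ε ^ 2 * W * q) := by
        rw [hd3]
        field_simp
        norm_num
    _ ≤ 1000000 / (ε ^ 2 * W ^ 2 * q) := by
        rw [div_le_div_iff₀ (by positivity) (by positivity)]
        have h3 : ε ^ 2 * W ^ 2 * q ≤ ε ^ 2 * W * q := by
          have h4 : W ^ 2 ≤ W := by nlinarith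
          gcongr
        have h5 : 0 < ε ^ 2 * W * q := by positivity
        linarith

/-- **(P)**: `K` = the largest `k` with `εA ≤ 4^(-k)` (it exists since `εA ≤ 1`), `K + 1 ≤ 1 + log (1/ε)`;
`Good = ⋃_{k ≤ K} Lev k ∪ Rest K`. -/
theorem count_P (hS : Sys ε S E) (hε : 0 < ε) (hε1 : ε ≤ 1 / 10000) {W A : ℝ} (hW : ε ≤ W)
    (hW1 : W ≤ 1) (hA : 3 ≤ A) (hWA : W * A ≤ 1) {T : Finset ℂ} (hT : T ⊆ S)
    (hd : ∀ z ∈ T, ∀ w ∈ T, ‖z - w‖ ≤ 1 / 5) :
    ((Good ε S E W A T).card : ℝ) ≤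
      8000000 * (1 + Real.log (1 / ε)) / (ε ^ 2 * W ^ 2 * Real.sqrt (ε * A)) := by
  classical
  have hW0 : 0 < W := hε.trans_le hW
  have hA0 : 0 < A := by linarith
  have hεA : 0 < ε * A := by positivity
  have hεA1 : ε * A ≤ 1 := by nlinarith
  have hq : 0 < Real.sqrt (ε * A) := Real.sqrt_pos.2 hεA
  have hex : ∃ n : ℕ, (1 / 4 : ℝ) ^ n < ε * A := exists_pow_lt_of_lt_one hεA (by norm_num)
  obtain ⟨K, hK, hK'⟩ : ∃ K : ℕ, (1 / 4 : ℝ) ^ (K + 1) < ε * A ∧ ε * A ≤ (1 / 4 : ℝ) ^ K := by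
    have h0 : Nat.find hex ≠ 0 := by
      intro h
      have h1 := Nat.find_spec hex
      rw [h, pow_zero] at h1
      linarith
    obtain ⟨K, hK⟩ := Nat.exists_eq_succ_of_ne_zero h0
    refine ⟨K, ?_, ?_⟩
    · have h1 := Nat.find_spec hex
      rw [hK] at h1
      exact h1
    · exact not_lt.1 (Nat.find_min hex (by omega))
  have hsub : Good ε S E W A T ⊆
      ((Finset.range (K + 1)).biUnion fun k => Lev ε S E W A T k) ∪ Rest ε S E W A T K := by
    intro e he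
    rw [Finset.mem_union, Finset.mem_biUnion]
    by_cases h : ∃ i, Partn E T (dl ε W) i e ∧ i ≤ K
    · left
      refine ⟨Nat.find h, ?_, ?_⟩
      · rw [Finset.mem_range]
        exact Nat.lt_succ_of_le (Nat.find_spec h).2
      · rw [Lev, Finset.mem_filter]
        refine ⟨he, (Nat.find_spec h).1, ?_⟩
        intro i hi hP
        exact Nat.find_min h hi ⟨hP, (hi.le).trans (Nat.find_spec h).2⟩
    · right
      rw [Rest, Finset.mem_filter]
      exact ⟨he, fun i hi hP => h ⟨i, hP, hi⟩⟩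
  have hc1 : (Good ε S E W A T).card ≤
      (∑ k ∈ Finset.range (K + 1), (Lev ε S E W A T k).card) + (Rest ε S E W A T K).card :=
    (Finset.card_le_card hsub).trans ((Finset.card_union_le _ _).trans
      (Nat.add_le_add_right Finset.card_biUnion_le _))
  have hc2 : ((Good ε S E W A T).card : ℝ) ≤
      (∑ k ∈ Finset.range (K + 1), ((Lev ε S E W A T k).card : ℝ)) +
        ((Rest ε S E W A T K).card : ℝ) := by exact_mod_cast hc1
  have hc3 : (∑ k ∈ Finset.range (K + 1), ((Lev ε S E W A T k).card : ℝ)) ≤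
      (K + 1) * (6000000 / (ε ^ 2 * W ^ 2 * Real.sqrt (ε * A))) := by
    have h : ∀ k ∈ Finset.range (K + 1), ((Lev ε S E W A T k).card : ℝ) ≤
        6000000 / (ε ^ 2 * W ^ 2 * Real.sqrt (ε * A)) := by
      intro k hk
      apply lev_count hS hε hε1 hW hW1 hA hWA hT hd k
      refine hK'.trans ?_
      exact pow_le_pow_of_le_one (by norm_num) (by norm_num)
        (Nat.lt_succ_iff.1 (Finset.mem_range.1 hk))
    refine (Finset.sum_le_sum h).trans ?_
    rw [Finset.sum_const, Finset.card_range, nsmul_eq_mul]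
    push_cast
    exact le_rfl
  have hc4 := rest_count hS hε hε1 hW hW1 hA hWA hT hd K hK hK'
  have hlog : (K : ℝ) ≤ Real.log (1 / ε) := by
    have h1 : (4 : ℝ) ^ K * ε ≤ 1 := by
      have h2 : ε ≤ (1 / 4 : ℝ) ^ K := by nlinarith
      have h3 : (4 : ℝ) ^ K * (1 / 4 : ℝ) ^ K = 1 := by
        rw [← mul_pow]
        norm_num
      have h4 : (0 : ℝ) < 4 ^ K := by positivity
      calc (4 : ℝ) ^ K * ε ≤ (4 : ℝ) ^ K * (1 / 4 : ℝ) ^ K := by gcongr
        _ = 1 := h3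
    have h2 : (4 : ℝ) ^ K ≤ 1 / ε := by
      rw [le_div_iff₀ hε]
      exact h1
    have h3 : Real.log ((4 : ℝ) ^ K) ≤ Real.log (1 / ε) := Real.log_le_log (by positivity) h2
    rw [Real.log_pow] at h3
    have h4 : 1 ≤ Real.log 4 := by
      rw [Real.le_log_iff_exp_le (by norm_num)]
      have := Real.exp_one_lt_d9
      linarith
    have h5 : (K : ℝ) * 1 ≤ K * Real.log 4 := mul_le_mul_of_nonneg_left h4 (Nat.cast_nonneg K)
    linarith
  have hM : 0 < ε ^ 2 * W ^ 2 * Real.sqrt (ε * A) := by positivity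
  have hlog0 : (0 : ℝ) ≤ K := Nat.cast_nonneg K
  calc ((Good ε S E W A T).card : ℝ)
      ≤ (K + 1) * (6000000 / (ε ^ 2 * W ^ 2 * Real.sqrt (ε * A))) +
        1000000 / (ε ^ 2 * W ^ 2 * Real.sqrt (ε * A)) := by linarith
    _ = (6000000 * (K + 1) + 1000000) / (ε ^ 2 * W ^ 2 * Real.sqrt (ε * A)) := by ring
    _ ≤ 8000000 * (1 + Real.log (1 / ε)) / (ε ^ 2 * W ^ 2 * Real.sqrt (ε * A)) := by
        rw [div_le_div_iff_of_pos_right hM]
        linarith

end Pool.Agent.MP_259de8
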