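import Pool.Agent.Lib.MP_259de8_co.G.Class

/-!
# Edges starting in one cell
-/

set_option autoImplicit false

namespace Pool.Agent.MP_259de8

variable {ε : ℝ} {S : Finset ℂ} {E : Finset (ℂ × ℂ)}

/-- index of the square cell of side `l` of a point -/
noncomputable def cell (l : ℝ) (z : ℂ) : ℤ × ℤ := (⌊z.re / l⌋, ⌊z.im / l⌋)

/-- equal floors: the numbers are close -/
private theorem violA_floor {x y w : ℝ} (hw : 0 < w) (h : ⌊x / w⌋ = ⌊y / w⌋) : |x - y| ≤ w := by
  have h1 := Int.floor_le (x / w)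
  have h2 := Int.lt_floor_add_one (x / w)
  have h3 := Int.floor_le (y / w)
  have h4 := Int.lt_floor_add_one (y / w)
  rw [h] at h1 h2
  have h5 : x / w < y / w + 1 := by linarith
  have h6 : y / w < x / w + 1 := by linarith
  rw [div_lt_iff₀ hw, add_mul, div_mul_cancel₀ _ hw.ne'] at h5 h6
  rw [abs_le]
  constructor <;> linarith

/-- two numbers in the same cell -/
private theorem violA_same {x y w : ℝ} {k : ℤ} (hw : 0 < w) (hx : ⌊x / w⌋ = k) (hy : ⌊y / w⌋ = k) :
    |x - y| ≤ w :=
  violA_floor hw (hx.trans hy.symm)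

open Classical in
/-- at most `5000 A²/ε` edges of unit scale start in one cell of side `A ε`.
Proof: divide the cell into cells of side `ε/12` (at most `(12A+2)²` of them, diameter `≤ ε/8`), and the
angles into windows of length `ε/4` (at most `26/ε + 2`); one edge for each choice (`pack_ang`). -/
theorem cell_count (hS : Sys ε S E) (hε : 0 < ε) (hε1 : ε ≤ 1 / 100) {A : ℝ} (hA : 1 ≤ A) (c : ℤ × ℤ) :
    (((E1 E).filter (fun e => cell (A * ε) e.1 = c)).card : ℝ) ≤ 10000 * A ^ 2 / ε := by
  set Q := (E1 E).filter (fun e => cell (A * ε) e.1 = c) with hQ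
  have hl : 0 < A * ε := by positivity
  have hw : 0 < ε / 12 := by positivity
  have hv : 0 < ε / 4 := by positivity
  set I := Q.image (fun e => ⌊e.1.re / (ε / 12)⌋) with hI
  set J := Q.image (fun e => ⌊e.1.im / (ε / 12)⌋) with hJ
  set K := Q.image (fun e => ⌊ang e / (ε / 4)⌋) with hK
  have hmem : ∀ e ∈ Q, e ∈ E1 E ∧ ⌊e.1.re / (A * ε)⌋ = c.1 ∧ ⌊e.1.im / (A * ε)⌋ = c.2 := by
    intro e he
    rw [hQ, Finset.mem_filter] at he
    refine ⟨he.1, ?_, ?_⟩
    · rw [← he.2]
      rfl
    · rw [← he.2]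
      rfl
  have hIc : (I.card : ℝ) ≤ 14 * A := by
    have h1 := floor_count Q (fun e => e.1.re) (L := A * ε) (w := ε / 12) hw hl.le
      (fun e he f hf => violA_same hl (hmem e he).2.1 (hmem f hf).2.1)
    have h2 : A * ε / (ε / 12) = 12 * A := by
      field_simp
    rw [h2] at h1
    rw [hI]
    linarith
  have hJc : (J.card : ℝ) ≤ 14 * A := by
    have h1 := floor_count Q (fun e => e.1.im) (L := A * ε) (w := ε / 12) hw hl.le
      (fun e he f hf => violA_same hl (hmem e he).2.2 (hmem f hf).2.2)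
    have h2 : A * ε / (ε / 12) = 12 * A := by
      field_simp
    rw [h2] at h1
    rw [hJ]
    linarith
  have hKc : (K.card : ℝ) ≤ 26 / ε := by
    have h1 := floor_count Q ang (L := 2 * Real.pi) (w := ε / 4) (by positivity) (by positivity) (by
        intro e _ f _
        have a1 := ang_mem e
        have a2 := ang_mem f
        rw [abs_le]
        constructor <;> linarith)
    have h2 : 2 * Real.pi / (ε / 4) = 8 * Real.pi / ε := by
      field_simp
      ring
    rw [h2] at h1
    have h3 : (2 : ℝ) ≤ (2 / 100) / ε := by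
      rw [le_div_iff₀ hε]
      linarith
    have h4 : 8 * Real.pi / ε + (2 / 100) / ε ≤ 26 / ε := by
      rw [← add_div]
      have := Real.pi_lt_d2
      exact div_le_div_of_nonneg_right (by linarith) hε.le
    rw [hK]
    linarith
  have hcard : Q.card ≤ ((I ×ˢ J) ×ˢ K).card := by
    refine Finset.card_le_card_of_injOn
      (fun e => ((⌊e.1.re / (ε / 12)⌋, ⌊e.1.im / (ε / 12)⌋), ⌊ang e / (ε / 4)⌋)) ?_ ?_
    · intro e he
      have he' : e ∈ Q := he
      rw [Finset.mem_coe, Finset.mem_product, Finset.mem_product]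
      exact ⟨⟨Finset.mem_image.mpr ⟨e, he', rfl⟩, Finset.mem_image.mpr ⟨e, he', rfl⟩⟩,
        Finset.mem_image.mpr ⟨e, he', rfl⟩⟩
    · intro e he f hf hef
      have he' : e ∈ Q := he
      have hf' : f ∈ Q := hf
      simp only [Prod.mk.injEq] at hef
      obtain ⟨⟨h1, h2⟩, h3⟩ := hef
      have g1 := violA_floor hw h1
      have g2 := violA_floor hw h2
      have g3 := violA_floor hv h3
      refine pack_ang hS (hmem e he').1 (hmem f hf').1 ?_ g3
      have h4 : ‖f.1 - e.1‖ ^ 2 ≤ (ε / 8) ^ 2 := by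
        rw [← Complex.normSq_eq_norm_sq, Complex.normSq_apply, Complex.sub_re, Complex.sub_im]
        have k1 : (f.1.re - e.1.re) * (f.1.re - e.1.re) ≤ (ε / 12) ^ 2 := by
          rw [← sq, ← sq_abs, abs_sub_comm]
          exact pow_le_pow_left₀ (abs_nonneg _) g1 2
        have k2 : (f.1.im - e.1.im) * (f.1.im - e.1.im) ≤ (ε / 12) ^ 2 := by
          rw [← sq, ← sq_abs, abs_sub_comm]
          exact pow_le_pow_left₀ (abs_nonneg _) g2 2
        nlinarith [sq_nonneg ε]
      exact le_of_sq_le_sq h4 (by positivity)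
  have hcard' := (Nat.cast_le (α := ℝ)).mpr hcard
  rw [Finset.card_product, Finset.card_product, Nat.cast_mul, Nat.cast_mul] at hcard'
  refine hcard'.trans ?_
  have hI0 : (0 : ℝ) ≤ I.card := Nat.cast_nonneg _
  have hJ0 : (0 : ℝ) ≤ J.card := Nat.cast_nonneg _
  have hK0 : (0 : ℝ) ≤ K.card := Nat.cast_nonneg _
  calc (I.card : ℝ) * J.card * K.card ≤ (14 * A) * (14 * A) * (26 / ε) := by
        gcongr
    _ = 5096 * A ^ 2 / ε := by ring
    _ ≤ 10000 * A ^ 2 / ε := by
        apply div_le_div_of_nonneg_right _ hε.le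
        nlinarith [sq_nonneg A]

end Pool.Agent.MP_259de8
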