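import Pool.Agent.Lib.MP_259de8_co.G.Partner
import Pool.Agent.Lib.MP_259de8_co.G.ViolA

/-!
# Covering by cells of side `1/8`, a logarithm
-/

set_option autoImplicit false

namespace Pool.Agent.MP_259de8

variable {ε : ℝ} {S : Finset ℂ} {E : Finset (ℂ × ℂ)}

private theorem scaleA_floor {x y : ℝ} (h : ⌊x / (1 / 8)⌋ = ⌊y / (1 / 8)⌋) : |x - y| ≤ 1 / 8 := by
  have h1 := Int.abs_sub_lt_one_of_floor_eq_floor h
  have h2 : x / (1 / 8) - y / (1 / 8) = (x - y) * 8 := by ring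
  rw [h2, abs_mul] at h1
  have h3 : |(8 : ℝ)| = 8 := abs_of_pos (by norm_num)
  rw [h3] at h1
  linarith

/-- the cells of side `1/8` have diameter at most `1/5` -/
theorem cell_diam {z w : ℂ} (h : cell (1 / 8) z = cell (1 / 8) w) : ‖z - w‖ ≤ 1 / 5 := by
  unfold cell at h
  obtain ⟨h1, h2⟩ := Prod.mk.inj h
  have hr := scaleA_floor h1
  have hi := scaleA_floor h2
  have hn : ‖z - w‖ ^ 2 = (z.re - w.re) ^ 2 + (z.im - w.im) ^ 2 := by
    rw [← Complex.normSq_eq_norm_sq, Complex.normSq_apply, Complex.sub_re, Complex.sub_im]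
    ring
  have hr2 : (z.re - w.re) ^ 2 ≤ (1 / 8) ^ 2 := by
    rw [← sq_abs]
    exact pow_le_pow_left₀ (abs_nonneg _) hr 2
  have hi2 : (z.im - w.im) ^ 2 ≤ (1 / 8) ^ 2 := by
    rw [← sq_abs]
    exact pow_le_pow_left₀ (abs_nonneg _) hi 2
  have : ‖z - w‖ ^ 2 ≤ (1 / 5) ^ 2 := by
    rw [hn]
    have : ((1 : ℝ) / 8) ^ 2 + (1 / 8) ^ 2 ≤ (1 / 5) ^ 2 := by norm_num
    linarith
  exact le_of_sq_le_sq this (by norm_num)

private theorem scaleA_count {S : Finset ℂ} {B : ℝ} (hB : 1 ≤ B)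
    (hSB : ∀ z ∈ S, 0 ≤ z.re ∧ z.re ≤ B ∧ 0 ≤ z.im ∧ z.im ≤ B) :
    ((S.image (cell (1 / 8))).card : ℝ) ≤ 100 * B ^ 2 := by
  classical
  set N : ℕ := ⌊8 * B⌋₊ with hN
  have hNB : (N : ℝ) ≤ 8 * B := Nat.floor_le (by linarith)
  have hmem : ∀ x : ℝ, 0 ≤ x → x ≤ B → ⌊x / (1 / 8)⌋ ∈ Finset.Icc (0 : ℤ) N := by
    intro x hx0 hxB
    rw [Finset.mem_Icc]
    constructor
    · exact Int.floor_nonneg.mpr (by positivity)
    · have h1 : x / (1 / 8) ≤ 8 * B := by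
        have : x / (1 / 8) = 8 * x := by ring
        rw [this]
        linarith
      have h2 : ⌊x / (1 / 8)⌋ ≤ ⌊8 * B⌋ := Int.floor_le_floor h1
      have h3 : ((⌊8 * B⌋₊ : ℕ) : ℤ) = ⌊8 * B⌋ := Int.natCast_floor_eq_floor (by linarith)
      rw [hN, h3]
      exact h2
  have hsub : S.image (cell (1 / 8)) ⊆ Finset.Icc (0 : ℤ) N ×ˢ Finset.Icc (0 : ℤ) N := by
    intro c hc
    obtain ⟨z, hz, rfl⟩ := Finset.mem_image.mp hc
    obtain ⟨h1, h2, h3, h4⟩ := hSB z hz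
    rw [Finset.mem_product]
    exact ⟨hmem _ h1 h2, hmem _ h3 h4⟩
  have hc := Finset.card_le_card hsub
  rw [Finset.card_product, Int.card_Icc] at hc
  have hcN : ((N : ℤ) + 1 - 0).toNat = N + 1 := by omega
  rw [hcN] at hc
  have hcR : ((S.image (cell (1 / 8))).card : ℝ) ≤ ((N : ℝ) + 1) * ((N : ℝ) + 1) := by
    exact_mod_cast hc
  have h9 : (N : ℝ) + 1 ≤ 9 * B := by linarith
  have h0 : (0 : ℝ) ≤ (N : ℝ) + 1 := by positivity
  nlinarith [mul_self_le_mul_self h0 h9, sq_nonneg B]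

open Classical in
/-- covering of `S ⊆ [0,B]²` by cells of side `1/8` -/
theorem good_total (hS : Sys ε S E) (hε : 0 < ε) (hε1 : ε ≤ 1 / 10000) {W A B : ℝ} (hW : ε ≤ W)
    (hW1 : W ≤ 1) (hA : 3 ≤ A) (hWA : W * A ≤ 1) (hB : 1 ≤ B)
    (hSB : ∀ z ∈ S, 0 ≤ z.re ∧ z.re ≤ B ∧ 0 ≤ z.im ∧ z.im ≤ B) :
    (((E1 E).filter (fun e => ¬ OneSided ε E W e ∧ ¬ Viol ε S A e)).card : ℝ) ≤
      100 * B ^ 2 * (8000000 * (1 + Real.log (1 / ε)) / (ε ^ 2 * W ^ 2 * Real.sqrt (ε * A))) := by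
  set F := (E1 E).filter (fun e => ¬ OneSided ε E W e ∧ ¬ Viol ε S A e) with hF
  set X : ℝ := 8000000 * (1 + Real.log (1 / ε)) / (ε ^ 2 * W ^ 2 * Real.sqrt (ε * A)) with hX
  have hlog : 0 ≤ Real.log (1 / ε) := Real.log_nonneg (by
    rw [le_div_iff₀ hε]
    linarith)
  have hX0 : 0 ≤ X := by
    rw [hX]
    have hW0 : 0 < W := lt_of_lt_of_le hε hW
    positivity
  have hmemS : ∀ e ∈ F, e.1 ∈ S := by
    intro e he
    have h1 : e ∈ E1 E := (Finset.mem_filter.mp he).1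
    have h2 : e ∈ E := by
      unfold E1 at h1
      exact (Finset.mem_filter.mp h1).1
    exact (hS.mem e.1 e.2 h2).1
  have hfib : ∀ c : ℤ × ℤ, ((F.filter (fun e => cell (1 / 8) e.1 = c)).card : ℝ) ≤ X := by
    intro c
    have hT : S.filter (fun z => cell (1 / 8) z = c) ⊆ S := Finset.filter_subset _ _
    have hd : ∀ z ∈ S.filter (fun z => cell (1 / 8) z = c),
        ∀ w ∈ S.filter (fun z => cell (1 / 8) z = c), ‖z - w‖ ≤ 1 / 5 := by
      intro z hz w hw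
      apply cell_diam
      rw [(Finset.mem_filter.mp hz).2, (Finset.mem_filter.mp hw).2]
    have hcount := count_P hS hε hε1 hW hW1 hA hWA hT hd
    have hsub : F.filter (fun e => cell (1 / 8) e.1 = c) ⊆
        Good ε S E W A (S.filter (fun z => cell (1 / 8) z = c)) := by
      intro e he
      obtain ⟨he1, he2⟩ := Finset.mem_filter.mp he
      unfold Good
      rw [Finset.mem_filter]
      refine ⟨(Finset.mem_filter.mp he1).1, ?_, (Finset.mem_filter.mp he1).2.1,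
        (Finset.mem_filter.mp he1).2.2⟩
      rw [Finset.mem_filter]
      exact ⟨hmemS e he1, he2⟩
    have hle : ((F.filter (fun e => cell (1 / 8) e.1 = c)).card : ℝ) ≤
        ((Good ε S E W A (S.filter (fun z => cell (1 / 8) z = c))).card : ℝ) := by
      exact_mod_cast Finset.card_le_card hsub
    exact hle.trans hcount
  have hmaps : ∀ e ∈ F, cell (1 / 8) e.1 ∈ S.image (cell (1 / 8)) := by
    intro e he
    exact Finset.mem_image_of_mem _ (hmemS e he)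
  have hsum : (F.card : ℝ) =
      ∑ c ∈ S.image (cell (1 / 8)), ((F.filter (fun e => cell (1 / 8) e.1 = c)).card : ℝ) := by
    have h := Finset.card_eq_sum_card_fiberwise (f := fun e : ℂ × ℂ => cell (1 / 8) e.1) (s := F)
      (t := S.image (cell (1 / 8))) hmaps
    rw [h]
    push_cast
    rfl
  rw [hsum]
  calc ∑ c ∈ S.image (cell (1 / 8)), ((F.filter (fun e => cell (1 / 8) e.1 = c)).card : ℝ)
      ≤ ∑ _c ∈ S.image (cell (1 / 8)), X := Finset.sum_le_sum (fun c _ => hfib c)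
    _ = ((S.image (cell (1 / 8))).card : ℝ) * X := by rw [Finset.sum_const, nsmul_eq_mul]
    _ ≤ 100 * B ^ 2 * X := mul_le_mul_of_nonneg_right (scaleA_count hB hSB) hX0

/-- `s (1 + 64 log (1/s)) ≤ 64` -/
theorem log_absorb {s : ℝ} (hs : 0 < s) (hs1 : s ≤ 1) (hε : s ^ 64 = ε) :
    s * (1 + Real.log (1 / ε)) ≤ 64 := by
  have h1 : Real.log (1 / ε) = 64 * Real.log (1 / s) := by
    rw [← hε, one_div, one_div, Real.log_inv, Real.log_inv, Real.log_pow]
    push_cast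
    ring
  have h2 : Real.log (1 / s) ≤ 1 / s - 1 := Real.log_le_sub_one_of_pos (by positivity)
  have h3 : s * (1 / s) = 1 := by
    field_simp
  rw [h1]
  have h4 : s * Real.log (1 / s) ≤ s * (1 / s - 1) := mul_le_mul_of_nonneg_left h2 hs.le
  have h5 : s * (1 / s - 1) = 1 - s := by
    rw [mul_sub, h3, mul_one]
  nlinarith

end Pool.Agent.MP_259de8
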