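import Pool.Agent.Lib.MP_259de8_co.G.ViolC

/-!
# Counting the violating edges
-/

set_option autoImplicit false

namespace Pool.Agent.MP_259de8

variable {ε : ℝ} {S : Finset ℂ} {E : Finset (ℂ × ℂ)}

/-- the `3 × 3` block of cells around a cell meets any set of cells in at most nine cells -/
theorem countV_block (C : Finset (ℤ × ℤ)) (a : ℤ × ℤ) :
    (C.filter (fun c => |a.1 - c.1| ≤ 1 ∧ |a.2 - c.2| ≤ 1)).card ≤ 9 := by
  classical
  have hsub : C.filter (fun c => |a.1 - c.1| ≤ 1 ∧ |a.2 - c.2| ≤ 1) ⊆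
      (Finset.Icc (a.1 - 1) (a.1 + 1)) ×ˢ (Finset.Icc (a.2 - 1) (a.2 + 1)) := by
    intro c hc
    rw [Finset.mem_filter] at hc
    obtain ⟨-, h1, h2⟩ := hc
    rw [abs_le] at h1 h2
    rw [Finset.mem_product, Finset.mem_Icc, Finset.mem_Icc]
    refine ⟨⟨by linarith [h1.2], by linarith [h1.1]⟩, ⟨by linarith [h2.2], by linarith [h2.1]⟩⟩
  refine (Finset.card_le_card hsub).trans ?_
  rw [Finset.card_product, Int.card_Icc, Int.card_Icc]
  have e1 : (a.1 + 1 + 1 - (a.1 - 1)).toNat = 3 := by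
    have : a.1 + 1 + 1 - (a.1 - 1) = 3 := by ring
    rw [this]; rfl
  have e2 : (a.2 + 1 + 1 - (a.2 - 1)).toNat = 3 := by
    have : a.2 + 1 + 1 - (a.2 - 1) = 3 := by ring
    rw [this]; rfl
  rw [e1, e2]

/-- numerical part of `count_V` -/
theorem countV_num (hε : 0 < ε) {w : ℝ} (hw : 0 ≤ w) :
    Real.sqrt (2000000 * ((8 * w / Real.sqrt ε + 2) / ε)) ≤
      6000 * (Real.sqrt w / (Real.sqrt ε * Real.sqrt (Real.sqrt ε)) + 1 / Real.sqrt ε) := by
  have hs : 0 < Real.sqrt ε := Real.sqrt_pos.mpr hε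
  have hss : 0 < Real.sqrt (Real.sqrt ε) := Real.sqrt_pos.mpr hs
  have hs2 : Real.sqrt ε ^ 2 = ε := Real.sq_sqrt hε.le
  have hss2 : Real.sqrt (Real.sqrt ε) ^ 2 = Real.sqrt ε := Real.sq_sqrt hs.le
  have hw2 : Real.sqrt w ^ 2 = w := Real.sq_sqrt hw
  have hsw : 0 ≤ Real.sqrt w := Real.sqrt_nonneg w
  apply Real.sqrt_le_iff.mpr
  refine ⟨by positivity, ?_⟩
  set s := Real.sqrt ε with hsdef
  set t := Real.sqrt s with htdef
  set v := Real.sqrt w with hvdef
  have e1 : (v / (s * t)) ^ 2 = w / (s * ε) := by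
    rw [div_pow, mul_pow, hw2, hss2, hs2]
    rw [mul_comm]
  have e2 : (1 / s) ^ 2 = 1 / ε := by
    rw [div_pow, hs2, one_pow]
  have e3 : 0 ≤ (v / (s * t)) * (1 / s) := by positivity
  have e4 : (8 * w / s + 2) / ε = 8 * (w / (s * ε)) + 2 * (1 / ε) := by
    field_simp
  rw [e4]
  have e5 : 0 ≤ w / (s * ε) := by positivity
  have e6 : 0 ≤ 1 / ε := by positivity
  have : (6000 * (v / (s * t) + 1 / s)) ^ 2 =
      36000000 * ((v / (s * t)) ^ 2 + 2 * ((v / (s * t)) * (1 / s)) + (1 / s) ^ 2) := by ring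
  rw [this, e1, e2]
  nlinarith

open Classical in
/-- **(V)**: one-sided violating edges.  Proof: in each cell `c` the number is `≤ √(viol_cell bound ·
cell_count bound) ≤ √(2·10⁶ (8w/√ε+2)/ε) A (m_c + m_c*)/2`, and `Σ_c m_c = |S|`, `Σ_c m_c* = 9 |S|` (sum over
the cells of starting points);  `√((8w/√ε+2)/ε) ≤ 3 √w/ε^(3/4) + 2/√ε`. -/
theorem count_V (hS : Sys ε S E) (hε : 0 < ε) (hε1 : ε ≤ 1 / 100) {A w : ℝ} (hA : 1 ≤ A) (hw : 0 ≤ w) :
    (((E1 E).filter (fun e => OneSided ε E w e ∧ Viol ε S A e)).card : ℝ) ≤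
      30000 * A * S.card * (Real.sqrt w / (Real.sqrt ε * Real.sqrt (Real.sqrt ε)) + 1 / Real.sqrt ε) := by
  set F := (E1 E).filter (fun e => OneSided ε E w e ∧ Viol ε S A e) with hF
  set C := S.image (cell (A * ε)) with hC
  set K := Real.sqrt (2000000 * ((8 * w / Real.sqrt ε + 2) / ε)) with hK
  have hs : 0 < Real.sqrt ε := Real.sqrt_pos.mpr hε
  have hX : 0 ≤ 2000000 * ((8 * w / Real.sqrt ε + 2) / ε) := by positivity
  have hK0 : 0 ≤ K := Real.sqrt_nonneg _
  have hK2 : K ^ 2 = 2000000 * ((8 * w / Real.sqrt ε + 2) / ε) := Real.sq_sqrt hX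
  have hA0 : 0 ≤ A := by linarith
  -- start points
  have hstart : ∀ e ∈ F, cell (A * ε) e.1 ∈ C := by
    intro e he
    rw [hF, Finset.mem_filter] at he
    have h1 : e ∈ E := by
      have := he.1
      unfold E1 at this
      exact (Finset.mem_filter.mp this).1
    have h2 : e.1 ∈ S := (hS.mem e.1 e.2 h1).1
    exact Finset.mem_image_of_mem _ h2
  have hsum : (F.card : ℝ) = ∑ c ∈ C, ((F.filter (fun e => cell (A * ε) e.1 = c)).card : ℝ) := by
    rw [Finset.card_eq_sum_card_fiberwise (s := F) (f := fun e : ℂ × ℂ => cell (A * ε) e.1) (t := C)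
      (fun e he => hstart e he)]
    push_cast
    rfl
  -- each cell
  have hcell : ∀ c ∈ C, ((F.filter (fun e => cell (A * ε) e.1 = c)).card : ℝ) ≤
      K * A * (((S.filter (fun z => cell (A * ε) z = c)).card : ℝ) +
        ((S.filter (fun z => |(cell (A * ε) z).1 - c.1| ≤ 1 ∧ |(cell (A * ε) z).2 - c.2| ≤ 1)).card : ℝ))
        / 2 := by
    intro c _
    have b1 := viol_cell (E := E) hS hε hε1 hA hw c
    have b2 := cell_count (E := E) hS hε hε1 hA c
    have c1 : ((F.filter (fun e => cell (A * ε) e.1 = c)).card : ℝ) ≤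
        (((E1 E).filter (fun e => cell (A * ε) e.1 = c ∧ OneSided ε E w e ∧ Viol ε S A e)).card : ℝ) := by
      have : F.filter (fun e => cell (A * ε) e.1 = c) ⊆
          (E1 E).filter (fun e => cell (A * ε) e.1 = c ∧ OneSided ε E w e ∧ Viol ε S A e) := by
        intro e he
        rw [Finset.mem_filter, hF, Finset.mem_filter] at he
        rw [Finset.mem_filter]
        exact ⟨he.1.1, he.2, he.1.2⟩
      exact_mod_cast Finset.card_le_card this
    have c2 : ((F.filter (fun e => cell (A * ε) e.1 = c)).card : ℝ) ≤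
        (((E1 E).filter (fun e => cell (A * ε) e.1 = c)).card : ℝ) := by
      have : F.filter (fun e => cell (A * ε) e.1 = c) ⊆
          (E1 E).filter (fun e => cell (A * ε) e.1 = c) := by
        intro e he
        rw [Finset.mem_filter, hF, Finset.mem_filter] at he
        rw [Finset.mem_filter]
        exact ⟨he.1.1, he.2⟩
      exact_mod_cast Finset.card_le_card this
    set N : ℝ := ((F.filter (fun e => cell (A * ε) e.1 = c)).card : ℝ) with hN
    set m : ℝ := ((S.filter (fun z => cell (A * ε) z = c)).card : ℝ) with hm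
    set M : ℝ := ((S.filter (fun z => |(cell (A * ε) z).1 - c.1| ≤ 1 ∧
      |(cell (A * ε) z).2 - c.2| ≤ 1)).card : ℝ) with hM
    have hN0 : 0 ≤ N := Nat.cast_nonneg _
    have hm0 : 0 ≤ m := Nat.cast_nonneg _
    have hM0 : 0 ≤ M := Nat.cast_nonneg _
    have d1 : N ≤ 200 * (8 * w / Real.sqrt ε + 2) * m * M := c1.trans b1
    have d2 : N ≤ 10000 * A ^ 2 / ε := c2.trans b2
    have d3 : N ^ 2 ≤ (200 * (8 * w / Real.sqrt ε + 2) * m * M) * (10000 * A ^ 2 / ε) := by
      rw [sq]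
      exact mul_le_mul d1 d2 hN0 (hN0.trans d1)
    have d4 : (200 * (8 * w / Real.sqrt ε + 2) * m * M) * (10000 * A ^ 2 / ε) =
        K ^ 2 * A ^ 2 * (m * M) := by
      rw [hK2]
      ring
    have d5 : m * M ≤ ((m + M) / 2) ^ 2 := by nlinarith [sq_nonneg (m - M)]
    have d6 : N ^ 2 ≤ (K * A * (m + M) / 2) ^ 2 := by
      calc N ^ 2 ≤ K ^ 2 * A ^ 2 * (m * M) := by rw [← d4]; exact d3
        _ ≤ K ^ 2 * A ^ 2 * ((m + M) / 2) ^ 2 := by
            apply mul_le_mul_of_nonneg_left d5; positivity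
        _ = (K * A * (m + M) / 2) ^ 2 := by ring
    have d7 : 0 ≤ K * A * (m + M) / 2 := by positivity
    exact (pow_le_pow_iff_left₀ hN0 d7 (by norm_num)).mp d6
  -- sums of the numbers of points
  have hsum1 : ∑ c ∈ C, ((S.filter (fun z => cell (A * ε) z = c)).card : ℝ) = S.card := by
    have := Finset.card_eq_sum_card_fiberwise (s := S) (f := cell (A * ε)) (t := C)
      (fun z hz => Finset.mem_image_of_mem _ hz)
    rw [this]
    push_cast
    rfl
  have hsum2 : ∑ c ∈ C, ((S.filter (fun z => |(cell (A * ε) z).1 - c.1| ≤ 1 ∧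
      |(cell (A * ε) z).2 - c.2| ≤ 1)).card : ℝ) ≤ 9 * S.card := by
    have e1 : ∑ c ∈ C, (S.filter (fun z => |(cell (A * ε) z).1 - c.1| ≤ 1 ∧
        |(cell (A * ε) z).2 - c.2| ≤ 1)).card =
        ∑ z ∈ S, (C.filter (fun c => |(cell (A * ε) z).1 - c.1| ≤ 1 ∧
        |(cell (A * ε) z).2 - c.2| ≤ 1)).card := by
      simp only [Finset.card_filter]
      rw [Finset.sum_comm]
    have e2 : ∑ z ∈ S, (C.filter (fun c => |(cell (A * ε) z).1 - c.1| ≤ 1 ∧
        |(cell (A * ε) z).2 - c.2| ≤ 1)).card ≤ ∑ z ∈ S, 9 :=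
      Finset.sum_le_sum (fun z _ => countV_block C (cell (A * ε) z))
    have e3 : ∑ c ∈ C, (S.filter (fun z => |(cell (A * ε) z).1 - c.1| ≤ 1 ∧
        |(cell (A * ε) z).2 - c.2| ≤ 1)).card ≤ 9 * S.card := by
      rw [e1]
      refine e2.trans ?_
      rw [Finset.sum_const, smul_eq_mul, mul_comm]
    exact_mod_cast e3
  have hnum := countV_num (ε := ε) hε hw
  rw [← hK] at hnum
  set Y := Real.sqrt w / (Real.sqrt ε * Real.sqrt (Real.sqrt ε)) + 1 / Real.sqrt ε with hY
  calc (F.card : ℝ) = ∑ c ∈ C, ((F.filter (fun e => cell (A * ε) e.1 = c)).card : ℝ) := hsum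
    _ ≤ ∑ c ∈ C, K * A * (((S.filter (fun z => cell (A * ε) z = c)).card : ℝ) +
        ((S.filter (fun z => |(cell (A * ε) z).1 - c.1| ≤ 1 ∧ |(cell (A * ε) z).2 - c.2| ≤ 1)).card : ℝ))
        / 2 := Finset.sum_le_sum hcell
    _ = K * A * (∑ c ∈ C, ((S.filter (fun z => cell (A * ε) z = c)).card : ℝ) +
        ∑ c ∈ C, ((S.filter (fun z => |(cell (A * ε) z).1 - c.1| ≤ 1 ∧
          |(cell (A * ε) z).2 - c.2| ≤ 1)).card : ℝ)) / 2 := by
        rw [← Finset.sum_div, ← Finset.mul_sum, Finset.sum_add_distrib]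
    _ ≤ K * A * (S.card + 9 * S.card) / 2 := by
        rw [hsum1]
        have : 0 ≤ K * A := by positivity
        have h2 := mul_le_mul_of_nonneg_left (add_le_add_right hsum2 (S.card : ℝ)) this
        linarith
    _ = 5 * A * S.card * K := by ring
    _ ≤ 5 * A * S.card * (6000 * Y) := by
        apply mul_le_mul_of_nonneg_left hnum; positivity
    _ = 30000 * A * S.card * Y := by ring

end Pool.Agent.MP_259de8
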