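import Pool.Agent.Lib.MP_259de8_co.G.ScaleA
import Pool.Agent.Lib.MP_259de8_co.G.Viol

/-!
# The number of edges of unit scale
-/

set_option autoImplicit false

namespace Pool.Agent.MP_259de8

variable {ε : ℝ} {S : Finset ℂ} {E : Finset (ℂ × ℂ)}

/-- numerical bound for the good edges at one margin -/
private theorem scaleOne_good {ε s V R B L : ℝ} (hs : 0 < s) (hε : s ^ 64 = ε) (hV : 0 < V)
    (hL : s * L ≤ 64) (hR : s ^ 31 ≤ R) :
    100 * B ^ 2 * (8000000 * L / (ε ^ 2 * V ^ 2 * R)) ≤ 51200000000 * (B ^ 2 * (1 / (s ^ 160 * V ^ 2))) := by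
  have h31 : 0 < s ^ 31 := pow_pos hs 31
  have hR0 : 0 < R := h31.trans_le hR
  have hL1 : L ≤ 64 / s := by
    rw [le_div_iff₀ hs]
    linarith
  have h1 : 8000000 * L / (ε ^ 2 * V ^ 2 * R) ≤ 8000000 * (64 / s) / (s ^ 128 * V ^ 2 * s ^ 31) := by
    have hden : s ^ 128 * V ^ 2 * s ^ 31 ≤ ε ^ 2 * V ^ 2 * R := by
      have e1 : ε ^ 2 = s ^ 128 := by
        rw [← hε]
        ring
      rw [e1]
      exact mul_le_mul_of_nonneg_left hR (by positivity)
    refine div_le_div₀ (by positivity) (by linarith) (by positivity) hden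
  have h2 : 8000000 * (64 / s) / (s ^ 128 * V ^ 2 * s ^ 31) = 512000000 * (1 / (s ^ 160 * V ^ 2)) := by
    field_simp
    ring
  calc 100 * B ^ 2 * (8000000 * L / (ε ^ 2 * V ^ 2 * R))
      ≤ 100 * B ^ 2 * (512000000 * (1 / (s ^ 160 * V ^ 2))) := by
        refine mul_le_mul_of_nonneg_left ?_ (by positivity)
        rw [← h2]
        exact h1
    _ = 51200000000 * (B ^ 2 * (1 / (s ^ 160 * V ^ 2))) := by ring

open Classical in
/-- **Unit scale.**  `s = ε^(1/64)`; `w₀ = s⁴`, `A = s⁻²`.  An edge is one-sided at `W`, or one-sided at `w₀` and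
`A`-violating, or two-sided at `W` and not `A`-violating, or `3`-violating, or two-sided at `w₀` and not
`3`-violating: `count_O` (w = W), `count_V` (A, w₀), `good_total` (W, A), `count_V` (3, 1) with `oneSided_one`,
`good_total` (w₀, 3), and `log_absorb`. -/
theorem scale_one (hS : Sys ε S E) {s W B : ℝ} (hs : 0 < s) (hs1 : s ≤ 1 / 2) (hε : s ^ 64 = ε)
    (hW : s ^ 16 ≤ W) (hW1 : W ≤ s ^ 4) (hB : 1 ≤ B)
    (hSB : ∀ z ∈ S, 0 ≤ z.re ∧ z.re ≤ B ∧ 0 ≤ z.im ∧ z.im ≤ B) :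
    ((E1 E).card : ℝ) ≤ 10 ^ 11 * (S.card * (W / s ^ 64 + 1 / s ^ 48) +
      B ^ 2 * (1 / (s ^ 160 * W ^ 2) + 1 / s ^ 169)) := by
  have hs1' : s ≤ 1 := by linarith
  have hs0 : 0 ≤ s := hs.le
  have hε0 : 0 < ε := by rw [← hε]; positivity
  -- `ε ≤ 1/10000`
  have hεs : ε ≤ 1 / 10000 := by
    rw [← hε]
    calc s ^ 64 ≤ (1 / 2) ^ 64 := pow_le_pow_left₀ hs0 hs1 64
      _ ≤ 1 / 10000 := by norm_num
  have hsq : Real.sqrt ε = s ^ 32 := by
    rw [← hε, show s ^ 64 = (s ^ 32) ^ 2 by ring]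
    exact Real.sqrt_sq (by positivity)
  have hsq2 : Real.sqrt (s ^ 32) = s ^ 16 := by
    rw [show s ^ 32 = (s ^ 16) ^ 2 by ring]
    exact Real.sqrt_sq (by positivity)
  have hsq4 : Real.sqrt (s ^ 4) = s ^ 2 := by
    rw [show s ^ 4 = (s ^ 2) ^ 2 by ring]
    exact Real.sqrt_sq (by positivity)
  have hW0 : 0 < W := (pow_pos hs 16).trans_le hW
  have hs4 : s ^ 4 ≤ 1 / 16 := by
    calc s ^ 4 ≤ (1 / 2) ^ 4 := pow_le_pow_left₀ hs0 hs1 4
      _ = 1 / 16 := by norm_num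
  have hs2 : s ^ 2 ≤ 1 / 4 := by
    calc s ^ 2 ≤ (1 / 2) ^ 2 := pow_le_pow_left₀ hs0 hs1 2
      _ = 1 / 4 := by norm_num
  have hW11 : W ≤ 1 := by linarith
  have hεW : ε ≤ W := by
    rw [← hε]
    exact (pow_le_pow_of_le_one hs0 hs1' (by norm_num)).trans hW
  have hεw0 : ε ≤ s ^ 4 := by
    rw [← hε]
    exact pow_le_pow_of_le_one hs0 hs1' (by norm_num)
  set A : ℝ := 1 / s ^ 2 with hA
  have hA4 : 4 ≤ A := by
    rw [hA, le_div_iff₀ (by positivity)]
    linarith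
  have hA3 : 3 ≤ A := by linarith
  have hA1 : 1 ≤ A := by linarith
  have hWA : W * A ≤ 1 := by
    rw [hA, mul_one_div, div_le_one (by positivity)]
    exact hW1.trans (pow_le_pow_of_le_one hs0 hs1' (by norm_num))
  -- the logarithm
  have hlog := log_absorb hs hs1' hε
  -- five classes
  have hc1 := count_O hS hε0 (by linarith) (w := W) hW0.le
  have hc2 := count_V hS hε0 (by linarith) (A := A) (w := s ^ 4) hA1 (by positivity)
  have hc3 := good_total hS hε0 hεs (W := W) (A := A) (B := B) hεW hW11 hA3 hWA hB hSB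
  have hc4 := count_V hS hε0 (by linarith) (A := 3) (w := 1) (by norm_num) (by norm_num)
  have hc5 := good_total hS hε0 hεs (W := s ^ 4) (A := 3) (B := B) hεw0 (by linarith) le_rfl
    (by linarith) hB hSB
  have hcov : E1 E ⊆ (E1 E).filter (fun e => OneSided ε E W e) ∪
      ((E1 E).filter (fun e => OneSided ε E (s ^ 4) e ∧ Viol ε S A e) ∪
      ((E1 E).filter (fun e => ¬ OneSided ε E W e ∧ ¬ Viol ε S A e) ∪
      ((E1 E).filter (fun e => OneSided ε E 1 e ∧ Viol ε S 3 e) ∪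
      (E1 E).filter (fun e => ¬ OneSided ε E (s ^ 4) e ∧ ¬ Viol ε S 3 e)))) := by
    intro e he
    simp only [Finset.mem_union, Finset.mem_filter]
    by_cases h1 : OneSided ε E W e
    · exact Or.inl ⟨he, h1⟩
    · right
      by_cases h2 : Viol ε S A e
      · by_cases h3 : OneSided ε E (s ^ 4) e
        · exact Or.inl ⟨he, h3, h2⟩
        · right
          right
          by_cases h4 : Viol ε S 3 e
          · exact Or.inl ⟨he, oneSided_one hε0 e, h4⟩
          · exact Or.inr ⟨he, h3, h4⟩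
      · right
        exact Or.inl ⟨he, h1, h2⟩
  have hcard := (Finset.card_le_card hcov).trans ((Finset.card_union_le _ _).trans
    (Nat.add_le_add_left ((Finset.card_union_le _ _).trans
    (Nat.add_le_add_left ((Finset.card_union_le _ _).trans
    (Nat.add_le_add_left (Finset.card_union_le _ _) _)) _)) _))
  have hcard' := (Nat.cast_le (α := ℝ)).mpr hcard
  simp only [Nat.cast_add] at hcard'
  refine hcard'.trans ?_
  -- the right-hand sides
  have hS0 : (0 : ℝ) ≤ S.card := Nat.cast_nonneg _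
  have hp48 : 0 < 1 / s ^ 48 := by positivity
  have hp34 : 1 / s ^ 34 ≤ 1 / s ^ 48 :=
    one_div_le_one_div_of_le (by positivity) (pow_le_pow_of_le_one hs0 hs1' (by norm_num))
  have hp32 : 1 / s ^ 32 ≤ 1 / s ^ 48 :=
    one_div_le_one_div_of_le (by positivity) (pow_le_pow_of_le_one hs0 hs1' (by norm_num))
  have hb1 : 2000 * (S.card : ℝ) * (W / ε + 1 / Real.sqrt ε) ≤
      2000 * (S.card * (W / s ^ 64)) + 2000 * (S.card * (1 / s ^ 48)) := by
    rw [hsq, ← hε]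
    have := mul_le_mul_of_nonneg_left hp32 hS0
    linarith
  have hb2 : 30000 * A * S.card * (Real.sqrt (s ^ 4) / (Real.sqrt ε * Real.sqrt (Real.sqrt ε)) +
      1 / Real.sqrt ε) ≤ 60000 * (S.card * (1 / s ^ 48)) := by
    rw [hsq, hsq2, hsq4]
    have e1 : 30000 * A * S.card * (s ^ 2 / (s ^ 32 * s ^ 16) + 1 / s ^ 32) =
        30000 * (S.card * (1 / s ^ 48)) + 30000 * (S.card * (1 / s ^ 34)) := by
      rw [hA]
      field_simp
    rw [e1]
    have := mul_le_mul_of_nonneg_left hp34 hS0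
    linarith
  have hb4 : 30000 * 3 * S.card * (Real.sqrt 1 / (Real.sqrt ε * Real.sqrt (Real.sqrt ε)) +
      1 / Real.sqrt ε) ≤ 180000 * (S.card * (1 / s ^ 48)) := by
    rw [hsq, hsq2, Real.sqrt_one]
    have e1 : 30000 * 3 * (S.card : ℝ) * (1 / (s ^ 32 * s ^ 16) + 1 / s ^ 32) =
        90000 * (S.card * (1 / s ^ 48)) + 90000 * (S.card * (1 / s ^ 32)) := by
      rw [show s ^ 32 * s ^ 16 = s ^ 48 by ring]
      ring
    rw [e1]
    have := mul_le_mul_of_nonneg_left hp32 hS0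
    linarith
  have hR3 : s ^ 31 ≤ Real.sqrt (ε * A) := by
    have e1 : ε * A = (s ^ 31) ^ 2 := by
      rw [hA, ← hε]
      field_simp
    rw [e1, Real.sqrt_sq (by positivity)]
  have hb3 := scaleOne_good (B := B) hs hε hW0 hlog hR3
  have hb5 : 100 * B ^ 2 * (8000000 * (1 + Real.log (1 / ε)) /
      (ε ^ 2 * (s ^ 4) ^ 2 * Real.sqrt (ε * 3))) ≤ 51200000000 * (B ^ 2 * (1 / s ^ 169)) := by
    have hR5 : s ^ 32 ≤ Real.sqrt (ε * 3) := by
      rw [← hsq]
      exact Real.sqrt_le_sqrt (by linarith)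
    have hLs : 1 + Real.log (1 / ε) ≤ 64 / s := by
      rw [le_div_iff₀ hs]
      linarith
    have hden : s ^ 168 ≤ ε ^ 2 * (s ^ 4) ^ 2 * Real.sqrt (ε * 3) := by
      have e1 : ε ^ 2 * (s ^ 4) ^ 2 = s ^ 136 := by
        rw [← hε]
        ring
      rw [e1, show s ^ 168 = s ^ 136 * s ^ 32 by ring]
      exact mul_le_mul_of_nonneg_left hR5 (by positivity)
    have h1 : 8000000 * (1 + Real.log (1 / ε)) / (ε ^ 2 * (s ^ 4) ^ 2 * Real.sqrt (ε * 3)) ≤
        8000000 * (64 / s) / s ^ 168 :=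
      div_le_div₀ (by positivity) (by linarith) (by positivity) hden
    have h2 : 8000000 * (64 / s) / s ^ 168 = 512000000 * (1 / s ^ 169) := by
      field_simp
      ring
    rw [h2] at h1
    calc 100 * B ^ 2 * (8000000 * (1 + Real.log (1 / ε)) /
        (ε ^ 2 * (s ^ 4) ^ 2 * Real.sqrt (ε * 3)))
        ≤ 100 * B ^ 2 * (512000000 * (1 / s ^ 169)) := mul_le_mul_of_nonneg_left h1 (by positivity)
      _ = 51200000000 * (B ^ 2 * (1 / s ^ 169)) := by ring
  have hx1 : 0 ≤ (S.card : ℝ) * (W / s ^ 64) := by positivity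
  have hx2 : 0 ≤ (S.card : ℝ) * (1 / s ^ 48) := by positivity
  have hx3 : 0 ≤ B ^ 2 * (1 / (s ^ 160 * W ^ 2)) := by positivity
  have hx4 : 0 ≤ B ^ 2 * (1 / s ^ 169) := by positivity
  have hfin : (10 : ℝ) ^ 11 * (S.card * (W / s ^ 64 + 1 / s ^ 48) +
      B ^ 2 * (1 / (s ^ 160 * W ^ 2) + 1 / s ^ 169)) =
      10 ^ 11 * (S.card * (W / s ^ 64)) + 10 ^ 11 * (S.card * (1 / s ^ 48)) +
      10 ^ 11 * (B ^ 2 * (1 / (s ^ 160 * W ^ 2))) + 10 ^ 11 * (B ^ 2 * (1 / s ^ 169)) := by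
    ring
  rw [hfin]
  norm_num at hc1 hc2 hc3 hc4 hc5 hb1 hb2 hb3 hb4 hb5 ⊢
  linarith

end Pool.Agent.MP_259de8
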