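import Mathlib

/-!
# Summation over the scales
-/

set_option autoImplicit false

namespace Pool.Agent.MP_259de8

/-- the decay function -/
noncomputable def psi (x : ℝ) : ℝ := min (x ^ ((1 : ℝ) / 3)) (x ^ (-((1 : ℝ) / 3)))

/-- the majorant of the sums -/
private noncomputable def SumA_f (x : ℝ) : ℝ :=
  if x ≤ 1 then 5 * x ^ ((1 : ℝ) / 3) else 10 - 4 * x ^ (-((1 : ℝ) / 3))

private theorem SumA_f_nonneg {x : ℝ} (hx : 0 < x) : 0 ≤ SumA_f x := by
  unfold SumA_f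
  split_ifs with h
  · positivity
  · have h1 : x ^ (-((1 : ℝ) / 3)) ≤ 1 :=
      Real.rpow_le_one_of_one_le_of_nonpos (by linarith) (by norm_num)
    linarith

private theorem SumA_f_le {x : ℝ} (hx : 0 < x) : SumA_f x ≤ 10 := by
  unfold SumA_f
  split_ifs with h
  · have h1 : x ^ ((1 : ℝ) / 3) ≤ 1 := Real.rpow_le_one hx.le h (by norm_num)
    linarith
  · have h1 : 0 ≤ x ^ (-((1 : ℝ) / 3)) := by positivity
    linarith

private theorem SumA_r : ((1 : ℝ) / 2) ^ ((1 : ℝ) / 3) ≤ 4 / 5 := by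
  have h1 : ((1 : ℝ) / 2) ^ ((1 : ℝ) / 3) ≤ (((4 : ℝ) / 5) ^ (3 : ℕ)) ^ ((1 : ℝ) / 3) :=
    Real.rpow_le_rpow (by norm_num) (by norm_num) (by norm_num)
  rwa [← Real.rpow_natCast, ← Real.rpow_mul (by norm_num),
    show ((3 : ℕ) : ℝ) * (1 / 3) = 1 by norm_num, Real.rpow_one] at h1

private theorem SumA_step {x : ℝ} (hx : 0 < x) : psi x + SumA_f (x / 2) ≤ SumA_f x := by
  have hr := SumA_r
  have hr0 : 0 < ((1 : ℝ) / 2) ^ ((1 : ℝ) / 3) := by positivity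
  have hu : 0 < x ^ ((1 : ℝ) / 3) := by positivity
  have e1 : (x / 2) ^ ((1 : ℝ) / 3) = x ^ ((1 : ℝ) / 3) * ((1 : ℝ) / 2) ^ ((1 : ℝ) / 3) := by
    rw [← Real.mul_rpow hx.le (by norm_num)]
    congr 1
    ring
  have e2 : x ^ (-((1 : ℝ) / 3)) = (x ^ ((1 : ℝ) / 3))⁻¹ := Real.rpow_neg hx.le _
  have e3 : (x / 2) ^ (-((1 : ℝ) / 3)) = (x ^ ((1 : ℝ) / 3))⁻¹ *
      (((1 : ℝ) / 2) ^ ((1 : ℝ) / 3))⁻¹ := by
    rw [Real.rpow_neg (by positivity), e1, mul_inv]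
  unfold psi SumA_f
  generalize hU : x ^ ((1 : ℝ) / 3) = u at *
  generalize ((1 : ℝ) / 2) ^ ((1 : ℝ) / 3) = r at *
  by_cases h1 : x ≤ 1
  · rw [if_pos h1, if_pos (by linarith), e1]
    have h2 := min_le_left u (x ^ (-((1 : ℝ) / 3)))
    nlinarith
  · push Not at h1
    rw [if_neg (show ¬ x ≤ 1 by linarith)]
    have hu1 : 1 ≤ u := by
      rw [← hU]
      exact Real.one_le_rpow h1.le (by norm_num)
    have hui : u⁻¹ ≤ 1 := inv_le_one_of_one_le₀ hu1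
    have hui0 : 0 < u⁻¹ := by positivity
    have h2 := min_le_right u (x ^ (-((1 : ℝ) / 3)))
    rw [e2] at h2 ⊢
    by_cases h3 : x / 2 ≤ 1
    · rw [if_pos h3]
      have h4 : (x / 2) ^ ((1 : ℝ) / 3) ≤ 1 :=
        Real.rpow_le_one (by positivity) h3 (by norm_num)
      linarith
    · rw [if_neg h3, e3]
      have h5 : 5 / 4 ≤ r⁻¹ := by
        rw [le_inv_comm₀ (by norm_num) hr0]
        norm_num
        exact hr
      have h6 : u⁻¹ * (5 / 4) ≤ u⁻¹ * r⁻¹ := mul_le_mul_of_nonneg_left h5 hui0.le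
      linarith

private theorem SumA_sum (I : ℕ) : ∀ {x : ℝ}, 0 < x →
    ∑ i ∈ Finset.range I, psi (x / 2 ^ i) ≤ SumA_f x := by
  induction I with
  | zero =>
    intro x hx
    simpa using SumA_f_nonneg hx
  | succ I ih =>
    intro x hx
    rw [Finset.sum_range_succ', pow_zero, div_one]
    have h1 := ih (x := x / 2) (by positivity)
    have h2 : ∀ i, x / 2 ^ (i + 1) = x / 2 / 2 ^ i := by
      intro i
      rw [pow_succ', div_div]
    simp only [h2]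
    have h3 := SumA_step hx
    linarith

/-- two-sided geometric sum: at most `2 / (1 - 2^(-1/3)) ≤ 10`.
Proof: for `i` with `x 2^(-i) ≤ 1`: `psi ≤ (x2^(-i))^(1/3)`, geometric with first term `≤ 1`; for `i` with
`x 2^(-i) ≥ 1` the same with the last term. -/
theorem sum_psi {x : ℝ} (hx : 0 < x) (I : ℕ) : ∑ i ∈ Finset.range I, psi (x / 2 ^ i) ≤ 10 :=
  (SumA_sum I hx).trans (SumA_f_le hx)

end Pool.Agent.MP_259de8
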