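import Pool.Agent.Lib.MP_259de8_co.G.TubeA
import Pool.Agent.Lib.MP_259de8_co.G.Geom

/-!
# The gap lemma for edges with a back partner
-/

set_option autoImplicit false

namespace Pool.Agent.MP_259de8

variable {ε : ℝ} {S : Finset ℂ} {E : Finset (ℂ × ℂ)}

private theorem tube_rot (t z : ℂ) (α : ℝ) :
    cx (t * uv α) z = cx t z * Real.cos α + cy t z * Real.sin α ∧
      cy (t * uv α) z = cy t z * Real.cos α - cx t z * Real.sin α := by
  have h1 : (starRingEnd ℂ) (uv α) = (Real.cos α : ℂ) - (Real.sin α : ℂ) * Complex.I := by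
    unfold uv
    rw [Complex.exp_mul_I, ← Complex.ofReal_cos, ← Complex.ofReal_sin, map_add, map_mul,
      Complex.conj_ofReal, Complex.conj_ofReal, Complex.conj_I]
    ring
  have h2 : (starRingEnd ℂ) (t * uv α) * z =
      ((Real.cos α : ℂ) - (Real.sin α : ℂ) * Complex.I) * ((starRingEnd ℂ) t * z) := by
    rw [map_mul, h1]
    ring
  unfold cx cy
  rw [h2]
  generalize (starRingEnd ℂ) t * z = w
  generalize Real.cos α = c
  generalize Real.sin α = s
  constructor
  · simp [Complex.mul_re, Complex.mul_im]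
    ring
  · simp [Complex.mul_re, Complex.mul_im]
    ring

private theorem tube_sq {t : ℂ} (ht : ‖t‖ = 1) (z : ℂ) : ‖z‖ ^ 2 = cx t z ^ 2 + cy t z ^ 2 := by
  rw [norm_coord ht z, Real.sq_sqrt (by positivity)]

private theorem tube_neg (t a b : ℂ) : cy t (a - b) = -cy t (b - a) := by
  rw [cy_sub, cy_sub]
  ring

/-- change of the axis by a small angle -/
private theorem tube_turn {t z : ℂ} (ht : ‖t‖ = 1) {s α : ℝ} (hs : 0 < s) (hs1 : s ≤ 1 / 100)
    (hα : 0 ≤ α) (hα1 : α ≤ s / 3) (hz : 0 < ‖z‖) (hx : 0 < cx t z)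
    (hy : |cy t z| ≤ 2 / 3 * s * ‖z‖) :
    0 < cx (t * uv α) z ∧ |cy (t * uv α) z| ≤ s * ‖z‖ := by
  obtain ⟨e1, e2⟩ := tube_rot t z α
  rw [e1, e2]
  have hsq := tube_sq ht z
  set X := cx t z with hX
  set Y := cy t z with hY
  set L := ‖z‖ with hL
  have hsin0 : 0 ≤ Real.sin α :=
    Real.sin_nonneg_of_nonneg_of_le_pi hα (by linarith [Real.pi_gt_three])
  have hsin1 : Real.sin α ≤ α := Real.sin_le hα
  have hcos : 1 - α ^ 2 / 2 ≤ Real.cos α := Real.one_sub_sq_div_two_le_cos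
  have hcos1 : Real.cos α ≤ 1 := Real.cos_le_one α
  have hα2 : α ≤ 1 / 300 := by linarith
  have hcos2 : 1 / 2 ≤ Real.cos α := by nlinarith
  have hYL : |Y| ≤ L / 100 := by
    refine hy.trans ?_
    nlinarith
  have hY2 : Y ^ 2 ≤ (L / 100) ^ 2 := by
    rw [← sq_abs Y]
    exact pow_le_pow_left₀ (abs_nonneg _) hYL 2
  have hXL : X ≤ L := by
    by_contra hc
    push Not at hc
    nlinarith [sq_nonneg Y]
  have hXh : L / 2 ≤ X := by
    by_contra hc
    push Not at hc
    nlinarith [mul_pos hz hz]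
  constructor
  · have h1 : -(L / 100 * (1 / 300)) ≤ Y * Real.sin α := by
      have h2 : |Y * Real.sin α| ≤ L / 100 * (1 / 300) := by
        rw [abs_mul, abs_of_nonneg hsin0]
        exact mul_le_mul hYL (by linarith) hsin0 (by positivity)
      exact neg_le_of_abs_le h2
    have h3 : L / 2 * (1 / 2) ≤ X * Real.cos α :=
      mul_le_mul hXh hcos2 (by norm_num) hx.le
    linarith
  · have h1 : |Y * Real.cos α| ≤ 2 / 3 * s * L := by
      rw [abs_mul, abs_of_nonneg (by linarith : (0 : ℝ) ≤ Real.cos α)]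
      calc |Y| * Real.cos α ≤ |Y| * 1 := mul_le_mul_of_nonneg_left hcos1 (abs_nonneg _)
        _ = |Y| := mul_one _
        _ ≤ _ := hy
    have h2 : |X * Real.sin α| ≤ L * (s / 3) := by
      rw [abs_mul, abs_of_nonneg hsin0, abs_of_pos hx]
      exact mul_le_mul hXL (hsin1.trans hα1) hsin0 hz.le
    calc |Y * Real.cos α - X * Real.sin α| ≤ |Y * Real.cos α| + |X * Real.sin α| := abs_sub _ _
      _ ≤ 2 / 3 * s * L + L * (s / 3) := add_le_add h1 h2
      _ = s * L := by ring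

private theorem tube_polar (δ : ℝ) (j : ℤ) (g : ℂ × ℂ) :
    g.2 - g.1 = (‖g.2 - g.1‖ : ℂ) * (wdir δ j * uv (ang g - j * δ)) := by
  have h1 : wdir δ j * uv (ang g - j * δ) = uv (ang g) := by
    unfold wdir
    rw [← uv_add]
    congr 1
    ring
  rw [h1]
  exact edge_polar g

private theorem tube_cls {ε : ℝ} (hε : 0 < ε) {f e : ℂ × ℂ} (h : cls ε f = cls ε e) :
    |ang f - ang e| ≤ Real.sqrt ε / 20 := by
  have hs : 0 < Real.sqrt ε / 20 := div_pos (Real.sqrt_pos.2 hε) (by norm_num)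
  unfold cls at h
  have h1 := Int.floor_le (ang f / (Real.sqrt ε / 20))
  have h2 := Int.lt_floor_add_one (ang f / (Real.sqrt ε / 20))
  have h3 := Int.floor_le (ang e / (Real.sqrt ε / 20))
  have h4 := Int.lt_floor_add_one (ang e / (Real.sqrt ε / 20))
  rw [h] at h1 h2
  have h5 : |ang f / (Real.sqrt ε / 20) - ang e / (Real.sqrt ε / 20)| ≤ 1 := by
    rw [abs_le]
    constructor <;> linarith
  rw [← sub_div, abs_div, abs_of_pos hs, div_le_one hs] at h5
  exact h5

/-- The same with a back partner of level `k`, up to the distance `W 4^(-k) / 80`.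
Proof.  If `x ≤ Aε/2` use `near_gap` (`W A ≤ 1`).  Otherwise suppose `|y| < ε√ε √(WA)/60`; then
`y² ≤ ε² W x/1600` and `forced_vertex` applies with `t = wdir`, `(u₁,v₁)` = the back partner `g`
(`R = cx (e.1 - g.1) ≥ 4^(-k)/2`, `(cy)² < (δ/2^k)² = ε²W 4^(-k)/1600 ≤ ε² W R/800`), `b = f.1`
(`x ≤ W 4^(-k)/80 ≤ W R/40`), and `vp`, `vm` = the ends of the two fan edges given by `¬ OneSided`
(`αp = ang - win δ ∈ [W√ε, √ε/20 + δ]`, `αm ∈ [W√ε - δ, √ε/20]`, `δ ≤ W√ε/2` since `ε ≤ W`).  The vertex `p`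
obtained shows `Viol ε S A e` (rotate from `wdir` to `dir (e.2 - e.1)`, an angle `< δ`). -/
theorem pair_gap (hS : Sys ε S E) (hε : 0 < ε) (hε1 : ε ≤ 1 / 10000) {W A : ℝ} (hW : ε ≤ W)
    (hW1 : W ≤ 1) (hA : 3 ≤ A) (hWA : W * A ≤ 1) {T : Finset ℂ} (hT : T ⊆ S)
    (hd : ∀ z ∈ T, ∀ w ∈ T, ‖z - w‖ ≤ 1 / 5)
    {k : ℕ} {e f : ℂ × ℂ} (he : e ∈ E1 E) (hf : f ∈ E1 E) (heT : e.1 ∈ T) (hfT : f.1 ∈ T)
    (hw : win (dl ε W) f = win (dl ε W) e) (hk : sub (dl ε W) k f = sub (dl ε W) k e)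
    (hP : Partn E T (dl ε W) k e) (hO : ¬ OneSided ε E W e)
    (hV : ¬ Viol ε S A e) (hne : e ≠ f)
    (h0 : 0 ≤ cx (wdir (dl ε W) (win (dl ε W) e)) (f.1 - e.1))
    (h1 : cx (wdir (dl ε W) (win (dl ε W) e)) (f.1 - e.1) ≤ W * (1 / 4 : ℝ) ^ k / 80) :
    ε * Real.sqrt ε * Real.sqrt (W * A) / 60 ≤ |cy (wdir (dl ε W) (win (dl ε W) e)) (f.1 - e.1)| := by
  have hWpos : 0 < W := hε.trans_le hW
  have hδ : 0 < dl ε W := by
    unfold dl
    have := Real.sqrt_pos.2 hWpos
    positivity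
  have hs : 0 < Real.sqrt ε := Real.sqrt_pos.2 hε
  have hss : Real.sqrt ε * Real.sqrt ε = ε := Real.mul_self_sqrt hε.le
  have hs1 : Real.sqrt ε ≤ 1 / 100 := by
    rw [Real.sqrt_le_left (by norm_num)]
    norm_num
    linarith
  have hsW : 0 < Real.sqrt W := Real.sqrt_pos.2 hWpos
  have hWW : Real.sqrt W * Real.sqrt W = W := Real.mul_self_sqrt hWpos.le
  have hsW1 : Real.sqrt W ≤ 1 := by
    rw [Real.sqrt_le_one]
    exact hW1
  have hsεW : Real.sqrt ε ≤ Real.sqrt W := Real.sqrt_le_sqrt hW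
  have hWA0 : 0 ≤ W * A := by positivity
  have hWAs : Real.sqrt (W * A) ≤ 1 := by
    rw [Real.sqrt_le_one]
    exact hWA
  have hWAss : Real.sqrt (W * A) * Real.sqrt (W * A) = W * A := Real.mul_self_sqrt hWA0
  have hδv : dl ε W = ε * Real.sqrt W / 40 := rfl
  generalize hδdef : dl ε W = δ at *
  have hδ2 : δ ^ 2 = ε ^ 2 * W / 1600 := by
    rw [hδv]
    nlinarith [hWW]
  have hδs : δ ≤ Real.sqrt ε / 4000 := by
    rw [hδv]
    nlinarith [mul_pos hs hs, mul_le_mul hs1 hsW1 hsW.le (by norm_num : (0 : ℝ) ≤ 1 / 100)]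
  have hδW : δ ≤ W * Real.sqrt ε / 40 := by
    rw [hδv]
    have h2 : ε * Real.sqrt W ≤ W * Real.sqrt ε := by
      calc ε * Real.sqrt W = Real.sqrt ε * Real.sqrt ε * Real.sqrt W := by rw [hss]
        _ ≤ Real.sqrt ε * Real.sqrt W * Real.sqrt W := by gcongr
        _ = W * Real.sqrt ε := by rw [mul_assoc, hWW]; ring
    linarith
  by_cases hx : cx (wdir δ (win δ e)) (f.1 - e.1) ≤ A * ε / 2
  · have h2 : ε * Real.sqrt ε / 20 ≤ |cy (wdir δ (win δ e)) (f.1 - e.1)| := by
      subst hδdef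
      exact near_gap hS hε hε1 hWpos hW1 hA he hf hw hk hV hne h0 hx
    refine le_trans ?_ h2
    have h3 : ε * Real.sqrt ε * Real.sqrt (W * A) ≤ ε * Real.sqrt ε * 1 :=
      mul_le_mul_of_nonneg_left hWAs (by positivity)
    have h4 : 0 < ε * Real.sqrt ε := by positivity
    linarith
  · push Not at hx
    by_contra hcon
    push Not at hcon
    obtain ⟨g, hg, hgT, hgw, hgk, hgR⟩ := hP
    have ht : ‖wdir δ (win δ e)‖ = 1 := norm_uv _
    obtain ⟨heE, he1, he2⟩ := mem_E1.1 he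
    obtain ⟨hgE, hg1, hg2⟩ := mem_E1.1 hg
    -- the two fan edges
    unfold OneSided at hO
    rw [not_or] at hO
    obtain ⟨hOp, hOm⟩ := hO
    push Not at hOp hOm
    obtain ⟨fp, hfp, hfp1, hfpc, hfpa⟩ := hOp
    obtain ⟨fm, hfm, hfm1, hfmc, hfma⟩ := hOm
    obtain ⟨hfpE, hfp2, -⟩ := mem_E1.1 hfp
    obtain ⟨hfmE, hfm2, -⟩ := mem_E1.1 hfm
    have hcp := tube_cls hε hfpc
    have hcm := tube_cls hε hfmc
    obtain ⟨ha0, ha1⟩ := win_ang hδ e
    obtain ⟨hb0, hb1⟩ := win_ang hδ g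
    rw [hgw] at hb0 hb1
    have hsc := sub_close hδ k hgw hgk
    rw [abs_le] at hcp hcm
    have hpowpos : (0 : ℝ) < (1 / 4 : ℝ) ^ k := by positivity
    obtain ⟨p, hpS, hp1, hp2, hp3, hp4⟩ := forced_vertex hS hε hε1 hWpos hW1 ht
      (u₁ := g.1) (v₁ := g.2) (u := e.1) (vp := fp.2) (vm := fm.2) (b := f.1)
      hgE hg1 hg2.le (α₁ := ang g - win δ e * δ)
      (by
        rw [← hδ2]
        exact pow_le_pow_left₀ hb0 hb1.le 2)
      (tube_polar δ (win δ e) g)
      (by
        have h := hfpE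
        rw [← hfp1]
        exact h)
      (by
        rw [← hfp1]
        exact hfp2)
      (αp := ang fp - win δ e * δ) (by linarith [mul_pos hWpos hs]) (by linarith)
      (by
        have h := tube_polar δ (win δ e) fp
        rw [hfp1] at h
        exact h)
      (by
        have h := hfmE
        rw [← hfm1]
        exact h)
      (by
        rw [← hfm1]
        exact hfm2)
      (αm := -(ang fm - win δ e * δ)) (by linarith [mul_pos hWpos hs]) (by linarith)
      (by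
        have h := tube_polar δ (win δ e) fm
        rw [hfm1] at h
        rw [neg_neg]
        exact h)
      (hT hfT) (by linarith)
      (by
        have h1 := hd _ heT _ hgT
        have h2 := tube_sq ht (e.1 - g.1)
        have h3 : 0 ≤ ‖e.1 - g.1‖ := norm_nonneg _
        by_contra hc
        push Not at hc
        nlinarith [sq_nonneg (cy (wdir δ (win δ e)) (e.1 - g.1))])
      (by
        rw [tube_neg]
        rw [neg_sq, ← sq_abs]
        have h2 : |cy (wdir δ (win δ e)) (g.1 - e.1)| ^ 2 ≤ (δ / 2 ^ k) ^ 2 :=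
          pow_le_pow_left₀ (abs_nonneg _) hsc.le 2
        refine h2.trans ?_
        have h3 : (δ / 2 ^ k) ^ 2 = ε ^ 2 * W / 1600 * (1 / 4 : ℝ) ^ k := by
          have h5 : ((2 : ℝ) ^ k) ^ 2 = 4 ^ k := by
            rw [← pow_mul, mul_comm k 2, pow_mul]
            norm_num
          rw [div_pow, hδ2, h5, one_div, inv_pow, div_eq_mul_inv]
        rw [h3]
        have h4 : 0 < ε ^ 2 * W := by positivity
        nlinarith [mul_le_mul_of_nonneg_left hgR h4.le])
      (by nlinarith)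
      (by nlinarith [mul_le_mul_of_nonneg_left hgR hWpos.le])
      (by
        rw [← sq_abs]
        have h2 : |cy (wdir δ (win δ e)) (f.1 - e.1)| ^ 2 ≤
            (ε * Real.sqrt ε * Real.sqrt (W * A) / 60) ^ 2 :=
          pow_le_pow_left₀ (abs_nonneg _) hcon.le 2
        refine h2.trans ?_
        have h3 : (ε * Real.sqrt ε * Real.sqrt (W * A) / 60) ^ 2 =
            ε ^ 2 * W * (A * ε) / 3600 := by
          calc (ε * Real.sqrt ε * Real.sqrt (W * A) / 60) ^ 2
              = ε ^ 2 * (Real.sqrt ε * Real.sqrt ε) *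
                (Real.sqrt (W * A) * Real.sqrt (W * A)) / 3600 := by ring
            _ = ε ^ 2 * W * (A * ε) / 3600 := by rw [hss, hWAss]; ring
        rw [h3]
        have h4 : 0 < ε ^ 2 * W := by positivity
        nlinarith [mul_lt_mul_of_pos_left hx h4, mul_pos h4 (lt_of_le_of_lt (by positivity) hx)])
    apply hV
    have hL : 0 < ‖p - e.1‖ := by linarith
    have hne2 : e.2 ≠ e.1 := by
      intro h
      rw [h, sub_self, norm_zero] at he1
      linarith
    have hdir : dir (e.2 - e.1) = wdir δ (win δ e) * uv (ang e - win δ e * δ) := by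
      rw [dir_eq_uv hne2]
      unfold wdir
      rw [← uv_add]
      congr 1
      ring
    obtain ⟨hr1, hr2⟩ := tube_turn ht hs hs1 ha0 (by linarith) hL hp3 hp4
    refine ⟨p, hpS, hp1, ?_, ?_, ?_⟩
    · nlinarith
    · rw [hdir]
      exact hr1
    · rw [hdir]
      exact hr2

end Pool.Agent.MP_259de8
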