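import Pool.Agent.Lib.MP_259de8_co.G.Class

/-!
# Direction windows, nested tubes, back partners

`δ = ε √W / 40` is the length of a direction window and the width of a tube of level `0`; the tubes of level
`k` have width `δ / 2^k`.
-/

set_option autoImplicit false

namespace Pool.Agent.MP_259de8

variable {ε : ℝ} {S : Finset ℂ} {E : Finset (ℂ × ℂ)}

/-- the length of a direction window -/
noncomputable def dl (ε W : ℝ) : ℝ := ε * Real.sqrt W / 40

/-- the direction window of an edge -/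
noncomputable def win (δ : ℝ) (e : ℂ × ℂ) : ℤ := ⌊ang e / δ⌋

/-- the axis of a window -/
noncomputable def wdir (δ : ℝ) (j : ℤ) : ℂ := uv (j * δ)

/-- the tube of level `k` of an edge, in its own window -/
noncomputable def sub (δ : ℝ) (k : ℕ) (e : ℂ × ℂ) : ℤ :=
  ⌊cy (wdir δ (win δ e)) e.1 / (δ / 2 ^ k)⌋

/-- `e` has a back partner of level `k` starting in `T` -/
def Partn (E : Finset (ℂ × ℂ)) (T : Finset ℂ) (δ : ℝ) (k : ℕ) (e : ℂ × ℂ) : Prop :=
  ∃ f ∈ E1 E, f.1 ∈ T ∧ win δ f = win δ e ∧ sub δ k f = sub δ k e ∧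
    (1 / 4 : ℝ) ^ k / 2 ≤ cx (wdir δ (win δ e)) (e.1 - f.1)

/-- the angle of an edge inside its window -/
theorem win_ang {δ : ℝ} (hδ : 0 < δ) (e : ℂ × ℂ) :
    0 ≤ ang e - win δ e * δ ∧ ang e - win δ e * δ < δ := by
  unfold win
  have h1 := Int.floor_le (ang e / δ)
  have h2 := Int.lt_floor_add_one (ang e / δ)
  rw [le_div_iff₀ hδ] at h1
  rw [div_lt_iff₀ hδ] at h2
  constructor
  · linarith
  · linarith

/-- two edges in the same tube of level `k` -/
theorem sub_close {δ : ℝ} (hδ : 0 < δ) (k : ℕ) {e f : ℂ × ℂ} (hw : win δ f = win δ e)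
    (hk : sub δ k f = sub δ k e) : |cy (wdir δ (win δ e)) (f.1 - e.1)| < δ / 2 ^ k := by
  have hp : 0 < δ / 2 ^ k := by positivity
  unfold sub at hk
  rw [hw] at hk
  have h1 := Int.abs_sub_lt_one_of_floor_eq_floor hk
  rw [← sub_div, abs_div, abs_of_pos hp, div_lt_one hp] at h1
  rw [cy_sub]
  exact h1

private theorem TubeA_floor_half {a b : ℝ} (h : ⌊a⌋ = ⌊b⌋) : ⌊a / 2⌋ = ⌊b / 2⌋ := by
  have key : ∀ c : ℝ, ⌊c / 2⌋ = ⌊c⌋ / 2 := by
    intro c
    rw [Int.floor_eq_iff]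
    have h1 := Int.floor_le c
    have h2 := Int.lt_floor_add_one c
    have h3 : 2 * (⌊c⌋ / 2) ≤ ⌊c⌋ := by omega
    have h4 : ⌊c⌋ + 1 ≤ 2 * (⌊c⌋ / 2) + 2 := by omega
    have h3' : (2 : ℝ) * ((⌊c⌋ / 2 : ℤ) : ℝ) ≤ ⌊c⌋ := by exact_mod_cast h3
    have h4' : (⌊c⌋ : ℝ) + 1 ≤ 2 * ((⌊c⌋ / 2 : ℤ) : ℝ) + 2 := by exact_mod_cast h4
    constructor
    · linarith
    · linarith
  rw [key, key, h]

/-- nesting of tubes -/
theorem sub_nest {δ : ℝ} (hδ : 0 < δ) (k : ℕ) {e f : ℂ × ℂ} (hw : win δ f = win δ e)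
    (hk : sub δ (k + 1) f = sub δ (k + 1) e) : sub δ k f = sub δ k e := by
  unfold sub at hk ⊢
  have hd : ∀ y : ℝ, y / (δ / 2 ^ k) = y / (δ / 2 ^ (k + 1)) / 2 := by
    intro y
    rw [pow_succ]
    field_simp
  rw [hd, hd]
  exact TubeA_floor_half hk

private theorem TubeA_rot (t : ℂ) (α : ℝ) (z : ℂ) :
    cx (t * uv α) z = Real.cos α * cx t z + Real.sin α * cy t z ∧
      cy (t * uv α) z = Real.cos α * cy t z - Real.sin α * cx t z := by
  have hu : (starRingEnd ℂ) (uv α) = ⟨Real.cos α, -Real.sin α⟩ := by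
    unfold uv
    apply Complex.ext
    · simp [Complex.exp_ofReal_mul_I_re]
    · simp [Complex.exp_ofReal_mul_I_im]
  have h : (starRingEnd ℂ) (t * uv α) * z = (⟨Real.cos α, -Real.sin α⟩ : ℂ) * ((starRingEnd ℂ) t * z) := by
    rw [map_mul, hu]
    ring
  unfold cx cy
  rw [h]
  constructor
  · rw [Complex.mul_re]
    ring
  · rw [Complex.mul_im]
    ring

private theorem TubeA_dl {ε W : ℝ} (hε : 0 < ε) (hW : 0 < W) (hW1 : W ≤ 1) :
    0 < dl ε W ∧ dl ε W ≤ ε / 40 := by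
  unfold dl
  have h1 : 0 < Real.sqrt W := Real.sqrt_pos.2 hW
  have h2 : Real.sqrt W ≤ 1 := Real.sqrt_le_one.2 hW1
  constructor
  · positivity
  · have := mul_le_mul_of_nonneg_left h2 hε.le
    linarith

/-- Two edges of the same tube whose starts are at distance between `ε/16` and `Aε/2` along the axis: if the
offset is small then the first edge is violating.  Also the packing property.
Proof.  `x = cx (f.1 - e.1)`, `y = cy (f.1 - e.1)`, `|y| < δ/2^k ≤ ε/40`.  If `x < ε/16`, `pack_ang` gives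
`e = f`.  Otherwise suppose `|y| < ε√ε/20 ≤ 0.8 √ε x`; then `p = f.1` shows `Viol ε S A e`: `dir (e.2-e.1) =
wdir · uv α`, `0 ≤ α < δ`, so `cx (dir) (p - e.1) = x cos α + y sin α > 0` and `|cy (dir) (p - e.1)| =
|y cos α - x sin α| ≤ (0.8 √ε + δ) x ≤ √ε ‖p - e.1‖`; `ε/16 ≤ x ≤ ‖p-e.1‖ ≤ x + |y| ≤ A ε`. -/
theorem near_gap (hS : Sys ε S E) (hε : 0 < ε) (hε1 : ε ≤ 1 / 10000) {W A : ℝ} (hW : 0 < W)
    (hW1 : W ≤ 1) (hA : 3 ≤ A) {k : ℕ} {e f : ℂ × ℂ} (he : e ∈ E1 E) (hf : f ∈ E1 E)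
    (hw : win (dl ε W) f = win (dl ε W) e) (hk : sub (dl ε W) k f = sub (dl ε W) k e)
    (hV : ¬ Viol ε S A e) (hne : e ≠ f)
    (h0 : 0 ≤ cx (wdir (dl ε W) (win (dl ε W) e)) (f.1 - e.1))
    (h1 : cx (wdir (dl ε W) (win (dl ε W) e)) (f.1 - e.1) ≤ A * ε / 2) :
    ε * Real.sqrt ε / 20 ≤ |cy (wdir (dl ε W) (win (dl ε W) e)) (f.1 - e.1)| := by
  obtain ⟨hδ, hδ1⟩ := TubeA_dl (ε := ε) (W := W) hε hW hW1
  set δ := dl ε W with hδdef
  set t := wdir δ (win δ e) with htdef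
  have ht : ‖t‖ = 1 := norm_uv _
  have hyk := sub_close hδ k hw hk
  rw [← htdef] at hyk
  have hk1 : δ / 2 ^ k ≤ δ := div_le_self hδ.le (one_le_pow₀ (by norm_num))
  set x := cx t (f.1 - e.1) with hx
  set y := cy t (f.1 - e.1) with hy
  by_contra hcon
  push Not at hcon
  have hnorm : ‖f.1 - e.1‖ = Real.sqrt (x ^ 2 + y ^ 2) := norm_coord ht _
  have hn1 : ‖f.1 - e.1‖ ≤ x + |y| := by
    rw [hnorm, Real.sqrt_le_left (by positivity)]
    nlinarith [mul_nonneg h0 (abs_nonneg y), sq_abs y]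
  have hn2 : x ≤ ‖f.1 - e.1‖ := by
    rw [hnorm]
    exact Real.le_sqrt_of_sq_le (by nlinarith [sq_nonneg y])
  obtain ⟨ae0, ae1⟩ := win_ang hδ e
  obtain ⟨af0, af1⟩ := win_ang hδ f
  rw [hw] at af0 af1
  rcases lt_or_ge x (ε / 16) with hlt | hge
  · apply hne
    apply pack_ang hS he hf
    · linarith
    · rw [abs_le]
      constructor <;> linarith
  · apply hV
    have hs : 0 < Real.sqrt ε := Real.sqrt_pos.2 hε
    have hss : Real.sqrt ε * Real.sqrt ε = ε := Real.mul_self_sqrt hε.le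
    have hs1 : Real.sqrt ε ≤ 1 / 100 := by
      rw [Real.sqrt_le_left (by norm_num)]
      linarith
    have heE := (mem_E1.1 he).1
    have hfE := (mem_E1.1 hf).1
    have hene : e.2 ≠ e.1 := fun h => (hS.mem e.1 e.2 heE).2.2 h.symm
    set α := ang e - win δ e * δ with hα
    have hdir : dir (e.2 - e.1) = t * uv α := by
      rw [dir_eq_uv hene, htdef]
      unfold wdir
      rw [← uv_add]
      congr 1
      rw [hα]
      ring
    obtain ⟨r1, r2⟩ := TubeA_rot t α (f.1 - e.1)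
    rw [← hx, ← hy] at r1 r2
    have hc1 : Real.cos α ≤ 1 := Real.cos_le_one _
    have hc2 : 1 / 2 ≤ Real.cos α := by
      have := Real.one_sub_sq_div_two_le_cos (x := α)
      nlinarith
    have hsin : |Real.sin α| ≤ δ := by
      have h := Real.abs_sin_le_abs (x := α)
      rw [abs_of_nonneg ae0] at h
      linarith
    have hyx : |y| ≤ 4 / 5 * Real.sqrt ε * x := by
      have : ε * Real.sqrt ε / 20 ≤ 4 / 5 * Real.sqrt ε * x := by
        have := mul_le_mul_of_nonneg_left hge hs.le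
        linarith
      linarith
    refine ⟨f.1, (hS.mem f.1 f.2 hfE).1, hge.trans hn2, ?_, ?_, ?_⟩
    · have : |y| ≤ ε / 40 := by linarith
      nlinarith
    · rw [hdir, r1]
      have h1 : |Real.sin α * y| ≤ 1 * |y| := by
        rw [abs_mul]
        exact mul_le_mul_of_nonneg_right (Real.abs_sin_le_one _) (abs_nonneg _)
      have h2 := neg_abs_le (Real.sin α * y)
      have h3 : 1 / 2 * x ≤ Real.cos α * x := mul_le_mul_of_nonneg_right hc2 h0
      have h4 : |y| ≤ 1 / 125 * x := by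
        refine hyx.trans ?_
        have := mul_le_mul_of_nonneg_right hs1 h0
        linarith
      have h5 : 0 < x := by linarith
      linarith
    · rw [hdir, r2]
      have h1 : |Real.cos α * y - Real.sin α * x| ≤ |y| + δ * x := by
        refine (abs_sub _ _).trans ?_
        rw [abs_mul, abs_mul, abs_of_nonneg h0, abs_of_nonneg (by linarith : 0 ≤ Real.cos α)]
        have a1 : Real.cos α * |y| ≤ 1 * |y| := mul_le_mul_of_nonneg_right hc1 (abs_nonneg _)
        have a2 : |Real.sin α| * x ≤ δ * x := mul_le_mul_of_nonneg_right hsin h0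
        linarith
      refine h1.trans ?_
      have h2 : δ ≤ 1 / 5 * Real.sqrt ε := by
        have : ε ≤ 1 / 100 * Real.sqrt ε := by
          rw [← hss]
          simpa [mul_comm] using mul_le_mul_of_nonneg_left hs1 hs.le
        linarith
      have h3 : δ * x ≤ 1 / 5 * Real.sqrt ε * x := mul_le_mul_of_nonneg_right h2 h0
      have h4 : Real.sqrt ε * x ≤ Real.sqrt ε * ‖f.1 - e.1‖ := mul_le_mul_of_nonneg_left hn2 hs.le
      linarith

end Pool.Agent.MP_259de8
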