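import Pool.Agent.Lib.MP_259de8_co.G.Class

/-!
# Classes which see a given point
-/

set_option autoImplicit false

namespace Pool.Agent.MP_259de8

variable {ε : ℝ} {S : Finset ℂ} {E : Finset (ℂ × ℂ)}

private theorem ViolB_small {y s : ℝ} (hs : 0 ≤ s) (hy : |y| ≤ Real.pi) (hc : 0 < Real.cos y)
    (h : |Real.sin y| ≤ s) : |y| ≤ 1.575 * s := by
  have h1 : |y| ≤ Real.pi / 2 := by
    by_contra hcon
    have h2 : Real.cos |y| ≤ 0 :=
      Real.cos_nonpos_of_pi_div_two_le_of_le (le_of_lt (not_le.1 hcon))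
        (by linarith [Real.pi_pos])
    rw [Real.cos_abs] at h2
    linarith
  rw [Real.abs_sin_eq_sin_abs_of_abs_le_pi hy] at h
  have h3 := Real.mul_le_sin (abs_nonneg y) h1
  have h4 : 2 / Real.pi * |y| ≤ s := h3.trans h
  have h5 : |y| ≤ Real.pi / 2 * s := by
    have h6 : Real.pi / 2 * (2 / Real.pi * |y|) = |y| := by
      have := Real.pi_ne_zero
      field_simp
    rw [← h6]
    exact mul_le_mul_of_nonneg_left h4 (by positivity)
  have h7 := Real.pi_lt_d2
  nlinarith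

private theorem ViolB_shift {φ θ s : ℝ} (hs : 0 ≤ s) (h1 : -Real.pi < φ) (h2 : φ ≤ Real.pi)
    (h3 : -Real.pi < θ) (h4 : θ ≤ Real.pi) (hc : 0 < Real.cos (φ - θ))
    (h : |Real.sin (φ - θ)| ≤ s) :
    |φ - θ - 2 * Real.pi| ≤ 1.575 * s ∨ |φ - θ| ≤ 1.575 * s ∨
      |φ - θ + 2 * Real.pi| ≤ 1.575 * s := by
  by_cases c1 : Real.pi < φ - θ
  · left
    apply ViolB_small hs
    · rw [abs_le]
      constructor <;> linarith
    · rwa [Real.cos_sub_two_pi]
    · rwa [Real.sin_sub_two_pi]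
  by_cases c2 : φ - θ < -Real.pi
  · right
    right
    apply ViolB_small hs
    · rw [abs_le]
      constructor <;> linarith
    · rwa [Real.cos_add_two_pi]
    · rwa [Real.sin_add_two_pi]
  · right
    left
    exact ViolB_small hs (abs_le.2 ⟨not_lt.1 c2, not_lt.1 c1⟩) hc h

private theorem ViolB_floor {a θ s : ℝ} (hs : 0 < s) (h : |a - θ| ≤ 1.575 * s) :
    ⌊θ / (s / 20)⌋ ∈ Finset.Icc ⌊a / (s / 20) - 31.5⌋ (⌊a / (s / 20) - 31.5⌋ + 63) := by
  rw [abs_le] at h
  have h20 : 0 < s / 20 := by positivity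
  rw [Finset.mem_Icc]
  constructor
  · apply Int.floor_le_floor
    rw [sub_le_iff_le_add, div_le_iff₀ h20, add_mul, div_mul_cancel₀ _ h20.ne']
    linarith
  · have h1 : ⌊a / (s / 20) - 31.5⌋ + 63 = ⌊a / (s / 20) - 31.5 + (63 : ℤ)⌋ := by
      rw [Int.floor_add_intCast]
    rw [h1]
    apply Int.floor_le_floor
    rw [div_le_iff₀ h20, add_mul, sub_mul, div_mul_cancel₀ _ h20.ne']
    push_cast
    linarith

open Classical in
/-- for given `u` and `p ≠ u` at most `200` classes at `u` contain an edge which sees `p` in its sector.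
Proof: `p - u = ‖p-u‖ uv φ`, `φ = arg (p - u)`; `cos (φ - ang e) > 0` and `|sin (φ - ang e)| ≤ √ε` give
`|φ - ang e + 2πm| ≤ 1.1 √ε` for some `m ∈ {-1,0,1}`; for each `m` the number `ang e/(√ε/20)` lies in an
interval of length `44`. -/
theorem viol_classes (hε : 0 < ε) (hε1 : ε ≤ 1 / 100) (u p : ℂ) (hup : p ≠ u) :
    ((((E1 E).filter (fun e => e.1 = u ∧ e.2 ≠ u ∧ 0 < cx (dir (e.2 - e.1)) (p - e.1) ∧
      |cy (dir (e.2 - e.1)) (p - e.1)| ≤ Real.sqrt ε * ‖p - e.1‖)).image (cls ε)).card : ℝ) ≤ 200 := by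
  have hs : 0 < Real.sqrt ε := Real.sqrt_pos.2 hε
  have hl : 0 < ‖p - u‖ := norm_pos_iff.2 (sub_ne_zero.2 hup)
  have hpol : p - u = ((‖p - u‖ : ℝ) : ℂ) * uv (Complex.arg (p - u)) := by
    unfold uv
    exact (Complex.norm_mul_exp_arg_mul_I (p - u)).symm
  have hφ1 := Complex.neg_pi_lt_arg (p - u)
  have hφ2 := Complex.arg_le_pi (p - u)
  generalize Complex.arg (p - u) = φ at hpol hφ1 hφ2
  have key : ((E1 E).filter (fun e => e.1 = u ∧ e.2 ≠ u ∧ 0 < cx (dir (e.2 - e.1)) (p - e.1) ∧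
      |cy (dir (e.2 - e.1)) (p - e.1)| ≤ Real.sqrt ε * ‖p - e.1‖)).image (cls ε) ⊆
      Finset.Icc ⌊(φ - 2 * Real.pi) / (Real.sqrt ε / 20) - 31.5⌋
        (⌊(φ - 2 * Real.pi) / (Real.sqrt ε / 20) - 31.5⌋ + 63) ∪
      (Finset.Icc ⌊φ / (Real.sqrt ε / 20) - 31.5⌋ (⌊φ / (Real.sqrt ε / 20) - 31.5⌋ + 63) ∪
      Finset.Icc ⌊(φ + 2 * Real.pi) / (Real.sqrt ε / 20) - 31.5⌋
        (⌊(φ + 2 * Real.pi) / (Real.sqrt ε / 20) - 31.5⌋ + 63)) := by
    intro k hk
    rw [Finset.mem_image] at hk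
    obtain ⟨e, he, rfl⟩ := hk
    rw [Finset.mem_filter] at he
    obtain ⟨-, he1, he2, hcx, hcy⟩ := he
    have hne : e.2 ≠ e.1 := by
      rw [he1]
      exact he2
    rw [dir_eq_uv hne] at hcx hcy
    rw [he1] at hcx hcy
    have hsplit : p - u = ((‖p - u‖ : ℝ) : ℂ) * (uv (ang e) * uv (φ - ang e)) := by
      rw [← uv_add, add_sub_cancel]
      exact hpol
    have hcx' : cx (uv (ang e)) (p - u) = ‖p - u‖ * Real.cos (φ - ang e) := by
      conv_lhs => rw [hsplit]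
      exact cx_polar (norm_uv _) _ _
    have hcy' : cy (uv (ang e)) (p - u) = ‖p - u‖ * Real.sin (φ - ang e) := by
      conv_lhs => rw [hsplit]
      exact cy_polar (norm_uv _) _ _
    rw [hcx'] at hcx
    rw [hcy', abs_mul, abs_of_pos hl, mul_comm (Real.sqrt ε)] at hcy
    have hc : 0 < Real.cos (φ - ang e) := (pos_iff_pos_of_mul_pos hcx).1 hl
    have hsn : |Real.sin (φ - ang e)| ≤ Real.sqrt ε := le_of_mul_le_mul_left hcy hl
    rw [Finset.mem_union, Finset.mem_union]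
    rcases ViolB_shift hs.le hφ1 hφ2 (ang_mem e).1 (ang_mem e).2 hc hsn with h | h | h
    · left
      refine ViolB_floor hs ?_
      rw [show φ - 2 * Real.pi - ang e = φ - ang e - 2 * Real.pi by ring]
      exact h
    · right
      left
      exact ViolB_floor hs h
    · right
      right
      refine ViolB_floor hs ?_
      rw [show φ + 2 * Real.pi - ang e = φ - ang e + 2 * Real.pi by ring]
      exact h
  have hcard : ∀ z : ℤ, (Finset.Icc z (z + 63)).card = 64 := by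
    intro z
    rw [Int.card_Icc, show z + 63 + 1 - z = 64 by ring]
    rfl
  have h1 := (Finset.card_le_card key).trans
    ((Finset.card_union_le _ _).trans (Nat.add_le_add_left (Finset.card_union_le _ _) _))
  rw [hcard, hcard, hcard] at h1
  calc _ ≤ ((64 + (64 + 64) : ℕ) : ℝ) := by exact_mod_cast h1
    _ ≤ 200 := by norm_num

end Pool.Agent.MP_259de8
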