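import Pool.Agent.Lib.MP_259de8_co.G.ViolA
import Pool.Agent.Lib.MP_259de8_co.G.ViolB

/-!
# Violating edges starting in one cell
-/

set_option autoImplicit false

namespace Pool.Agent.MP_259de8

variable {ε : ℝ} {S : Finset ℂ} {E : Finset (ℂ × ℂ)}

private theorem violC_floor {l a b : ℝ} (hl : 0 < l) (h : |a - b| ≤ l) :
    |⌊a / l⌋ - ⌊b / l⌋| ≤ 1 := by
  have h1 : |a / l - b / l| ≤ 1 := by
    rw [← sub_div, abs_div, abs_of_pos hl, div_le_one hl]
    exact h
  rw [abs_le] at h1
  have a1 := Int.floor_le (a / l)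
  have a2 := Int.lt_floor_add_one (a / l)
  have b1 := Int.floor_le (b / l)
  have b2 := Int.lt_floor_add_one (b / l)
  rw [abs_le]
  constructor
  · have : (⌊b / l⌋ : ℝ) < ⌊a / l⌋ + 2 := by linarith [h1.1]
    have h2 : ⌊b / l⌋ < ⌊a / l⌋ + 2 := by exact_mod_cast this
    omega
  · have : (⌊a / l⌋ : ℝ) < ⌊b / l⌋ + 2 := by linarith [h1.2]
    have h2 : ⌊a / l⌋ < ⌊b / l⌋ + 2 := by exact_mod_cast this
    omega

open Classical in
/-- violating one-sided edges starting in one cell: first bound.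
`mc` = number of points of `S` in the cell, `ms` = number of points of `S` in the `3 × 3` block.
Proof: map `e ↦ (e.1, cls e)`; fibres `≤ 8w/√ε + 2` (`os_fiber`); the image injects, up to a factor `200`
(`viol_classes`), into pairs `(u, p)`, `u ∈ S` in the cell, `p ∈ S` in the block (`‖p - u‖ ≤ Aε`). -/
theorem viol_cell (hS : Sys ε S E) (hε : 0 < ε) (hε1 : ε ≤ 1 / 100) {A w : ℝ} (hA : 1 ≤ A) (hw : 0 ≤ w)
    (c : ℤ × ℤ) :
    (((E1 E).filter (fun e => cell (A * ε) e.1 = c ∧ OneSided ε E w e ∧ Viol ε S A e)).card : ℝ) ≤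
      200 * (8 * w / Real.sqrt ε + 2) * (S.filter (fun z => cell (A * ε) z = c)).card *
        (S.filter (fun z => |(cell (A * ε) z).1 - c.1| ≤ 1 ∧ |(cell (A * ε) z).2 - c.2| ≤ 1)).card := by
  have hs : 0 < Real.sqrt ε := Real.sqrt_pos.mpr hε
  have hl : 0 < A * ε := by positivity
  set X : Finset (ℂ × ℂ) :=
    (E1 E).filter (fun e => cell (A * ε) e.1 = c ∧ OneSided ε E w e ∧ Viol ε S A e) with hX
  set U : Finset ℂ := S.filter (fun z => cell (A * ε) z = c) with hU
  set P : Finset ℂ :=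
    S.filter (fun z => |(cell (A * ε) z).1 - c.1| ≤ 1 ∧ |(cell (A * ε) z).2 - c.2| ≤ 1) with hP
  set I : Finset (ℂ × ℤ) := X.image (fun e => (e.1, cls ε e)) with hI
  set n : ℕ := ⌊8 * w / Real.sqrt ε + 2⌋₊ with hn
  have hn1 : (n : ℝ) ≤ 8 * w / Real.sqrt ε + 2 := Nat.floor_le (by positivity)
  have hcard1 : X.card ≤ n * I.card := by
    refine Finset.card_le_mul_card_image_of_maps_to (f := fun e : ℂ × ℂ => (e.1, cls ε e)) ?_ n ?_
    · intro e he
      exact Finset.mem_image_of_mem _ he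
    · rintro ⟨u, k⟩ _
      have h1 := os_fiber hS hε hw u k
      have h2 : (X.filter (fun e => (e.1, cls ε e) = (u, k))).card ≤
          ((E1 E).filter (fun e => e.1 = u ∧ cls ε e = k ∧ OneSided ε E w e)).card := by
        refine Finset.card_le_card ?_
        intro e he
        rw [Finset.mem_filter, hX, Finset.mem_filter] at he
        rw [Finset.mem_filter]
        exact ⟨he.1.1, congrArg Prod.fst he.2, congrArg Prod.snd he.2, he.1.2.2.1⟩
      refine h2.trans ?_
      exact Nat.le_floor h1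
  -- the choice of an edge and a point
  have hch : ∀ q : ℂ × ℤ, ∃ p : ℂ, q ∈ I → p ∈ S ∧ ∃ e ∈ E1 E, e.1 = q.1 ∧ cls ε e = q.2 ∧
      cell (A * ε) e.1 = c ∧ e.1 ∈ S ∧ e.2 ≠ q.1 ∧
      ε / 16 ≤ ‖p - e.1‖ ∧ ‖p - e.1‖ ≤ A * ε ∧ 0 < cx (dir (e.2 - e.1)) (p - e.1) ∧
      |cy (dir (e.2 - e.1)) (p - e.1)| ≤ Real.sqrt ε * ‖p - e.1‖ := by
    intro q
    by_cases hq : q ∈ I
    · obtain ⟨e, he, rfl⟩ := Finset.mem_image.mp hq
      rw [hX, Finset.mem_filter] at he
      obtain ⟨he1, he2, -, p, hp, hp1, hp2, hp3, hp4⟩ := he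
      have hm := hS.mem e.1 e.2 (mem_E1.mp he1).1
      exact ⟨p, fun _ => ⟨hp, e, he1, rfl, rfl, he2, hm.1, hm.2.2.symm, hp1, hp2, hp3, hp4⟩⟩
    · exact ⟨0, fun h => absurd h hq⟩
  choose g hg using hch
  have hcard2 : I.card ≤ 200 * (U ×ˢ P).card := by
    refine Finset.card_le_mul_card_image_of_maps_to (f := fun q : ℂ × ℤ => (q.1, g q)) ?_ 200 ?_
    · intro q hq
      obtain ⟨h1, e, h2, h3, h4, h5, h6, h7, h8, h9, -, -⟩ := hg q hq
      rw [Finset.mem_product]
      constructor
      · rw [hU, Finset.mem_filter]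
        change q.1 ∈ S ∧ cell (A * ε) q.1 = c
        rw [← h3]
        exact ⟨h6, h5⟩
      · rw [hP, Finset.mem_filter]
        refine ⟨h1, ?_⟩
        rw [← h5]
        have r1 : |(g q).re - e.1.re| ≤ A * ε := by
          rw [← Complex.sub_re]
          exact (Complex.abs_re_le_norm _).trans h9
        have r2 : |(g q).im - e.1.im| ≤ A * ε := by
          rw [← Complex.sub_im]
          exact (Complex.abs_im_le_norm _).trans h9
        exact ⟨violC_floor hl r1, violC_floor hl r2⟩
    · rintro ⟨u, p⟩ _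
      by_cases hup : p = u
      · have h0 : I.filter (fun q => (q.1, g q) = (u, p)) = ∅ := by
          rw [Finset.filter_eq_empty_iff]
          intro q hq hqe
          rw [Prod.mk.injEq] at hqe
          obtain ⟨h1, e, h2, h3, h4, h5, h6, h7, h8, -, -, -⟩ := hg q hq
          rw [hqe.2, h3, hqe.1, hup, sub_self, norm_zero] at h8
          linarith
        rw [h0, Finset.card_empty]
        exact Nat.zero_le _
      · have h1 := viol_classes (E := E) hε hε1 u p hup
        have h2 : (I.filter (fun q => (q.1, g q) = (u, p))).card ≤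
            (((E1 E).filter (fun e => e.1 = u ∧ e.2 ≠ u ∧ 0 < cx (dir (e.2 - e.1)) (p - e.1) ∧
              |cy (dir (e.2 - e.1)) (p - e.1)| ≤ Real.sqrt ε * ‖p - e.1‖)).image (cls ε)).card := by
          refine Finset.card_le_card_of_injOn (fun q => q.2) ?_ ?_
          · intro q hq
            rw [Finset.mem_coe, Finset.mem_filter, Prod.mk.injEq] at hq
            obtain ⟨hq1, hq2, hq3⟩ := hq
            obtain ⟨h1, e, h2, h3, h4, h5, h6, h7, h8, h9, h10, h11⟩ := hg q hq1
            rw [Finset.mem_coe, Finset.mem_image]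
            refine ⟨e, ?_, h4⟩
            rw [Finset.mem_filter]
            rw [hq3] at h10 h11
            rw [hq2] at h3 h7
            exact ⟨h2, h3, h7, h10, h11⟩
          · intro q hq q' hq' he
            rw [Finset.mem_coe, Finset.mem_filter, Prod.mk.injEq] at hq hq'
            exact Prod.ext (hq.2.1.trans hq'.2.1.symm) he
        refine h2.trans ?_
        exact_mod_cast h1
  have hc1 : (X.card : ℝ) ≤ n * I.card := by exact_mod_cast hcard1
  have hc2 : (I.card : ℝ) ≤ 200 * (U.card * P.card) := by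
    rw [Finset.card_product] at hcard2
    exact_mod_cast hcard2
  calc (X.card : ℝ) ≤ n * I.card := hc1
    _ ≤ (8 * w / Real.sqrt ε + 2) * (200 * (U.card * P.card)) := by
        gcongr
    _ = 200 * (8 * w / Real.sqrt ε + 2) * U.card * P.card := by ring

end Pool.Agent.MP_259de8
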